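import Mathlib

/-!
# Skew-symmetric `4 × 4` matrices, given by their six entries above the diagonal
-/

set_option autoImplicit false

namespace Pool.Agent.W824.BJ

open Finset

section ring

variable {k : Type*} [CommRing k]

/-- the skew-symmetric matrix with the entries `c` above the diagonal (in the order
`01, 02, 03, 12, 13, 23`) applied to the vector `X` -/
def ev (c : Fin 6 → k) (X : Fin 4 → k) : Fin 4 → k :=
  ![c 0 * X 1 + c 1 * X 2 + c 2 * X 3,
    -(c 0 * X 0) + c 3 * X 2 + c 4 * X 3,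
    -(c 1 * X 0) - c 3 * X 1 + c 5 * X 3,
    -(c 2 * X 0) - c 4 * X 1 - c 5 * X 2]

/-- the alternating form of the skew-symmetric matrix -/
def pr (c : Fin 6 → k) (X Y : Fin 4 → k) : k :=
  c 0 * (X 0 * Y 1 - X 1 * Y 0) + c 1 * (X 0 * Y 2 - X 2 * Y 0) +
  c 2 * (X 0 * Y 3 - X 3 * Y 0) + c 3 * (X 1 * Y 2 - X 2 * Y 1) +
  c 4 * (X 1 * Y 3 - X 3 * Y 1) + c 5 * (X 2 * Y 3 - X 3 * Y 2)

/-- the commutator -/
def br (c d : Fin 6 → k) : Fin 6 → k :=
  ![-(c 1 * d 3) - c 2 * d 4 + (d 1 * c 3 + d 2 * c 4),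
    c 0 * d 3 - c 2 * d 5 - (d 0 * c 3 - d 2 * c 5),
    c 0 * d 4 + c 1 * d 5 - (d 0 * c 4 + d 1 * c 5),
    -(c 0 * d 1) - c 4 * d 5 + (d 0 * c 1 + d 4 * c 5),
    -(c 0 * d 2) + c 3 * d 5 + (d 0 * c 2 - d 3 * c 5),
    -(c 1 * d 2) - c 3 * d 4 + (d 1 * c 2 + d 3 * c 4)]

theorem ev_add (c d : Fin 6 → k) (X : Fin 4 → k) : ev (c + d) X = ev c X + ev d X := by
  funext i; fin_cases i <;> simp [ev] <;> ring

theorem ev_sub (c d : Fin 6 → k) (X : Fin 4 → k) : ev (c - d) X = ev c X - ev d X := by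
  funext i; fin_cases i <;> simp [ev] <;> ring

theorem ev_neg (c : Fin 6 → k) (X : Fin 4 → k) : ev (-c) X = - ev c X := by
  funext i; fin_cases i <;> simp [ev] <;> ring

theorem ev_smul (a : k) (c : Fin 6 → k) (X : Fin 4 → k) : ev (a • c) X = a • ev c X := by
  funext i; fin_cases i <;> simp [ev] <;> ring

theorem ev_zero (X : Fin 4 → k) : ev (0 : Fin 6 → k) X = 0 := by
  funext i; fin_cases i <;> simp [ev]

theorem ev_add_right (c : Fin 6 → k) (X Y : Fin 4 → k) : ev c (X + Y) = ev c X + ev c Y := by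
  funext i; fin_cases i <;> simp [ev] <;> ring

theorem ev_sub_right (c : Fin 6 → k) (X Y : Fin 4 → k) : ev c (X - Y) = ev c X - ev c Y := by
  funext i; fin_cases i <;> simp [ev] <;> ring

theorem ev_neg_right (c : Fin 6 → k) (X : Fin 4 → k) : ev c (-X) = - ev c X := by
  funext i; fin_cases i <;> simp [ev] <;> ring

theorem ev_smul_right (a : k) (c : Fin 6 → k) (X : Fin 4 → k) : ev c (a • X) = a • ev c X := by
  funext i; fin_cases i <;> simp [ev] <;> ring

theorem ev_zero_right (c : Fin 6 → k) : ev c (0 : Fin 4 → k) = 0 := by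
  funext i; fin_cases i <;> simp [ev]

theorem ev_br (c d : Fin 6 → k) (X : Fin 4 → k) :
    ev (br c d) X = ev c (ev d X) - ev d (ev c X) := by
  funext i; fin_cases i <;> simp [ev, br] <;> ring

theorem dot_ev (c : Fin 6 → k) (X Y : Fin 4 → k) : X ⬝ᵥ ev c Y = pr c X Y := by
  simp [ev, pr, dotProduct, Fin.sum_univ_four]; ring

theorem pr_swap (c : Fin 6 → k) (X Y : Fin 4 → k) : pr c Y X = - pr c X Y := by
  simp [pr]; ring

theorem pr_self (c : Fin 6 → k) (X : Fin 4 → k) : pr c X X = 0 := by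
  simp [pr]; ring

theorem pr_add (c d : Fin 6 → k) (X Y : Fin 4 → k) : pr (c + d) X Y = pr c X Y + pr d X Y := by
  simp [pr]; ring

theorem pr_sub (c d : Fin 6 → k) (X Y : Fin 4 → k) : pr (c - d) X Y = pr c X Y - pr d X Y := by
  simp [pr]; ring

theorem pr_smul (a : k) (c : Fin 6 → k) (X Y : Fin 4 → k) : pr (a • c) X Y = a * pr c X Y := by
  simp [pr]; ring

theorem pr_zero (X Y : Fin 4 → k) : pr (0 : Fin 6 → k) X Y = 0 := by
  simp [pr]

theorem pr_add_left (c : Fin 6 → k) (X X' Y : Fin 4 → k) :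
    pr c (X + X') Y = pr c X Y + pr c X' Y := by
  simp [pr]; ring

theorem pr_smul_left (a : k) (c : Fin 6 → k) (X Y : Fin 4 → k) :
    pr c (a • X) Y = a * pr c X Y := by
  simp [pr]; ring

theorem pr_add_right (c : Fin 6 → k) (X Y Y' : Fin 4 → k) :
    pr c X (Y + Y') = pr c X Y + pr c X Y' := by
  simp [pr]; ring

theorem pr_smul_right (a : k) (c : Fin 6 → k) (X Y : Fin 4 → k) :
    pr c X (a • Y) = a * pr c X Y := by
  simp [pr]; ring

/-- the commutator is orthogonal to its first argument -/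
theorem br_dot (c d : Fin 6 → k) : br c d ⬝ᵥ c = 0 := by
  simp [br, dotProduct, Fin.sum_univ_six]; ring

theorem br_smul_smul (a b : k) (c d : Fin 6 → k) : br (a • c) (b • d) = (a * b) • br c d := by
  funext i; fin_cases i <;> simp [br] <;> ring

theorem eq_zero_of_ev {c : Fin 6 → k} (h : ∀ X, ev c X = 0) : c = 0 := by
  have h0 := h ![1, 0, 0, 0]
  have h1 := h ![0, 1, 0, 0]
  have h2 := h ![0, 0, 1, 0]
  funext i
  fin_cases i
  · simpa [ev] using congrFun h0 1
  · simpa [ev] using congrFun h0 2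
  · simpa [ev] using congrFun h0 3
  · simpa [ev] using congrFun h1 2
  · simpa [ev] using congrFun h1 3
  · simpa [ev] using congrFun h2 3

theorem ev_eq_zero_of_pr {c : Fin 6 → k} {X : Fin 4 → k} (h : ∀ Y, pr c X Y = 0) :
    ev c X = 0 := by
  funext i
  have h1 := dot_ev c (Pi.single i 1) X
  rw [single_one_dotProduct] at h1
  rw [h1, pr_swap, h, neg_zero, Pi.zero_apply]

theorem pr_eq_zero_of_ev {c : Fin 6 → k} {X : Fin 4 → k} (h : ev c X = 0) (Y : Fin 4 → k) :
    pr c X Y = 0 := by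
  rw [pr_swap, ← dot_ev, h, dotProduct_zero, neg_zero]

theorem eq_zero_of_pr {c : Fin 6 → k} (h : ∀ X Y, pr c X Y = 0) : c = 0 :=
  eq_zero_of_ev fun X => ev_eq_zero_of_pr (h X)

/-- the evaluation as a linear map in the matrix -/
def evL (X : Fin 4 → k) : (Fin 6 → k) →ₗ[k] (Fin 4 → k) where
  toFun c := ev c X
  map_add' c d := ev_add c d X
  map_smul' a c := ev_smul a c X

/-- the form as a linear functional of the matrix -/
def prL (X Y : Fin 4 → k) : (Fin 6 → k) →ₗ[k] k where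
  toFun c := pr c X Y
  map_add' c d := pr_add c d X Y
  map_smul' a c := pr_smul a c X Y

theorem evL_apply (X : Fin 4 → k) (c : Fin 6 → k) : evL X c = ev c X := rfl

theorem prL_apply (X Y : Fin 4 → k) (c : Fin 6 → k) : prL X Y c = pr c X Y := rfl

end ring

end Pool.Agent.W824.BJ
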