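import Mathlib
import Pool.Agent.H530R2.LinAlg
import Pool.Agent.W824.BJ.Basic

/-!
# Motions of bodies joined at points, and specialisation of the points
-/

set_option autoImplicit false

namespace Pool.Agent.W824.BJ

open Finset Module

section minors

/-- a nonvanishing minor of maximal size -/
theorem exists_minor {K ι κ : Type*} [Field K] [Finite ι] [Fintype κ] (M : Matrix ι κ K) :
    ∃ (s : Fin M.rank → ι) (c : Fin M.rank → κ), (M.submatrix s c).det ≠ 0 := by
  classical
  have hfr : Module.finrank K (Submodule.span K (Set.range M.row)) = M.rank :=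
    (Matrix.rank_eq_finrank_span_row M).symm
  obtain ⟨f, hf, -, hli⟩ := Submodule.exists_fun_fin_finrank_span_eq K (Set.range M.row)
  have hf' : ∀ i, ∃ j, M.row j = f i := fun i => hf i
  choose j hj using hf'
  have hli2 : LinearIndependent K (fun l : Fin M.rank => M (j (Fin.cast hfr.symm l))) := by
    have h1 := hli.comp (Fin.cast hfr.symm) (Fin.cast_injective _)
    have h2 : (f ∘ Fin.cast hfr.symm) = fun l : Fin M.rank => M (j (Fin.cast hfr.symm l)) := by
      funext l
      exact (hj (Fin.cast hfr.symm l)).symm
    rw [h2] at h1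
    exact h1
  obtain ⟨g, hg⟩ := Pool.Agent.H530R2.exists_minor_ne_zero _ hli2
  exact ⟨fun l => j (Fin.cast hfr.symm l), g, hg⟩

theorem le_rank_of_minor {K ι κ : Type*} [Field K] [Fintype κ] (M : Matrix ι κ K) {m : ℕ}
    (s : Fin m → ι) (c : Fin m → κ) (h : (M.submatrix s c).det ≠ 0) : m ≤ M.rank := by
  have h1 := Matrix.rank_of_det_ne_zero h
  rw [Fintype.card_fin] at h1
  rw [← h1]
  exact Matrix.rank_submatrix_le M s c

theorem det_map_sub {R S ι κ : Type*} [CommRing R] [CommRing S] (f : R →+* S) (M : Matrix ι κ R)
    {m : ℕ} (s : Fin m → ι) (c : Fin m → κ) :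
    ((M.map f).submatrix s c).det = f (M.submatrix s c).det := by
  rw [RingHom.map_det]
  rfl

/-- a specialisation does not increase the rank -/
theorem rank_map_le {R K L ι κ : Type*} [CommRing R] [Field K] [Field L] [Finite ι] [Fintype κ]
    (φ : R →+* K) (hφ : Function.Injective φ) (ψ : R →+* L) (M : Matrix ι κ R) :
    (M.map ψ).rank ≤ (M.map φ).rank := by
  obtain ⟨s, c, hsc⟩ := exists_minor (M.map ψ)
  apply le_rank_of_minor _ s c
  rw [det_map_sub φ]
  intro h0
  apply hsc
  rw [det_map_sub ψ, hφ (h0.trans (map_zero φ).symm), map_zero]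

end minors

section mot

variable {E B : Type*}

/-- the motions of the bodies which agree at the joints in `J`, placed by `y` -/
def Mot {k : Type*} [CommRing k] (s t : E → B) (J : Finset E) (y : E → Fin 4 → k) :
    Submodule k (B → Fin 6 → k) where
  carrier := {n | ∀ e ∈ J, ev (n (s e) - n (t e)) (y e) = 0}
  add_mem' := by
    intro n m hn hm e he
    have h1 := hn e he
    have h2 := hm e he
    rw [ev_sub, sub_eq_zero] at h1 h2 ⊢
    rw [Pi.add_apply, Pi.add_apply, ev_add, ev_add, h1, h2]
  zero_mem' := by
    intro e _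
    rw [Pi.zero_apply, Pi.zero_apply, sub_zero, ev_zero]
  smul_mem' := by
    intro a n hn e he
    have h1 := hn e he
    rw [Pi.smul_apply, Pi.smul_apply, ← smul_sub, ev_smul, h1, smul_zero]

theorem mem_mot {k : Type*} [CommRing k] {s t : E → B} {J : Finset E} {y : E → Fin 4 → k}
    {n : B → Fin 6 → k} : n ∈ Mot s t J y ↔ ∀ e ∈ J, ev (n (s e) - n (t e)) (y e) = 0 := Iff.rfl

theorem mem_mot' {k : Type*} [CommRing k] {s t : E → B} {J : Finset E} {y : E → Fin 4 → k}
    {n : B → Fin 6 → k} : n ∈ Mot s t J y ↔ ∀ e ∈ J, ev (n (s e)) (y e) = ev (n (t e)) (y e) := by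
  rw [mem_mot]
  refine forall₂_congr fun e _ => ?_
  rw [ev_sub, sub_eq_zero]

open Classical in
/-- the constraint map -/
noncomputable def conMap {k : Type*} [CommRing k] (s t : E → B) (J : Finset E)
    (y : E → Fin 4 → k) : (B × Fin 6 → k) →ₗ[k] (E × Fin 4 → k) where
  toFun n c := if c.1 ∈ J then ev (fun l => n (s c.1, l) - n (t c.1, l)) (y c.1) c.2 else 0
  map_add' n m := by
    funext c
    by_cases h : c.1 ∈ J
    · have e1 : (fun l => (n + m) (s c.1, l) - (n + m) (t c.1, l)) =
          (fun l => n (s c.1, l) - n (t c.1, l)) + (fun l => m (s c.1, l) - m (t c.1, l)) := by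
        funext l
        simp only [Pi.add_apply]
        ring
      rw [Pi.add_apply, if_pos h, if_pos h, if_pos h, e1, ev_add, Pi.add_apply]
    · rw [Pi.add_apply, if_neg h, if_neg h, if_neg h, add_zero]
  map_smul' a n := by
    funext c
    by_cases h : c.1 ∈ J
    · have e1 : (fun l => (a • n) (s c.1, l) - (a • n) (t c.1, l)) =
          a • (fun l => n (s c.1, l) - n (t c.1, l)) := by
        funext l
        simp only [Pi.smul_apply, smul_eq_mul]
        ring
      rw [Pi.smul_apply, if_pos h, if_pos h, e1, ev_smul, Pi.smul_apply, RingHom.id_apply]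
    · rw [Pi.smul_apply, if_neg h, if_neg h, smul_zero]

theorem finrank_mot {k : Type*} [Field k] [Fintype E] [Fintype B] [DecidableEq B]
    (s t : E → B) (J : Finset E) (y : E → Fin 4 → k) :
    finrank k (Mot s t J y) + (LinearMap.toMatrix' (conMap s t J y)).rank =
      6 * Fintype.card B := by
  classical
  have h1 := LinearMap.finrank_range_add_finrank_ker (conMap s t J y)
  have h2 : (LinearMap.toMatrix' (conMap s t J y)).rank =
      finrank k (LinearMap.range (conMap s t J y)) := by
    rw [Matrix.rank, ← Matrix.toLin'_apply', Matrix.toLin'_toMatrix']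
  have h3 : LinearMap.ker (conMap s t J y) =
      (Mot s t J y).comap (LinearEquiv.curry k k B (Fin 6)).toLinearMap := by
    ext n
    rw [LinearMap.mem_ker, Submodule.mem_comap]
    constructor
    · intro h e he
      funext i
      have := congrFun h (e, i)
      change (if e ∈ J then ev (fun l => n (s e, l) - n (t e, l)) (y e) i else 0) = 0 at this
      rw [if_pos he] at this
      exact this
    · intro h
      funext c
      change (if c.1 ∈ J then ev (fun l => n (s c.1, l) - n (t c.1, l)) (y c.1) c.2 else 0) = 0
      split_ifs with hc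
      · exact congrFun (h c.1 hc) c.2
      · rfl
  have h4 : finrank k (LinearMap.ker (conMap s t J y)) = finrank k (Mot s t J y) := by
    rw [h3, Submodule.comap_equiv_eq_map_symm]
    exact LinearEquiv.finrank_map_eq _ _
  rw [h2, ← h4, add_comm, h1]
  simp
  ring

theorem conMap_map {R S : Type*} [CommRing R] [CommRing S] [Fintype B] [DecidableEq B]
    (f : R →+* S) (s t : E → B) (J : Finset E) (x : E → Fin 4 → R) :
    (LinearMap.toMatrix' (conMap s t J x)).map f =
      LinearMap.toMatrix' (conMap s t J fun e i => f (x e i)) := by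
  classical
  ext c b
  rw [Matrix.map_apply, LinearMap.toMatrix'_apply, LinearMap.toMatrix'_apply]
  change f (if c.1 ∈ J then _ else 0) = if c.1 ∈ J then _ else 0
  split_ifs with hc
  · have hp : ∀ c' : B × Fin 6, f ((Pi.single b 1 : B × Fin 6 → R) c') =
        (Pi.single b 1 : B × Fin 6 → S) c' := by
      intro c'
      by_cases h : c' = b
      · subst h; simp
      · rw [Pi.single_eq_of_ne h, Pi.single_eq_of_ne h, map_zero]
    have hq : ∀ (n : Fin 6 → R) (n' : Fin 6 → S) (X : Fin 4 → R) (i : Fin 4),
        (∀ l, f (n l) = n' l) → f (ev n X i) = ev n' (fun j => f (X j)) i := by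
      intro n n' X i h
      fin_cases i <;> simp [ev, h]
    apply hq
    intro l
    rw [map_sub, hp, hp]
  · exact map_zero f

/-- a specialisation of the placement does not decrease the space of motions -/
theorem finrank_mot_le {R K L : Type*} [CommRing R] [Field K] [Field L] [Fintype E] [Fintype B]
    (φ : R →+* K) (hφ : Function.Injective φ) (ψ : R →+* L) (s t : E → B) (J : Finset E)
    (x : E → Fin 4 → R) :
    finrank K (Mot s t J fun e i => φ (x e i)) ≤ finrank L (Mot s t J fun e i => ψ (x e i)) := by
  classical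
  have h1 := finrank_mot s t J fun e i => φ (x e i)
  have h2 := finrank_mot s t J fun e i => ψ (x e i)
  rw [← conMap_map φ] at h1
  rw [← conMap_map ψ] at h2
  have h3 := rank_map_le φ hφ ψ (LinearMap.toMatrix' (conMap s t J x))
  omega

end mot

section generic

variable (E : Type*) {B : Type*}

/-- the ring of polynomials in the coordinates of the joints -/
abbrev PR := MvPolynomial (E × Fin 4) ℚ

/-- the field of rational functions in the coordinates of the joints -/
abbrev PK := FractionRing (PR E)

/-- the tautological placement -/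
noncomputable def tx : E → Fin 4 → PR E := fun e i => MvPolynomial.X (e, i)

/-- the generic placement -/
noncomputable def gx : E → Fin 4 → PK E := fun e i => algebraMap (PR E) (PK E) (tx E e i)

variable {E}

/-- the motions at the generic placement -/
noncomputable def GM (s t : E → B) (J : Finset E) : Submodule (PK E) (B → Fin 6 → PK E) :=
  Mot s t J (gx E)

theorem finrank_GM_le {L : Type*} [Field L] [CharZero L] [Fintype E] [Fintype B]
    (s t : E → B) (J : Finset E) (y : E → Fin 4 → L) :
    finrank (PK E) (GM s t J) ≤ finrank L (Mot s t J y) := by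
  have h := finrank_mot_le (algebraMap (PR E) (PK E)) (IsFractionRing.injective _ _)
    ((MvPolynomial.aeval fun c : E × Fin 4 => y c.1 c.2 : PR E →ₐ[ℚ] L) : PR E →+* L) s t J (tx E)
  have h2 : (fun e i => ((MvPolynomial.aeval fun c : E × Fin 4 => y c.1 c.2 : PR E →ₐ[ℚ] L) :
      PR E →+* L) (tx E e i)) = y := by
    funext e i
    simp [tx]
  rw [h2] at h
  exact h

theorem finrank_eq_GM {L : Type*} [Field L] [CharZero L] [Fintype E] [Fintype B]
    (s t : E → B) (J : Finset E) (y : E → Fin 4 → L)
    (hy : AlgebraicIndependent ℚ fun c : E × Fin 4 => y c.1 c.2) :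
    finrank L (Mot s t J y) = finrank (PK E) (GM s t J) := by
  apply le_antisymm _ (finrank_GM_le s t J y)
  have h := finrank_mot_le
    ((MvPolynomial.aeval fun c : E × Fin 4 => y c.1 c.2 : PR E →ₐ[ℚ] L) : PR E →+* L)
    (fun a b hab => hy hab) (algebraMap (PR E) (PK E)) s t J (tx E)
  have h2 : (fun e i => ((MvPolynomial.aeval fun c : E × Fin 4 => y c.1 c.2 : PR E →ₐ[ℚ] L) :
      PR E →+* L) (tx E e i)) = y := by
    funext e i
    simp [tx]
  rw [h2] at h
  exact h

end generic

end Pool.Agent.W824.BJ
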