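import Mathlib
import Pool.Agent.W824.BJ.Spec

/-!
# The Lie algebra lemma
-/

set_option autoImplicit false

namespace Pool.Agent.W824.BJ

open Finset Module

section deriv

variable {E B : Type*}

/-- the derivation which moves each joint along the motion -/
noncomputable def Dm (s : E → B) (m : B → Fin 6 → PR E) : Derivation ℚ (PR E) (PR E) :=
  MvPolynomial.mkDerivation ℚ fun c : E × Fin 4 => ev (m (s c.1)) (tx E c.1) c.2

theorem Dm_tx (s : E → B) (m : B → Fin 6 → PR E) (e : E) (i : Fin 4) :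
    Dm s m (tx E e i) = ev (m (s e)) (tx E e) i := by
  unfold Dm tx
  rw [MvPolynomial.mkDerivation_X]

theorem der_ev {R : Type*} [CommRing R] [Algebra ℚ R] (D : Derivation ℚ R R) (c : Fin 6 → R)
    (X : Fin 4 → R) (i : Fin 4) :
    D (ev c X i) = ev (fun l => D (c l)) X i + ev c (fun l => D (X l)) i := by
  fin_cases i <;> simp [ev, Derivation.leibniz] <;> ring

/-- the derivation applied to the entries -/
theorem Dm_ev (s : E → B) (m : B → Fin 6 → PR E) (c : Fin 6 → PR E) (e : E) :
    (fun i => Dm s m (ev c (tx E e) i)) =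
      ev (fun l => Dm s m (c l)) (tx E e) + ev c (ev (m (s e)) (tx E e)) := by
  funext i
  rw [der_ev, Pi.add_apply]
  congr 2
  funext l
  exact Dm_tx s m e l

/-- the commutator of two motions -/
noncomputable def lieM (s : E → B) (n m : B → Fin 6 → PR E) : B → Fin 6 → PR E := fun v =>
  (fun l => Dm s m (n v l)) - (fun l => Dm s n (m v l)) + br (n v) (m v)

theorem lieM_mem (s t : E → B) (J : Finset E) {n m : B → Fin 6 → PR E}
    (hn : n ∈ Mot s t J (tx E)) (hm : m ∈ Mot s t J (tx E)) :
    lieM s n m ∈ Mot s t J (tx E) := by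
  rw [mem_mot'] at *
  intro e he
  have h1 := hn e he
  have h2 := hm e he
  have h3 : (fun i => Dm s m (ev (n (s e)) (tx E e) i)) =
      fun i => Dm s m (ev (n (t e)) (tx E e) i) := by rw [h1]
  have h4 : (fun i => Dm s n (ev (m (s e)) (tx E e) i)) =
      fun i => Dm s n (ev (m (t e)) (tx E e) i) := by rw [h2]
  rw [Dm_ev, Dm_ev] at h3 h4
  unfold lieM
  rw [ev_add, ev_add, ev_sub, ev_sub, ev_br, ev_br, ← h1, ← h2]
  linear_combination h3 - h4

theorem lie_key (s t : E → B) (J : Finset E) {v1 v2 v3 : B} (a b : PR E)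
    (hrel : ∀ n ∈ Mot s t J (tx E), n v1 = 0 → b • n v3 = a • n v2)
    {n m : B → Fin 6 → PR E} (hn : n ∈ Mot s t J (tx E)) (hm : m ∈ Mot s t J (tx E))
    (hn1 : n v1 = 0) (hm1 : m v1 = 0) :
    (b * Dm s m a - a * Dm s m b) • n v2 - (b * Dm s n a - a * Dm s n b) • m v2 =
      (a * (b - a)) • br (n v2) (m v2) := by
  have hk1 : lieM s n m v1 = 0 := by
    unfold lieM
    rw [hn1, hm1]
    funext i
    simp [br]
    fin_cases i <;> simp
  have e1 := hrel n hn hn1
  have e2 := hrel m hm hm1
  have e5 := hrel _ (lieM_mem s t J hn hm) hk1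
  have e6 : (b * b) • br (n v3) (m v3) = (a * a) • br (n v2) (m v2) := by
    rw [← br_smul_smul, ← br_smul_smul, e1, e2]
  funext i
  have f1 := congrFun e1 i
  have f2 := congrFun e2 i
  have f5 := congrFun e5 i
  have f6 := congrFun e6 i
  simp only [Pi.smul_apply, smul_eq_mul, lieM, Pi.add_apply, Pi.sub_apply] at f1 f2 f5 f6 ⊢
  have f3 := congrArg (Dm s m) f1
  have f4 := congrArg (Dm s n) f2
  rw [Derivation.leibniz, Derivation.leibniz] at f3 f4
  simp only [smul_eq_mul] at f3 f4
  linear_combination b * f5 - b * f3 + b * f4 - f6 + Dm s m b * f1 - Dm s n b * f2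

end deriv

theorem sumsq {σ : Type*} {c : Fin 6 → MvPolynomial σ ℚ} (h : c ⬝ᵥ c = 0) : c = 0 := by
  funext i
  apply MvPolynomial.funext
  intro x
  have h1 := congrArg (MvPolynomial.eval x) h
  simp only [dotProduct, map_sum, map_mul, map_zero] at h1
  rw [Pi.zero_apply, map_zero]
  have h2 := (Finset.sum_eq_zero_iff_of_nonneg (fun j _ => mul_self_nonneg _)).1 h1 i
    (Finset.mem_univ i)
  exact mul_self_eq_zero.1 h2

section ranks

variable {k : Type*} [Field k] {N : Type*} [AddCommGroup N] [Module k N]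

theorem rank1 (F : N →ₗ[k] (Fin 3 → k)) (h : ∀ n m i j, F n i * F m j = F n j * F m i) :
    ∃ n0 : N, ∀ l, ∃ α : k, F (l - α • n0) = 0 := by
  by_cases hF : ∃ n i, F n i ≠ 0
  · obtain ⟨n0, i0, h0⟩ := hF
    refine ⟨n0, fun l => ⟨F l i0 / F n0 i0, ?_⟩⟩
    funext j
    rw [map_sub, map_smul, Pi.sub_apply, Pi.smul_apply, smul_eq_mul, Pi.zero_apply, sub_eq_zero,
      div_mul_eq_mul_div, eq_div_iff h0, h l n0 j i0]
  · push Not at hF
    exact ⟨0, fun l => ⟨0, by funext j; simpa using hF l j⟩⟩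

/-- the self-dual part -/
def sdp : (Fin 6 → k) →ₗ[k] (Fin 3 → k) where
  toFun := fun c => ![c 0 + c 5, c 1 - c 4, c 2 + c 3]
  map_add' := by intro c d; funext i; fin_cases i <;> simp <;> ring
  map_smul' := by intro c d; funext i; fin_cases i <;> simp <;> ring

/-- the anti-self-dual part -/
def sdm : (Fin 6 → k) →ₗ[k] (Fin 3 → k) where
  toFun := fun c => ![c 0 - c 5, c 1 + c 4, c 2 - c 3]
  map_add' := by intro c d; funext i; fin_cases i <;> simp <;> ring
  map_smul' := by intro c d; funext i; fin_cases i <;> simp <;> ring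

theorem sdp_apply (c : Fin 6 → k) : sdp c = ![c 0 + c 5, c 1 - c 4, c 2 + c 3] := rfl

theorem sdm_apply (c : Fin 6 → k) : sdm c = ![c 0 - c 5, c 1 + c 4, c 2 - c 3] := rfl

theorem sdp_br {c d : Fin 6 → k} (h : br c d = 0) (i j : Fin 3) :
    sdp c i * sdp d j = sdp c j * sdp d i := by
  have h0 := congrFun h 0
  have h1 := congrFun h 1
  have h2 := congrFun h 2
  have h3 := congrFun h 3
  have h4 := congrFun h 4
  have h5 := congrFun h 5
  simp only [br, Matrix.cons_val, Pi.zero_apply] at h0 h1 h2 h3 h4 h5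
  fin_cases i <;> fin_cases j <;> simp [sdp_apply]
  · linear_combination - h3 - h2
  · linear_combination h1 - h4
  · linear_combination h3 + h2
  · linear_combination - h5 - h0
  · linear_combination h4 - h1
  · linear_combination h5 + h0

theorem sdm_br {c d : Fin 6 → k} (h : br c d = 0) (i j : Fin 3) :
    sdm c i * sdm d j = sdm c j * sdm d i := by
  have h0 := congrFun h 0
  have h1 := congrFun h 1
  have h2 := congrFun h 2
  have h3 := congrFun h 3
  have h4 := congrFun h 4
  have h5 := congrFun h 5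
  simp only [br, Matrix.cons_val, Pi.zero_apply] at h0 h1 h2 h3 h4 h5
  fin_cases i <;> fin_cases j <;> simp [sdm_apply]
  · linear_combination h2 - h3
  · linear_combination - h1 - h4
  · linear_combination h3 - h2
  · linear_combination h0 - h5
  · linear_combination h4 + h1
  · linear_combination h5 - h0

theorem eq_zero_of_sd [CharZero k] {c : Fin 6 → k} (h1 : sdp c = 0) (h2 : sdm c = 0) : c = 0 := by
  rw [sdp_apply] at h1
  rw [sdm_apply] at h2
  have g0 := congrFun h1 0
  have g1 := congrFun h1 1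
  have g2 := congrFun h1 2
  have g3 := congrFun h2 0
  have g4 := congrFun h2 1
  have g5 := congrFun h2 2
  simp only [Matrix.cons_val, Pi.zero_apply] at g0 g1 g2 g3 g4 g5
  have two : (2 : k) ≠ 0 := two_ne_zero
  funext i
  apply (mul_eq_zero.1 (?_ : 2 * c i = 0)).resolve_left two
  fin_cases i
  · change 2 * c 0 = 0
    linear_combination g0 + g3
  · change 2 * c 1 = 0
    linear_combination g1 + g4
  · change 2 * c 2 = 0
    linear_combination g2 + g5
  · change 2 * c 3 = 0
    linear_combination g2 - g5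
  · change 2 * c 4 = 0
    linear_combination g4 - g1
  · change 2 * c 5 = 0
    linear_combination g0 - g3

/-- commuting families have rank at most two -/
theorem comm_rank [CharZero k] (P : N →ₗ[k] (Fin 6 → k)) (h : ∀ n m, br (P n) (P m) = 0) :
    ∃ n m : N, ∀ l, ∃ a b : k, P (l - a • n - b • m) = 0 := by
  obtain ⟨n0, hn0⟩ := rank1 (sdp ∘ₗ P) (fun n m i j => sdp_br (h n m) i j)
  obtain ⟨m0, hm0⟩ := rank1 ((sdm ∘ₗ P) ∘ₗ (LinearMap.ker (sdp ∘ₗ P)).subtype)
    (fun n m i j => sdm_br (h n m) i j)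
  refine ⟨n0, m0, fun l => ?_⟩
  obtain ⟨a, ha⟩ := hn0 l
  obtain ⟨b, hb⟩ := hm0 ⟨l - a • n0, ha⟩
  refine ⟨a, b, ?_⟩
  apply eq_zero_of_sd
  · have h2 : sdp (P (m0 : N)) = 0 := m0.2
    have h3 : sdp (P (l - a • n0)) = 0 := ha
    rw [map_sub, map_sub sdp, map_smul, map_smul, h2, h3, smul_zero, sub_zero]
  · exact hb

end ranks

section final

variable {E B : Type*}

theorem map_ev {R S : Type*} [CommRing R] [CommRing S] (f : R →+* S) (c : Fin 6 → R)
    (X : Fin 4 → R) (i : Fin 4) :
    f (ev c X i) = ev (fun l => f (c l)) (fun j => f (X j)) i := by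
  fin_cases i <;> simp [ev]

theorem map_br {R S : Type*} [CommRing R] [CommRing S] (f : R →+* S) (c d : Fin 6 → R)
    (i : Fin 6) : f (br c d i) = br (fun l => f (c l)) (fun l => f (d l)) i := by
  fin_cases i <;> simp [br]

/-- the difference of the motions of two bodies -/
def dif {k : Type*} [CommRing k] (M : Submodule k (B → Fin 6 → k)) (u v : B) :
    M →ₗ[k] (Fin 6 → k) where
  toFun n := (n : B → Fin 6 → k) v - (n : B → Fin 6 → k) u
  map_add' n m := by
    simp only [Submodule.coe_add, Pi.add_apply]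
    abel
  map_smul' a n := by
    simp only [SetLike.val_smul, Pi.smul_apply, smul_sub, RingHom.id_apply]

theorem dif_apply {k : Type*} [CommRing k] (M : Submodule k (B → Fin 6 → k)) (u v : B) (n : M) :
    dif M u v n = (n : B → Fin 6 → k) v - (n : B → Fin 6 → k) u := rfl

/-- the embedding of polynomial motions -/
noncomputable def emb (l : B → Fin 6 → PR E) : B → Fin 6 → PK E :=
  fun v i => algebraMap (PR E) (PK E) (l v i)

theorem emb_mem (s t : E → B) (J : Finset E) {l : B → Fin 6 → PR E} :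
    emb l ∈ GM s t J ↔ l ∈ Mot s t J (tx E) := by
  unfold GM
  rw [mem_mot, mem_mot]
  refine forall₂_congr fun e _ => ?_
  have h : ∀ i, ev (emb l (s e) - emb l (t e)) (gx E e) i =
      algebraMap (PR E) (PK E) (ev (l (s e) - l (t e)) (tx E e) i) := by
    intro i
    rw [map_ev]
    congr 1
    funext j
    simp [emb]
  constructor
  · intro h1
    funext i
    apply IsFractionRing.injective (PR E) (PK E)
    rw [← h, h1, Pi.zero_apply, Pi.zero_apply, map_zero]
  · intro h1
    funext i
    rw [h, h1, Pi.zero_apply, Pi.zero_apply, map_zero]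

theorem scale [Finite B] (s t : E → B) (J : Finset E) {l : B → Fin 6 → PK E}
    (hl : l ∈ GM s t J) : ∃ r : PR E, r ≠ 0 ∧ ∃ l' ∈ Mot s t J (tx E),
      emb l' = algebraMap (PR E) (PK E) r • l := by
  obtain ⟨r, hr⟩ := IsLocalization.exist_integer_multiples_of_finite (nonZeroDivisors (PR E))
    (fun c : B × Fin 6 => l c.1 c.2)
  choose l' hl' using hr
  refine ⟨r, nonZeroDivisors.ne_zero r.2, fun v i => l' (v, i), ?_, ?_⟩
  · rw [← emb_mem]
    have h1 : emb (fun v i => l' (v, i)) = algebraMap (PR E) (PK E) r • l := by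
      funext v i
      change algebraMap (PR E) (PK E) (l' (v, i)) = algebraMap (PR E) (PK E) r * l v i
      rw [hl' (v, i), Algebra.smul_def]
    rw [h1]
    exact Submodule.smul_mem _ _ hl
  · funext v i
    change algebraMap (PR E) (PK E) (l' (v, i)) = algebraMap (PR E) (PK E) r * l v i
    rw [hl' (v, i), Algebra.smul_def]

theorem Dm_comb (s : E → B) (a b : PR E) (n m : B → Fin 6 → PR E) :
    Dm s (a • n - b • m) = a • Dm s n - b • Dm s m := by
  apply MvPolynomial.derivation_ext
  intro c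
  obtain ⟨e, i⟩ := c
  have h1 : ∀ n : B → Fin 6 → PR E, Dm s n (MvPolynomial.X (e, i)) = ev (n (s e)) (tx E e) i :=
    fun n => Dm_tx s n e i
  rw [h1, Derivation.sub_apply, Derivation.smul_apply, Derivation.smul_apply, h1, h1]
  rw [Pi.sub_apply, Pi.smul_apply, Pi.smul_apply, ev_sub, ev_smul, ev_smul]
  rfl

/-- constant motions -/
theorem const_mem {k : Type*} [CommRing k] (s t : E → B) (J : Finset E) (y : E → Fin 4 → k)
    (c : Fin 6 → k) : (fun _ => c) ∈ Mot s t J y := by
  intro e _
  rw [sub_self, ev_zero]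

/-- **The Lie algebra lemma.** -/
theorem lie [Finite B] (s t : E → B) (J : Finset E) {v1 v2 v3 : B} (ρ : PK E) (h0 : ρ ≠ 0)
    (h1 : ρ ≠ 1) (hrel : ∀ n ∈ GM s t J, n v3 - n v1 = ρ • (n v2 - n v1)) :
    ∃ n m : GM s t J, ∀ l, ∃ a b : PK E, dif (GM s t J) v1 v2 (l - a • n - b • m) = 0 := by
  obtain ⟨a, b, hb, hρ⟩ := IsFractionRing.div_surjective (A := PR E) ρ
  have hb0 : b ≠ 0 := nonZeroDivisors.ne_zero hb
  have hb' : algebraMap (PR E) (PK E) b ≠ 0 := by
    intro h
    exact hb0 (IsFractionRing.injective (PR E) (PK E) (h.trans (map_zero _).symm))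
  have ha0 : a ≠ 0 := by
    rintro rfl
    apply h0
    rw [← hρ, map_zero, zero_div]
  have hab : b - a ≠ 0 := by
    intro h
    apply h1
    rw [← hρ, ← sub_eq_zero.1 h, div_self hb']
  have hR : ∀ n ∈ Mot s t J (tx E), n v1 = 0 → b • n v3 = a • n v2 := by
    intro n hn hn1
    have h2 := hrel _ ((emb_mem s t J).2 hn)
    funext i
    have h3 := congrFun h2 i
    have h4 : n v1 i = 0 := congrFun hn1 i
    simp only [Pi.sub_apply, Pi.smul_apply, smul_eq_mul, emb, h4, map_zero, sub_zero] at h3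
    apply IsFractionRing.injective (PR E) (PK E)
    simp only [Pi.smul_apply, smul_eq_mul, map_mul]
    rw [h3, ← hρ]
    field_simp
  have key := fun (n m : B → Fin 6 → PR E) (hn : n ∈ Mot s t J (tx E)) (hm : m ∈ Mot s t J (tx E))
    (hn1 : n v1 = 0) (hm1 : m v1 = 0) => lie_key s t J a b hR hn hm hn1 hm1
  have gauge : ∀ l : GM s t J, ∃ r : PR E, r ≠ 0 ∧ ∃ l' ∈ Mot s t J (tx E), l' v1 = 0 ∧
      (fun i => algebraMap (PR E) (PK E) (l' v2 i)) =
        algebraMap (PR E) (PK E) r • dif (GM s t J) v1 v2 l := by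
    intro l
    obtain ⟨r, hr, l', hl', hl''⟩ := scale s t J l.2
    refine ⟨r, hr, l' - fun _ => l' v1, Submodule.sub_mem _ hl' (const_mem _ _ _ _ _), ?_, ?_⟩
    · rw [Pi.sub_apply, sub_self]
    · funext i
      have e1 := congrFun (congrFun hl'' v2) i
      have e2 := congrFun (congrFun hl'' v1) i
      simp only [emb, Pi.smul_apply, smul_eq_mul] at e1 e2
      simp only [Pi.sub_apply, map_sub, dif_apply, Pi.smul_apply, smul_eq_mul, e1, e2]
      ring
  by_cases hmu : ∃ m ∈ Mot s t J (tx E), m v1 = 0 ∧ b * Dm s m a - a * Dm s m b ≠ 0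
  · obtain ⟨m, hm, hm1, hmu⟩ := hmu
    set μ := b * Dm s m a - a * Dm s m b with hμ
    have claim : ∀ n ∈ Mot s t J (tx E), n v1 = 0 →
        μ • n v2 = (b * Dm s n a - a * Dm s n b) • m v2 := by
      intro n hn hn1
      set ν := b * Dm s n a - a * Dm s n b with hν
      have h2 : μ • n - ν • m ∈ Mot s t J (tx E) :=
        Submodule.sub_mem _ (Submodule.smul_mem _ _ hn) (Submodule.smul_mem _ _ hm)
      have h3 : (μ • n - ν • m) v1 = 0 := by
        rw [Pi.sub_apply, Pi.smul_apply, Pi.smul_apply, hn1, hm1, smul_zero, smul_zero, sub_zero]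
      have h4 := key _ _ h2 hm h3 hm1
      rw [Dm_comb, ← hμ] at h4
      have h5 : b * (μ • Dm s n - ν • Dm s m) a - a * (μ • Dm s n - ν • Dm s m) b = 0 := by
        simp only [Derivation.sub_apply, Derivation.smul_apply, smul_eq_mul]
        rw [hμ, hν]
        ring
      rw [h5, zero_smul, sub_zero] at h4
      have h6 : (μ • n - ν • m) v2 ⬝ᵥ (μ • n - ν • m) v2 = 0 := by
        have h7 := congrArg (fun c => c ⬝ᵥ (μ • n - ν • m) v2) h4
        simp only [smul_dotProduct] at h7
        rw [br_dot, smul_zero, smul_eq_mul] at h7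
        exact (mul_eq_zero.1 h7).resolve_left hmu
      have h7 := sumsq h6
      rw [Pi.sub_apply, Pi.smul_apply, Pi.smul_apply, sub_eq_zero] at h7
      exact h7
    refine ⟨⟨emb m, (emb_mem s t J).2 hm⟩, 0, fun l => ?_⟩
    obtain ⟨r, hr, l', hl', hl1, hl2⟩ := gauge l
    have h2 := claim l' hl' hl1
    set ν := b * Dm s l' a - a * Dm s l' b with hν
    have hμr : algebraMap (PR E) (PK E) (μ * r) ≠ 0 := by
      intro h
      exact (mul_ne_zero hmu hr) (IsFractionRing.injective (PR E) (PK E) (h.trans (map_zero _).symm))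
    refine ⟨algebraMap (PR E) (PK E) ν / algebraMap (PR E) (PK E) (μ * r), 0, ?_⟩
    rw [zero_smul, sub_zero, map_sub, map_smul, sub_eq_zero]
    funext i
    have h3 := congrFun hl2 i
    have h4 := congrArg (algebraMap (PR E) (PK E)) (congrFun h2 i)
    have h5 : dif (GM s t J) v1 v2 ⟨emb m, (emb_mem s t J).2 hm⟩ i =
        algebraMap (PR E) (PK E) (m v2 i) := by
      rw [dif_apply]
      change algebraMap (PR E) (PK E) (m v2 i) - algebraMap (PR E) (PK E) (m v1 i) = _
      rw [hm1, Pi.zero_apply, map_zero, sub_zero]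
    simp only [Pi.smul_apply, smul_eq_mul, map_mul] at h3 h4 ⊢
    rw [h5, div_mul_eq_mul_div, eq_div_iff (by rw [← map_mul]; exact hμr), ← h4, h3]
    ring
  · push Not at hmu
    apply comm_rank
    intro n m
    obtain ⟨r, hr, n', hn', hn1, hn2⟩ := gauge n
    obtain ⟨r', hr', m', hm', hm1, hm2⟩ := gauge m
    have h2 := key n' m' hn' hm' hn1 hm1
    rw [hmu n' hn' hn1, hmu m' hm' hm1, zero_smul, zero_smul, sub_zero] at h2
    have h3 : br (n' v2) (m' v2) = 0 := by
      rcases smul_eq_zero.1 h2.symm with h4 | h4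
      · exact absurd h4 (mul_ne_zero ha0 hab)
      · exact h4
    have h4 : (algebraMap (PR E) (PK E) r * algebraMap (PR E) (PK E) r') •
        br (dif (GM s t J) v1 v2 n) (dif (GM s t J) v1 v2 m) = 0 := by
      rw [← br_smul_smul, ← hn2, ← hm2]
      funext i
      rw [← map_br, h3, Pi.zero_apply, map_zero, Pi.zero_apply]
    rcases smul_eq_zero.1 h4 with h5 | h5
    · exfalso
      rw [← map_mul] at h5
      exact (mul_ne_zero hr hr')
        (IsFractionRing.injective (PR E) (PK E) (h5.trans (map_zero _).symm))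
    · exact h5

end final

end Pool.Agent.W824.BJ
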