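import Mathlib
import Pool.Agent.W824.BJ.Basic

/-!
# The triangle lemma
-/

set_option autoImplicit false

namespace Pool.Agent.W824.BJ

open Finset

variable {k : Type*} [Field k]

/-- two nonzero linear functionals do not vanish at a common vector -/
theorem two_nz {U : Type*} [AddCommGroup U] [Module k U] (f g : U →ₗ[k] k) (hf : f ≠ 0)
    (hg : g ≠ 0) : ∃ u, f u ≠ 0 ∧ g u ≠ 0 := by
  obtain ⟨a, ha⟩ : ∃ a, f a ≠ 0 := by
    by_contra h
    push Not at h
    exact hf (LinearMap.ext h)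
  obtain ⟨b, hb⟩ : ∃ b, g b ≠ 0 := by
    by_contra h
    push Not at h
    exact hg (LinearMap.ext h)
  by_cases h1 : g a = 0
  · by_cases h2 : f b = 0
    · exact ⟨a + b, by simpa [h2] using ha, by simpa [h1] using hb⟩
    · exact ⟨b, h2, hb⟩
  · exact ⟨a, ha, h1⟩

/-- pointwise dependent linear families of functions, one of them of rank at least two, are
proportional -/
theorem pd {U N : Type*} [AddCommGroup U] [Module k U] (f g : U →ₗ[k] (N → k))
    (h : ∀ u n m, f u n * g u m = f u m * g u n) {u1 u2 : U} {n m : N}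
    (hr : f u1 n * f u2 m - f u1 m * f u2 n ≠ 0) : ∃ ρ : k, ∀ u n, g u n = ρ * f u n := by
  -- a place where `f u1` does not vanish
  obtain ⟨n0, hn0⟩ : ∃ n0, f u1 n0 ≠ 0 := by
    by_contra hc
    push Not at hc
    apply hr
    rw [hc n, hc m]
    ring
  set ρ : k := g u1 n0 / f u1 n0 with hρ
  set g' : U →ₗ[k] (N → k) := g - ρ • f with hg'
  have hg'a : ∀ u n, g' u n = g u n - ρ * f u n := by
    intro u n
    simp [hg']
  have h' : ∀ u n m, f u n * g' u m = f u m * g' u n := by
    intro u n m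
    rw [hg'a, hg'a]
    linear_combination h u n m
  have h1 : ∀ n, g' u1 n = 0 := by
    intro n
    rw [hg'a, hρ, div_mul_eq_mul_div, sub_eq_zero, eq_div_iff hn0]
    linear_combination - h u1 n n0
  have h1v : ∀ v n m, f u1 n * g' v m = f u1 m * g' v n := by
    intro v n m
    have e1 := h' (u1 + v) n m
    have e2 := h' v n m
    simp only [map_add, Pi.add_apply, h1] at e1
    linear_combination e1 - e2
  have h2 : ∀ n, g' u2 n = 0 := by
    -- `g' u2` is a multiple of `f u1` and of `f u2`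
    have hc : ∀ l, g' u2 l = (g' u2 n0 / f u1 n0) * f u1 l := by
      intro l
      rw [div_mul_eq_mul_div, eq_div_iff hn0]
      linear_combination h1v u2 n0 l
    set c := g' u2 n0 / f u1 n0 with hcdef
    have e1 := h' u2 n m
    rw [hc n, hc m] at e1
    have : c = 0 := by
      have e2 : c * (f u1 n * f u2 m - f u1 m * f u2 n) = 0 := by linear_combination - e1
      rcases mul_eq_zero.1 e2 with e3 | e3
      · exact e3
      · exact absurd e3 hr
    intro l
    rw [hc l, this, zero_mul]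
  have h2v : ∀ v n m, f u2 n * g' v m = f u2 m * g' v n := by
    intro v n m
    have e1 := h' (u2 + v) n m
    have e2 := h' v n m
    simp only [map_add, Pi.add_apply, h2] at e1
    linear_combination e1 - e2
  refine ⟨ρ, fun u l => ?_⟩
  have hc : ∀ l, g' u l = (g' u n0 / f u1 n0) * f u1 l := by
    intro l
    rw [div_mul_eq_mul_div, eq_div_iff hn0]
    linear_combination h1v u n0 l
  set c := g' u n0 / f u1 n0 with hcdef
  have e1 := h2v u n m
  rw [hc n, hc m] at e1
  have hc0 : c = 0 := by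
    have e2 : c * (f u1 n * f u2 m - f u1 m * f u2 n) = 0 := by linear_combination - e1
    rcases mul_eq_zero.1 e2 with e3 | e3
    · exact e3
    · exact absurd e3 hr
  have e3 := hc l
  rw [hc0, zero_mul, hg'a] at e3
  exact sub_eq_zero.1 e3

/-- a quadratic polynomial with nonzero constant term has a nonzero value at `1`, `-1` or `2` -/
theorem quad_nz [CharZero k] (A B C : k) (hA : A ≠ 0) :
    ∃ t : k, t ≠ 0 ∧ A + B * t + C * t ^ 2 ≠ 0 := by
  by_contra h
  push Not at h
  have h1 := h 1 one_ne_zero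
  have h2 := h (-1) (neg_ne_zero.2 one_ne_zero)
  have h3 := h 2 two_ne_zero
  apply hA
  have h6 : (6 : k) ≠ 0 := by norm_num
  have : 6 * A = 0 := by linear_combination 6 * h1 + 2 * h2 - 2 * h3
  rcases mul_eq_zero.1 this with h7 | h7
  · exact absurd h7 h6
  · exact h7

/-- a nonzero skew-symmetric matrix has rank at least two -/
theorem ev_rank {c : Fin 6 → k} (hc : c ≠ 0) :
    ∃ (X Y : Fin 4 → k) (i j : Fin 4), ev c X i * ev c Y j - ev c X j * ev c Y i ≠ 0 := by
  by_contra hcon
  push Not at hcon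
  apply hc
  funext l
  have key : c l ^ 2 = 0 := by
    fin_cases l
    · have := hcon ![1, 0, 0, 0] ![0, 1, 0, 0] 0 1
      simp [ev] at this
      simp [this]
    · have := hcon ![1, 0, 0, 0] ![0, 0, 1, 0] 0 2
      simp [ev] at this
      simp [this]
    · have := hcon ![1, 0, 0, 0] ![0, 0, 0, 1] 0 3
      simp [ev] at this
      simp [this]
    · have := hcon ![0, 1, 0, 0] ![0, 0, 1, 0] 1 2
      simp [ev] at this
      simp [this]
    · have := hcon ![0, 1, 0, 0] ![0, 0, 0, 1] 1 3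
      simp [ev] at this
      simp [this]
    · have := hcon ![0, 0, 1, 0] ![0, 0, 0, 1] 2 3
      simp [ev] at this
      simp [this]
  simpa using key

/-- skew-symmetric matrices which are dependent at each vector are dependent -/
theorem ev_dep {c d : Fin 6 → k} (hc : c ≠ 0)
    (h : ∀ X i j, ev c X i * ev d X j = ev c X j * ev d X i) : ∃ ρ : k, d = ρ • c := by
  have hrank := ev_rank hc
  obtain ⟨X, Y, i, j, hr⟩ := hrank
  let F : (Fin 6 → k) → ((Fin 4 → k) →ₗ[k] (Fin 4 → k)) := fun c =>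
    { toFun := fun X => ev c X
      map_add' := fun X Y => ev_add_right c X Y
      map_smul' := fun a X => ev_smul_right a c X }
  obtain ⟨ρ, hρ⟩ := pd (F c) (F d) (fun u n m => h u n m) (u1 := X) (u2 := Y) (n := i) (m := j) hr
  refine ⟨ρ, ?_⟩
  have : d - ρ • c = 0 := by
    apply eq_zero_of_ev
    intro X
    rw [ev_sub, ev_smul]
    funext l
    have := hρ X l
    change ev d X l = ρ * ev c X l at this
    simp [this]
  exact sub_eq_zero.1 this

/-- two nonzero forms do not vanish at a common pair -/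
theorem pr_two_nz {c d : Fin 6 → k} (hc : c ≠ 0) (hd : d ≠ 0) :
    ∃ X Y : Fin 4 → k, pr c X Y ≠ 0 ∧ pr d X Y ≠ 0 := by
  have ex : ∀ c : Fin 6 → k, c ≠ 0 → ∃ X Y, pr c X Y ≠ 0 := by
    intro c hc
    by_contra h
    push Not at h
    exact hc (eq_zero_of_pr h)
  obtain ⟨X1, Y1, h1⟩ := ex c hc
  obtain ⟨X2, Y2, h2⟩ := ex d hd
  -- a common first vector
  let G : (Fin 6 → k) → (Fin 4 → k) → ((Fin 4 → k) →ₗ[k] k) := fun c Y =>
    { toFun := fun X => pr c X Y
      map_add' := fun X X' => pr_add_left c X X' Y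
      map_smul' := fun a X => pr_smul_left a c X Y }
  obtain ⟨X, hX1, hX2⟩ := two_nz (G c Y1) (G d Y2) (fun h => h1 (LinearMap.congr_fun h X1))
    (fun h => h2 (LinearMap.congr_fun h X2))
  let G' : (Fin 6 → k) → ((Fin 4 → k) →ₗ[k] k) := fun c =>
    { toFun := fun Y => pr c X Y
      map_add' := fun Y Y' => pr_add_right c X Y Y'
      map_smul' := fun a Y => pr_smul_right a c X Y }
  obtain ⟨Y, hY1, hY2⟩ := two_nz (G' c) (G' d) (fun h => hX1 (LinearMap.congr_fun h Y1))
    (fun h => hX2 (LinearMap.congr_fun h Y2))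
  exact ⟨X, Y, hY1, hY2⟩

/-- the determinant of three functionals at three vectors -/
def det3 (a1 a2 a3 b1 b2 b3 c1 c2 c3 : k) : k :=
  a1 * (b2 * c3 - b3 * c2) - a2 * (b1 * c3 - b3 * c1) + a3 * (b1 * c2 - b2 * c1)

variable {N : Type*} [AddCommGroup N] [Module k N]

section tri

variable (P Q : N →ₗ[k] (Fin 6 → k))

/-- the hypothesis of the triangle lemma -/
def TriHyp : Prop := ∀ (X Y Z : Fin 4 → k) (l1 l2 l3 : N),
  det3 (pr (P l1) X Y) (pr (P l2) X Y) (pr (P l3) X Y)
    (pr (Q l1) X Z) (pr (Q l2) X Z) (pr (Q l3) X Z)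
    (pr (Q l1 - P l1) Y Z) (pr (Q l2 - P l2) Y Z) (pr (Q l3 - P l3) Y Z) = 0

variable {P Q}

theorem tri_Q (h : TriHyp P Q) (X Y Z : Fin 4 → k) (l1 l2 l3 : N) :
    det3 (pr (P l1) X Y) (pr (P l2) X Y) (pr (P l3) X Y)
      (pr (Q l1) X Y) (pr (Q l2) X Y) (pr (Q l3) X Y)
      (pr (Q l1) X Z) (pr (Q l2) X Z) (pr (Q l3) X Z) = 0 := by
  have e1 := h X Y Z l1 l2 l3
  have e2 := h X Y (Z + X) l1 l2 l3
  simp only [pr_add_right, pr_self, pr_sub, pr_swap _ X Y, add_zero] at e1 e2
  unfold det3 at *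
  linear_combination e2 - e1

theorem tri_P (h : TriHyp P Q) (X Y Z : Fin 4 → k) (l1 l2 l3 : N) :
    det3 (pr (P l1) X Z) (pr (P l2) X Z) (pr (P l3) X Z)
      (pr (Q l1) X Z) (pr (Q l2) X Z) (pr (Q l3) X Z)
      (pr (P l1) X Y) (pr (P l2) X Y) (pr (P l3) X Y) = 0 := by
  have e1 := h X Y Z l1 l2 l3
  have e2 := h X (Y + X) Z l1 l2 l3
  simp only [pr_add_right, pr_add_left, pr_self, pr_sub, add_zero] at e1 e2
  unfold det3 at *
  linear_combination e2 - e1

/-- both maps vanish at a vector at which they vanish in a nondegenerate pair -/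
theorem tri_van (h : TriHyp P Q) {X Z : Fin 4 → k} {n m : N}
    (hne : pr (P n) X Z * pr (Q m) X Z - pr (P m) X Z * pr (Q n) X Z ≠ 0) {l : N}
    (hP : pr (P l) X Z = 0) (hQ : pr (Q l) X Z = 0) (Y : Fin 4 → k) :
    pr (P l) X Y = 0 ∧ pr (Q l) X Y = 0 := by
  have e1 := tri_P h X Y Z n m l
  have e2 := tri_Q h X Z Y n m l
  rw [hP, hQ] at e1 e2
  unfold det3 at e1 e2
  constructor
  · have : (pr (P n) X Z * pr (Q m) X Z - pr (P m) X Z * pr (Q n) X Z) * pr (P l) X Y = 0 := by
      linear_combination e1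
    rcases mul_eq_zero.1 this with h1 | h1
    · exact absurd h1 hne
    · exact h1
  · have : (pr (P n) X Z * pr (Q m) X Z - pr (P m) X Z * pr (Q n) X Z) * pr (Q l) X Y = 0 := by
      linear_combination e2
    rcases mul_eq_zero.1 this with h1 | h1
    · exact absurd h1 hne
    · exact h1

theorem tri_van' (h : TriHyp P Q) {X Z : Fin 4 → k} {n m : N}
    (hne : pr (P n) X Z * pr (Q m) X Z - pr (P m) X Z * pr (Q n) X Z ≠ 0) {l : N}
    (hP : pr (P l) X Z = 0) (hQ : pr (Q l) X Z = 0) (Y : Fin 4 → k) :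
    pr (P l) Z Y = 0 ∧ pr (Q l) Z Y = 0 := by
  refine tri_van h (X := Z) (Z := X) (n := n) (m := m) ?_ ?_ ?_ Y
  · rw [pr_swap _ X Z, pr_swap _ X Z, pr_swap _ X Z, pr_swap _ X Z]
    intro h1
    apply hne
    linear_combination h1
  · rw [pr_swap _ X Z, hP, neg_zero]
  · rw [pr_swap _ X Z, hQ, neg_zero]

theorem tri_zero [CharZero k] (h : TriHyp P Q) {X Z : Fin 4 → k} {n m : N}
    (hne : pr (P n) X Z * pr (Q m) X Z - pr (P m) X Z * pr (Q n) X Z ≠ 0) {l : N}
    (hP : pr (P l) X Z = 0) (hQ : pr (Q l) X Z = 0) : P l = 0 ∧ Q l = 0 := by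
  have key : ∀ X' Y, pr (P l) X' Y = 0 ∧ pr (Q l) X' Y = 0 := by
    intro X' Y
    obtain ⟨t, ht, ht2⟩ := quad_nz (pr (P n) X Z * pr (Q m) X Z - pr (P m) X Z * pr (Q n) X Z)
      (pr (P n) X Z * pr (Q m) X' Z + pr (P n) X' Z * pr (Q m) X Z -
        pr (P m) X Z * pr (Q n) X' Z - pr (P m) X' Z * pr (Q n) X Z)
      (pr (P n) X' Z * pr (Q m) X' Z - pr (P m) X' Z * pr (Q n) X' Z) hne
    have hz := tri_van' h hne hP hQ X'
    have h1 := tri_van h (X := X + t • X') (Z := Z) (n := n) (m := m) (l := l) ?_ ?_ ?_ Y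
    · have h2 := tri_van h hne hP hQ Y
      simp only [pr_add_left, pr_smul_left, h2.1, h2.2, zero_add] at h1
      exact ⟨(mul_eq_zero.1 h1.1).resolve_left ht, (mul_eq_zero.1 h1.2).resolve_left ht⟩
    · intro h3
      apply ht2
      rw [← h3]
      simp only [pr_add_left, pr_smul_left]
      ring
    · rw [pr_add_left, pr_smul_left, hP, pr_swap _ Z X', hz.1]
      simp
    · rw [pr_add_left, pr_smul_left, hQ, pr_swap _ Z X', hz.2]
      simp
  exact ⟨eq_zero_of_pr fun X' Y => (key X' Y).1, eq_zero_of_pr fun X' Y => (key X' Y).2⟩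

/-- **Triangle lemma.** -/
theorem triangle [CharZero k] (h : TriHyp P Q) :
    P = 0 ∨ (∃ ρ : k, ∀ n, Q n = ρ • P n) ∨
      ∃ n m : N, ∀ l, ∃ a b : k, P (l - a • n - b • m) = 0 ∧ Q (l - a • n - b • m) = 0 := by
  by_cases h1 : ∃ (X Z : Fin 4 → k) (n m : N),
      pr (P n) X Z * pr (Q m) X Z - pr (P m) X Z * pr (Q n) X Z ≠ 0
  · obtain ⟨X, Z, n, m, hne⟩ := h1
    refine Or.inr (Or.inr ⟨n, m, fun l => ?_⟩)
    set D := pr (P n) X Z * pr (Q m) X Z - pr (P m) X Z * pr (Q n) X Z with hD
    refine ⟨(pr (P l) X Z * pr (Q m) X Z - pr (P m) X Z * pr (Q l) X Z) / D,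
      (pr (P n) X Z * pr (Q l) X Z - pr (P l) X Z * pr (Q n) X Z) / D, ?_⟩
    apply tri_zero h hne
    · simp only [map_sub, map_smul, pr_sub, pr_smul]
      field_simp
      rw [hD]
      ring
    · simp only [map_sub, map_smul, pr_sub, pr_smul]
      field_simp
      rw [hD]
      ring
  · push Not at h1
    have h1' : ∀ (X Z : Fin 4 → k) (n m : N),
        pr (P n) X Z * pr (Q m) X Z = pr (P m) X Z * pr (Q n) X Z :=
      fun X Z n m => sub_eq_zero.1 (h1 X Z n m)
    by_cases hP : P = 0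
    · exact Or.inl hP
    refine Or.inr ?_
    by_cases h2 : ∃ (X Z1 Z2 : Fin 4 → k) (n m : N),
        pr (P n) X Z1 * pr (P m) X Z2 - pr (P m) X Z1 * pr (P n) X Z2 ≠ 0
    · obtain ⟨X, Z1, Z2, n, m, hne⟩ := h2
      left
      have hpd : ∀ X : Fin 4 → k,
          pr (P n) X Z1 * pr (P m) X Z2 - pr (P m) X Z1 * pr (P n) X Z2 ≠ 0 →
          ∃ ρ : k, ∀ Z n, pr (Q n) X Z = ρ * pr (P n) X Z := by
        intro X hX
        let F : (N →ₗ[k] (Fin 6 → k)) → ((Fin 4 → k) →ₗ[k] (N → k)) := fun P =>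
          { toFun := fun Z n => pr (P n) X Z
            map_add' := fun Z Z' => by funext n; exact pr_add_right _ _ _ _
            map_smul' := fun a Z => by funext n; exact pr_smul_right _ _ _ _ }
        exact pd (F P) (F Q) (fun u n m => h1' X u n m) (u1 := Z1) (u2 := Z2) (n := n) (m := m) hX
      obtain ⟨ρ, hρ⟩ := hpd X hne
      refine ⟨ρ, ?_⟩
      have hG : ∀ Y : Fin 4 → k, (∃ n, pr (P n) X Y ≠ 0) →
          ∀ n Z, pr (Q n) Y Z = ρ * pr (P n) Y Z := by
        intro Y ⟨n', hn'⟩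
        obtain ⟨t, ht, ht2⟩ := quad_nz
          (pr (P n) X Z1 * pr (P m) X Z2 - pr (P m) X Z1 * pr (P n) X Z2)
          (pr (P n) X Z1 * pr (P m) Y Z2 + pr (P n) Y Z1 * pr (P m) X Z2 -
            pr (P m) X Z1 * pr (P n) Y Z2 - pr (P m) Y Z1 * pr (P n) X Z2)
          (pr (P n) Y Z1 * pr (P m) Y Z2 - pr (P m) Y Z1 * pr (P n) Y Z2) hne
        obtain ⟨ρ', hρ'⟩ := hpd (X + t • Y) (by
          intro h3
          apply ht2
          rw [← h3]
          simp only [pr_add_left, pr_smul_left]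
          ring)
        have h4 := hρ' X n'
        simp only [pr_add_left, pr_smul_left, pr_self, zero_add] at h4
        rw [pr_swap _ X Y, hρ Y n', pr_swap _ X Y] at h4
        have h5 : ρ' = ρ := by
          have : t * pr (P n') X Y * (ρ' - ρ) = 0 := by linear_combination h4
          rcases mul_eq_zero.1 this with h6 | h6
          · exact absurd h6 (mul_ne_zero ht hn')
          · exact sub_eq_zero.1 h6
        intro l Z
        have h6 := hρ' Z l
        simp only [pr_add_left, pr_smul_left] at h6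
        rw [hρ Z l, h5] at h6
        have : t * (pr (Q l) Y Z - ρ * pr (P l) Y Z) = 0 := by linear_combination h6
        exact sub_eq_zero.1 ((mul_eq_zero.1 this).resolve_left ht)
      have hZ1 : ∃ n, pr (P n) X Z1 ≠ 0 := by
        by_contra hc
        push Not at hc
        apply hne
        rw [hc n, hc m]
        ring
      intro l
      have : Q l - ρ • P l = 0 := by
        apply eq_zero_of_pr
        intro Y Z
        rw [pr_sub, pr_smul]
        by_cases hY : ∃ n, pr (P n) X Y ≠ 0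
        · rw [hG Y hY l Z, sub_self]
        · push Not at hY
          obtain ⟨n1, hn1⟩ := hZ1
          have h7 := hG (Y + Z1) ⟨n1, by rw [pr_add_right, hY n1, zero_add]; exact hn1⟩ l Z
          have h8 := hG Z1 ⟨n1, hn1⟩ l Z
          simp only [pr_add_left] at h7
          linear_combination h7 - h8
      exact sub_eq_zero.1 this
    · push Not at h2
      right
      obtain ⟨n0, hn0⟩ : ∃ n0, P n0 ≠ 0 := by
        by_contra hc
        push Not at hc
        exact hP (LinearMap.ext hc)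
      have hdep : ∀ l, ∃ a : k, P l = a • P n0 := by
        intro l
        apply ev_dep hn0
        intro X i j
        have h3 := sub_eq_zero.1 (h2 X (Pi.single i 1) (Pi.single j 1) n0 l)
        have e : ∀ (c : Fin 6 → k) (i : Fin 4), pr c X (Pi.single i 1) = - ev c X i := by
          intro c i
          rw [pr_swap, ← dot_ev, single_one_dotProduct]
        simp only [e] at h3
        linear_combination h3
      refine ⟨n0, n0, fun l => ?_⟩
      obtain ⟨a, ha⟩ := hdep l
      refine ⟨a, 0, ?_⟩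
      have h4 : P (l - a • n0 - (0 : k) • n0) = 0 := by
        simp [ha]
      refine ⟨h4, ?_⟩
      by_contra hQ
      obtain ⟨X, Z, h5, h6⟩ := pr_two_nz hn0 hQ
      have h7 := h1' X Z n0 (l - a • n0 - (0 : k) • n0)
      rw [h4, pr_zero, zero_mul] at h7
      exact (mul_ne_zero h5 h6) h7

end tri

end Pool.Agent.W824.BJ
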