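import Mathlib
import Pool.Agent.W824.BJ.Tri
import Pool.Agent.W824.BJ.Lie

/-!
# One joint more
-/

set_option autoImplicit false

namespace Pool.Agent.W824.BJ

open Finset Module

section lin

variable {k V W : Type*} [Field k] [AddCommGroup V] [Module k V] [AddCommGroup W] [Module k W]

theorem finrank_inf_ker [FiniteDimensional k V] (M : Submodule k V) (g : V →ₗ[k] W) :
    finrank k M = finrank k ↥(M ⊓ LinearMap.ker g) +
      finrank k (LinearMap.range (g ∘ₗ M.subtype)) := by
  have h := LinearMap.finrank_range_add_finrank_ker (g ∘ₗ M.subtype)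
  have h2 : (LinearMap.ker (g ∘ₗ M.subtype)).map M.subtype = M ⊓ LinearMap.ker g := by
    rw [LinearMap.ker_comp, Submodule.map_comap_subtype]
  have h3 := Submodule.finrank_map_subtype_eq M (LinearMap.ker (g ∘ₗ M.subtype))
  rw [h2] at h3
  rw [h3, ← h, add_comm]

theorem le_inf_add [FiniteDimensional k V] (M M' : Submodule k V) {r : ℕ}
    (g : V →ₗ[k] (Fin r → k)) (h : M ⊓ LinearMap.ker g ≤ M') :
    finrank k M ≤ finrank k M' + r := by
  rw [finrank_inf_ker M g]
  have h1 := Submodule.finrank_mono h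
  have h2 := Submodule.finrank_le (LinearMap.range (g ∘ₗ M.subtype))
  rw [finrank_fin_fun] at h2
  omega

theorem le_of_inj [FiniteDimensional k W] (M : Submodule k V) (g : V →ₗ[k] W)
    (U : Submodule k W) (hU : ∀ n ∈ M, g n ∈ U) (hinj : ∀ n ∈ M, g n = 0 → n = 0) :
    finrank k M ≤ finrank k U := by
  apply LinearMap.finrank_le_finrank_of_injective (f := g.restrict hU)
  rw [← LinearMap.ker_eq_bot, LinearMap.ker_eq_bot']
  intro n hn
  have h1 : g n = 0 := congrArg Subtype.val hn
  exact Subtype.ext (hinj n n.2 h1)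

theorem surj_of_det [FiniteDimensional k V] {r : ℕ} (L : V →ₗ[k] (Fin r → k)) (v : Fin r → V)
    (h : (Matrix.of fun i => L (v i)).det ≠ 0) :
    finrank k (LinearMap.ker L) + r = finrank k V := by
  have hs : LinearMap.range L = ⊤ := by
    rw [LinearMap.range_eq_top]
    intro Y
    set A : Matrix (Fin r) (Fin r) k := Matrix.of fun i => L (v i) with hA
    have hu : IsUnit A.det := isUnit_iff_ne_zero.2 h
    refine ⟨∑ i, (Matrix.vecMul Y A⁻¹) i • v i, ?_⟩
    rw [map_sum]
    simp only [map_smul]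
    have h1 : ∑ i, (Matrix.vecMul Y A⁻¹) i • L (v i) = Matrix.vecMul (Matrix.vecMul Y A⁻¹) A := by
      rw [Matrix.vecMul_eq_sum (Matrix.vecMul Y A⁻¹) A]
      rfl
    rw [h1, Matrix.vecMul_vecMul, Matrix.nonsing_inv_mul _ hu, Matrix.vecMul_one]
  have h1 := LinearMap.finrank_range_add_finrank_ker L
  rw [hs, finrank_top, finrank_fin_fun] at h1
  omega

/-- three independent vectors are not in the kernel of a nonzero skew-symmetric matrix -/
theorem kill3 {X : Fin 3 → Fin 4 → k} (hX : LinearIndependent k X) {d : Fin 6 → k}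
    (h : ∀ i, ev d (X i) = 0) : d = 0 := by
  by_contra hd
  obtain ⟨Y, Z, i, j, hr⟩ := ev_rank hd
  let F : (Fin 4 → k) →ₗ[k] (Fin 4 → k) :=
    { toFun := fun X => ev d X
      map_add' := fun X Y => ev_add_right d X Y
      map_smul' := fun a X => ev_smul_right a d X }
  let G : (Fin 4 → k) →ₗ[k] (Fin 2 → k) := LinearMap.funLeft k k ![i, j] ∘ₗ F
  have h1 := surj_of_det G ![Y, Z] (by
    rw [Matrix.det_fin_two]
    exact fun h => hr (by simpa [G, F, LinearMap.funLeft] using h))
  rw [finrank_fin_fun] at h1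
  have h2 : ∀ i, X i ∈ LinearMap.ker G := by
    intro i
    rw [LinearMap.mem_ker]
    change LinearMap.funLeft k k _ (ev d (X i)) = 0
    rw [h i, map_zero]
  have h3 : LinearIndependent k (fun i => (⟨X i, h2 i⟩ : LinearMap.ker G)) := by
    apply LinearIndependent.of_comp (LinearMap.ker G).subtype
    exact hX
  have h4 := h3.fintype_card_le_finrank
  rw [Fintype.card_fin] at h4
  omega

end lin

section drop

variable {E B : Type*}

/-- the dimension of the space of motions at the generic placement -/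
noncomputable def mu (s t : E → B) (J : Finset E) : ℕ := finrank (PK E) (GM s t J)

/-- no two bodies move together in all motions -/
def NR (s t : E → B) (J : Finset E) : Prop := ∀ u v, u ≠ v → ∃ n ∈ GM s t J, n u ≠ n v

theorem GM_anti (s t : E → B) {J J' : Finset E} (h : J' ⊆ J) : GM s t J ≤ GM s t J' :=
  fun _ hn e he => hn e (h he)

theorem NR.mono {s t : E → B} {J J' : Finset E} (h : J' ⊆ J) (hJ : NR s t J) : NR s t J' := by
  intro u v huv
  obtain ⟨n, hn, hne⟩ := hJ u v huv
  exact ⟨n, GM_anti s t h hn, hne⟩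

/-- the constraint at a joint -/
def evF {k : Type*} [CommRing k] (s t : E → B) (f : E) (X : Fin 4 → k) :
    (B → Fin 6 → k) →ₗ[k] (Fin 4 → k) :=
  evL X ∘ₗ (LinearMap.proj (R := k) (φ := fun _ : B => Fin 6 → k) (s f) -
    LinearMap.proj (R := k) (φ := fun _ : B => Fin 6 → k) (t f))

theorem evF_apply {k : Type*} [CommRing k] (s t : E → B) (f : E) (X : Fin 4 → k)
    (n : B → Fin 6 → k) : evF s t f X n = ev (n (s f) - n (t f)) X := rfl

theorem gx_ne (e : E) (i : Fin 4) : gx E e i ≠ 0 := by
  intro h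
  have h1 := IsFractionRing.injective (PR E) (PK E) (h.trans (map_zero _).symm)
  exact MvPolynomial.X_ne_zero _ h1

theorem gx_minor {e f : E} (hef : e ≠ f) :
    gx E e 0 * gx E f 1 - gx E e 1 * gx E f 0 ≠ 0 := by
  classical
  intro h
  have h0 : gx E e 0 * gx E f 1 - gx E e 1 * gx E f 0 = algebraMap (PR E) (PK E)
      (tx E e 0 * tx E f 1 - tx E e 1 * tx E f 0) := by
    simp [gx]
  rw [h0] at h
  have h1 := IsFractionRing.injective (PR E) (PK E) (h.trans (map_zero _).symm)
  have h2 := congrArg (MvPolynomial.eval fun c : E × Fin 4 =>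
    if c = (e, 0) ∨ c = (f, 1) then (1 : ℚ) else 0) h1
  simp [tx, hef, hef.symm] at h2

variable [Fintype B]

theorem drop_le3 [DecidableEq E] (s t : E → B) (J : Finset E) (f : E) :
    mu s t (J.erase f) ≤ mu s t J + 3 := by
  apply le_inf_add _ _ (LinearMap.funLeft (PK E) (PK E) ![1, 2, 3] ∘ₗ evF s t f (gx E f))
  intro n hn e he
  obtain ⟨hn1, hn2⟩ := hn
  by_cases hef : e = f
  · subst hef
    have h1 := congrFun hn2 0
    have h2 := congrFun hn2 1
    have h3 := congrFun hn2 2
    simp [LinearMap.funLeft, evF_apply] at h1 h2 h3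
    set Y := ev (n (s e) - n (t e)) (gx E e) with hY
    have h4 : gx E e ⬝ᵥ Y = 0 := by rw [hY, dot_ev, pr_self]
    have h5 : gx E e 0 * Y 0 = 0 := by
      simpa [dotProduct, Fin.sum_univ_four, h1, h2, h3] using h4
    have h6 := (mul_eq_zero.1 h5).resolve_left (gx_ne e 0)
    funext i
    fin_cases i <;> simp [h1, h2, h3, h6]
  · exact hn1 e (Finset.mem_erase.2 ⟨hef, he⟩)

theorem drop_le2 [DecidableEq E] (s t : E → B) (J : Finset E) {f f' : E} (hf' : f' ∈ J)
    (hne : f' ≠ f) (hpar : (s f' = s f ∧ t f' = t f) ∨ (s f' = t f ∧ t f' = s f)) :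
    mu s t (J.erase f) ≤ mu s t J + 2 := by
  apply le_inf_add _ _ (LinearMap.funLeft (PK E) (PK E) ![2, 3] ∘ₗ evF s t f (gx E f))
  intro n hn e he
  obtain ⟨hn1, hn2⟩ := hn
  by_cases hef : e = f
  · subst hef
    have h2 := congrFun hn2 0
    have h3 := congrFun hn2 1
    simp [LinearMap.funLeft, evF_apply] at h2 h3
    have h7 : ev (n (s e) - n (t e)) (gx E f') = 0 := by
      have h8 := hn1 f' (Finset.mem_erase.2 ⟨hne, hf'⟩)
      rcases hpar with ⟨h9, h10⟩ | ⟨h9, h10⟩
      · rw [h9, h10] at h8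
        exact h8
      · rw [h9, h10] at h8
        have h11 : n (s e) - n (t e) = - (n (t e) - n (s e)) := by abel
        rw [h11, ev_neg, h8, neg_zero]
    set Y := ev (n (s e) - n (t e)) (gx E e) with hY
    have h4 : gx E e ⬝ᵥ Y = 0 := by rw [hY, dot_ev, pr_self]
    have h4' : gx E f' ⬝ᵥ Y = 0 := by rw [hY, dot_ev, pr_eq_zero_of_ev h7]
    have h5 : gx E e 0 * Y 0 + gx E e 1 * Y 1 = 0 := by
      simpa [dotProduct, Fin.sum_univ_four, h2, h3] using h4
    have h5' : gx E f' 0 * Y 0 + gx E f' 1 * Y 1 = 0 := by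
      simpa [dotProduct, Fin.sum_univ_four, h2, h3] using h4'
    have hm := gx_minor hne.symm
    have h0 : Y 0 = 0 := by
      apply (mul_eq_zero.1 (?_ : (gx E e 0 * gx E f' 1 - gx E e 1 * gx E f' 0) * Y 0 = 0)).resolve_left hm
      linear_combination gx E f' 1 * h5 - gx E e 1 * h5'
    have h1 : Y 1 = 0 := by
      apply (mul_eq_zero.1 (?_ : (gx E e 0 * gx E f' 1 - gx E e 1 * gx E f' 0) * Y 1 = 0)).resolve_left hm
      linear_combination gx E e 0 * h5' - gx E f' 0 * h5
    funext i
    fin_cases i <;> simp [h1, h2, h3, h0]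
  · exact hn1 e (Finset.mem_erase.2 ⟨hef, he⟩)

theorem mu_le [Fintype E] (s t : E → B) (J : Finset E) (y : E → Fin 4 → PK E) :
    mu s t J ≤ finrank (PK E) (Mot s t J y) := by
  have : CharZero (PK E) := by infer_instance
  exact finrank_GM_le s t J y

/-- a motion which is present at a special placement of one joint -/
theorem exists_ne [Fintype E] (s t : E → B) {J : Finset E} (hNR : NR s t J) [DecidableEq E]
    {f : E} (hf : f ∈ J) (hne : s f ≠ t f) (X : Fin 4 → PK E) :
    ∃ n ∈ GM s t (J.erase f), n (s f) ≠ n (t f) ∧ ev (n (s f) - n (t f)) X = 0 := by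
  by_contra hcon
  push Not at hcon
  obtain ⟨n, hn, hn2⟩ := hNR _ _ hne
  have h1 := mu_le s t J (Function.update (gx E) f X)
  have h2 : Mot s t J (Function.update (gx E) f X) < GM s t J := by
    have h3 : ∀ m ∈ Mot s t J (Function.update (gx E) f X), m ∈ GM s t J ∧ m (s f) = m (t f) := by
      intro m hm
      have h4 : m ∈ GM s t (J.erase f) := by
        intro e he
        have h5 := hm e (Finset.mem_of_mem_erase he)
        rw [Function.update_of_ne (Finset.ne_of_mem_erase he)] at h5
        exact h5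
      have h5 : ev (m (s f) - m (t f)) X = 0 := by
        have := hm f hf
        rwa [Function.update_self] at this
      have h6 : m (s f) = m (t f) := by
        by_contra h7
        exact hcon m h4 h7 h5
      refine ⟨fun e he => ?_, h6⟩
      by_cases hef : e = f
      · rw [hef, h6, sub_self, ev_zero]
      · exact h4 e (Finset.mem_erase.2 ⟨hef, he⟩)
    refine lt_of_le_of_ne (fun m hm => (h3 m hm).1) ?_
    intro h4
    rw [← h4] at hn
    exact hn2 (h3 n hn).2
  have h3 := Submodule.finrank_lt_finrank_of_lt h2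
  exact absurd h1 (not_le.2 h3)

theorem drop_ge2 [Fintype E] (s t : E → B) {J : Finset E} (hNR : NR s t J) [DecidableEq E]
    {f : E} (hf : f ∈ J) (hne : s f ≠ t f) : mu s t J + 2 ≤ mu s t (J.erase f) := by
  by_contra hcon
  push Not at hcon
  obtain ⟨n0, hn0, hc0⟩ := hNR.mono (Finset.erase_subset f J) _ _ hne
  have hc : n0 (s f) - n0 (t f) ≠ 0 := sub_ne_zero.2 hc0
  -- the rank is at most one at every place of the joint
  have hdep : ∀ m ∈ GM s t (J.erase f), ∃ ρ : PK E, m (s f) - m (t f) = ρ • (n0 (s f) - n0 (t f)) := by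
    intro m hm
    apply ev_dep hc
    intro X i j
    by_contra hij
    have hij' : ev (n0 (s f) - n0 (t f)) X i * ev (m (s f) - m (t f)) X j -
        ev (n0 (s f) - n0 (t f)) X j * ev (m (s f) - m (t f)) X i ≠ 0 := sub_ne_zero.2 hij
    have h1 := mu_le s t J (Function.update (gx E) f X)
    let L : GM s t (J.erase f) →ₗ[PK E] (Fin 2 → PK E) :=
      (LinearMap.funLeft (PK E) (PK E) ![i, j] ∘ₗ evF s t f X) ∘ₗ (GM s t (J.erase f)).subtype
    have h2 := surj_of_det L ![⟨n0, hn0⟩, ⟨m, hm⟩] (by
      rw [Matrix.det_fin_two]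
      exact fun h => hij' (by simpa [L, evF_apply, LinearMap.funLeft] using h))
    have h3 : finrank (PK E) (Mot s t J (Function.update (gx E) f X)) ≤
        finrank (PK E) (LinearMap.ker L) := by
      have h4 : Mot s t J (Function.update (gx E) f X) ≤
          (LinearMap.ker L).map (GM s t (J.erase f)).subtype := by
        intro l hl
        have h5 : l ∈ GM s t (J.erase f) := by
          intro e he
          have h5 := hl e (Finset.mem_of_mem_erase he)
          rw [Function.update_of_ne (Finset.ne_of_mem_erase he)] at h5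
          exact h5
        have h6 : ev (l (s f) - l (t f)) X = 0 := by
          have := hl f hf
          rwa [Function.update_self] at this
        refine ⟨⟨l, h5⟩, ?_, rfl⟩
        change LinearMap.funLeft (PK E) (PK E) ![i, j] (ev (l (s f) - l (t f)) X) = 0
        rw [h6, map_zero]
      have h7 := Submodule.finrank_mono h4
      rwa [Submodule.finrank_map_subtype_eq] at h7
    unfold mu at h1 hcon
    omega
  apply hc
  apply eq_zero_of_ev
  intro X
  obtain ⟨m, hm, hm2, hm3⟩ := exists_ne s t hNR hf hne X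
  obtain ⟨ρ, hρ⟩ := hdep m hm
  rw [hρ, ev_smul] at hm3
  rcases smul_eq_zero.1 hm3 with h4 | h4
  · exfalso
    rw [h4, zero_smul, sub_eq_zero] at hρ
    exact hm2 hρ
  · exact h4

end drop

end Pool.Agent.W824.BJ
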