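import Mathlib
import Pool.Agent.W824.BJ.Drop

/-!
# Bodies with at most three joints
-/

set_option autoImplicit false

namespace Pool.Agent.W824.BJ

open Finset Module

section coords

variable {k : Type*} [Field k]

/-- first index of a coordinate -/
def ci : Fin 6 → Fin 4 := ![0, 0, 0, 1, 1, 2]

/-- second index of a coordinate -/
def cj : Fin 6 → Fin 4 := ![1, 2, 3, 2, 3, 3]

/-- complementary coordinate -/
def cc : Fin 6 → Fin 6 := ![5, 4, 3, 2, 1, 0]

theorem ev_ci (d : Fin 6 → k) (c : Fin 6) : ev d (Pi.single (ci c) 1) (cj c) = - d c := by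
  fin_cases c <;> simp [ev, ci, cj]

theorem ev_cj (d : Fin 6 → k) (c : Fin 6) : ev d (Pi.single (cj c) 1) (ci c) = d c := by
  fin_cases c <;> simp [ev, ci, cj]

theorem ev_cc {d : Fin 6 → k} {c : Fin 6} (h1 : ev d (Pi.single (ci c) 1) = 0)
    (h2 : ev d (Pi.single (cj c) 1) = 0) (h3 : d (cc c) = 0) : d = 0 := by
  have a0 := congrFun h1 0
  have a1 := congrFun h1 1
  have a2 := congrFun h1 2
  have a3 := congrFun h1 3
  have b0 := congrFun h2 0
  have b1 := congrFun h2 1
  have b2 := congrFun h2 2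
  have b3 := congrFun h2 3
  fin_cases c <;> simp [ev, ci, cj, cc] at a0 a1 a2 a3 b0 b1 b2 b3 h3 <;>
    (funext l; fin_cases l <;> simp_all)

theorem ev_e0 {d : Fin 6 → k} (h1 : ev d (Pi.single 0 1) = 0) (h3 : d 3 = 0) (h4 : d 4 = 0)
    (h5 : d 5 = 0) : d = 0 := by
  have a1 := congrFun h1 1
  have a2 := congrFun h1 2
  have a3 := congrFun h1 3
  simp [ev] at a1 a2 a3
  funext l
  fin_cases l <;> simp_all

theorem pr_of_ev {c d : Fin 6 → k} {X : Fin 4 → k} (h : ev c X = ev d X) (Y : Fin 4 → k) :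
    pr c X Y = pr d X Y := by
  rw [pr_swap c Y X, pr_swap d Y X, ← dot_ev, ← dot_ev, h]

theorem pr_of_ev' {c d : Fin 6 → k} {X : Fin 4 → k} (h : ev c X = ev d X) (Y : Fin 4 → k) :
    pr c Y X = pr d Y X := by
  rw [← dot_ev, ← dot_ev, h]

/-- the hypothesis of the triangle lemma at dependent vectors -/
theorem det3_dep {X Y Z : Fin 4 → k} (h : ¬ LinearIndependent k ![X, Y, Z])
    (p1 p2 p3 q1 q2 q3 : Fin 6 → k) :
    det3 (pr p1 X Y) (pr p2 X Y) (pr p3 X Y) (pr q1 X Z) (pr q2 X Z) (pr q3 X Z)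
      (pr (q1 - p1) Y Z) (pr (q2 - p2) Y Z) (pr (q3 - p3) Y Z) = 0 := by
  rw [Fintype.not_linearIndependent_iff] at h
  obtain ⟨g, hg, i, hi⟩ := h
  rw [Fin.sum_univ_three] at hg
  simp only [Matrix.cons_val] at hg
  set α := g 0 with hα
  set β := g 1 with hβ
  set γ := g 2 with hγ
  have r1 : ∀ c : Fin 6 → k, β * pr c X Y + γ * pr c X Z = 0 := by
    intro c
    have h1 := congrArg (fun W => pr c X W) hg
    simp only [pr_add_right, pr_smul_right, pr_self] at h1
    have h2 : pr c X (0 : Fin 4 → k) = 0 := by simp [pr]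
    rw [h2] at h1
    linear_combination h1
  have r2 : ∀ c : Fin 6 → k, α * pr c X Y - γ * pr c Y Z = 0 := by
    intro c
    have h1 := congrArg (fun W => pr c W Y) hg
    simp only [pr_add_left, pr_smul_left, pr_self, pr_swap c Y Z] at h1
    have h2 : pr c (0 : Fin 4 → k) Y = 0 := by simp [pr]
    rw [h2] at h1
    linear_combination h1
  have r3 : ∀ c : Fin 6 → k, α * pr c X Z + β * pr c Y Z = 0 := by
    intro c
    have h1 := congrArg (fun W => pr c W Z) hg
    simp only [pr_add_left, pr_smul_left, pr_self] at h1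
    have h2 : pr c (0 : Fin 4 → k) Z = 0 := by simp [pr]
    rw [h2] at h1
    linear_combination h1
  have rows : ∀ p q : Fin 6 → k, α * β * pr p X Y + α * γ * pr q X Z +
      β * γ * pr (q - p) Y Z = 0 := by
    intro p q
    rw [pr_sub]
    linear_combination γ * r3 q + β * r2 p
  have s1 := rows p1 q1
  have s2 := rows p2 q2
  have s3 := rows p3 q3
  by_cases hX : X = 0
  · have h2 : ∀ c (W : Fin 4 → k), pr c X W = 0 := by intro c W; rw [hX]; simp [pr]
    simp [det3, h2]
  by_cases hY : Y = 0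
  · have h2 : ∀ c (W : Fin 4 → k), pr c X Y = 0 := by intro c W; rw [hY]; simp [pr]
    simp [det3, h2 _ 0]
  by_cases hZ : Z = 0
  · have h2 : ∀ c (W : Fin 4 → k), pr c X Z = 0 := by intro c W; rw [hZ]; simp [pr]
    simp [det3, h2 _ 0]
  have two : (α ≠ 0 ∧ β ≠ 0) ∨ (α ≠ 0 ∧ γ ≠ 0) ∨ (β ≠ 0 ∧ γ ≠ 0) := by
    by_contra hcon
    push Not at hcon
    obtain ⟨c1, c2, c3⟩ := hcon
    by_cases ha : α = 0
    · by_cases hb : β = 0
      · have hc : γ ≠ 0 := by
          intro hc
          fin_cases i <;> simp_all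
        rw [ha, hb, zero_smul, zero_smul, zero_add, zero_add] at hg
        rcases smul_eq_zero.1 hg with h5 | h5
        · exact hc h5
        · exact hZ h5
      · have hc := c3 hb
        rw [ha, hc, zero_smul, zero_smul, zero_add, add_zero] at hg
        rcases smul_eq_zero.1 hg with h5 | h5
        · exact hb h5
        · exact hY h5
    · rw [c1 ha, c2 ha, zero_smul, zero_smul, add_zero, add_zero] at hg
      rcases smul_eq_zero.1 hg with h5 | h5
      · exact ha h5
      · exact hX h5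
  set A1 := pr p1 X Y
  set A2 := pr p2 X Y
  set A3 := pr p3 X Y
  set B1 := pr q1 X Z
  set B2 := pr q2 X Z
  set B3 := pr q3 X Z
  set C1 := pr (q1 - p1) Y Z
  set C2 := pr (q2 - p2) Y Z
  set C3 := pr (q3 - p3) Y Z
  rcases two with ⟨ha, hb⟩ | ⟨ha, hb⟩ | ⟨ha, hb⟩
  · apply (mul_eq_zero.1 (?_ : (α * β) * det3 A1 A2 A3 B1 B2 B3 C1 C2 C3 = 0)).resolve_left
      (mul_ne_zero ha hb)
    unfold det3
    linear_combination (B2 * C3 - B3 * C2) * s1 - (B1 * C3 - B3 * C1) * s2 +
      (B1 * C2 - B2 * C1) * s3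
  · apply (mul_eq_zero.1 (?_ : (α * γ) * det3 A1 A2 A3 B1 B2 B3 C1 C2 C3 = 0)).resolve_left
      (mul_ne_zero ha hb)
    unfold det3
    linear_combination -(A2 * C3 - A3 * C2) * s1 + (A1 * C3 - A3 * C1) * s2 -
      (A1 * C2 - A2 * C1) * s3
  · apply (mul_eq_zero.1 (?_ : (β * γ) * det3 A1 A2 A3 B1 B2 B3 C1 C2 C3 = 0)).resolve_left
      (mul_ne_zero ha hb)
    unfold det3
    linear_combination (A2 * B3 - A3 * B2) * s1 - (A1 * B3 - A3 * B1) * s2 +
      (A1 * B2 - A2 * B1) * s3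

end coords

section low

variable {E B : Type*}

/-- the joint `f` joins `b` and `a` -/
def cn (s t : E → B) (f : E) (b a : B) : Prop := (s f = b ∧ t f = a) ∨ (s f = a ∧ t f = b)

theorem cn_iff {k : Type*} [CommRing k] {s t : E → B} {f : E} {b a : B} (h : cn s t f b a)
    (n : B → Fin 6 → k) (X : Fin 4 → k) :
    ev (n (s f) - n (t f)) X = 0 ↔ ev (n a) X = ev (n b) X := by
  rw [ev_sub, sub_eq_zero]
  rcases h with ⟨h1, h2⟩ | ⟨h1, h2⟩
  · rw [h1, h2]
    exact eq_comm
  · rw [h1, h2]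

/-- the motions with `b` fixed -/
noncomputable def N0 (s t : E → B) (J0 : Finset E) (b : B) :
    Submodule (PK E) (B → Fin 6 → PK E) :=
  GM s t J0 ⊓ LinearMap.ker (LinearMap.proj (R := PK E) (φ := fun _ : B => Fin 6 → PK E) b)

variable [DecidableEq B]

/-- forget the motion of `b` -/
def zeroAt {k : Type*} [CommRing k] (b : B) : (B → Fin 6 → k) →ₗ[k] (B → Fin 6 → k) where
  toFun n := Function.update n b 0
  map_add' n m := by
    funext v
    by_cases h : v = b
    · subst h; simp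
    · simp [h]
  map_smul' a n := by
    funext v
    by_cases h : v = b
    · subst h; simp
    · simp [h]

theorem zeroAt_self {k : Type*} [CommRing k] (b : B) (n : B → Fin 6 → k) :
    zeroAt b n b = 0 := Function.update_self _ _ _

theorem zeroAt_of_ne {k : Type*} [CommRing k] {b v : B} (h : v ≠ b) (n : B → Fin 6 → k) :
    zeroAt b n v = n v := Function.update_of_ne h _ _

theorem single_mem {k : Type*} [CommRing k] (s t : E → B) {J0 : Finset E} {b : B}
    (hb : ∀ e ∈ J0, s e ≠ b ∧ t e ≠ b) (y : E → Fin 4 → k) (c : Fin 6 → k) :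
    Pi.single b c ∈ Mot s t J0 y := by
  intro e he
  rw [Pi.single_eq_of_ne (hb e he).1, Pi.single_eq_of_ne (hb e he).2, sub_zero, ev_zero]

variable [Fintype B]

theorem finrank_N0 (s t : E → B) {J0 : Finset E} {b : B} (hb : ∀ e ∈ J0, s e ≠ b ∧ t e ≠ b) :
    finrank (PK E) (N0 s t J0 b) + 6 = mu s t J0 := by
  unfold mu N0
  rw [finrank_inf_ker (GM s t J0)
    (LinearMap.proj (R := PK E) (φ := fun _ : B => Fin 6 → PK E) b)]
  have h : LinearMap.range ((LinearMap.proj (R := PK E) (φ := fun _ : B => Fin 6 → PK E) b) ∘ₗ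
      (GM s t J0).subtype) = ⊤ := by
    rw [LinearMap.range_eq_top]
    intro c
    refine ⟨⟨Pi.single b c, single_mem s t hb _ c⟩, ?_⟩
    change (Pi.single b c : B → Fin 6 → PK E) b = c
    exact Pi.single_eq_same _ _
  rw [h, finrank_top, finrank_fin_fun]

omit [DecidableEq B] in
theorem fiber {W : Type*} [AddCommGroup W] [Module (PK E) W] [FiniteDimensional (PK E) W]
    (M : Submodule (PK E) (B → Fin 6 → PK E)) (g : (B → Fin 6 → PK E) →ₗ[PK E] W)
    (U : Submodule (PK E) W) (hU : ∀ n ∈ M, g n ∈ U) {r : ℕ}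
    (g' : (B → Fin 6 → PK E) →ₗ[PK E] (Fin r → PK E))
    (hinj : ∀ n ∈ M, g n = 0 → g' n = 0 → n = 0) :
    finrank (PK E) M ≤ finrank (PK E) U + r := by
  rw [finrank_inf_ker M g]
  have h1 : LinearMap.range (g ∘ₗ M.subtype) ≤ U := by
    rintro _ ⟨n, rfl⟩
    exact hU n n.2
  have h2 := Submodule.finrank_mono h1
  have h3 := le_of_inj (M ⊓ LinearMap.ker g) g' ⊤ (fun _ _ => Submodule.mem_top)
    (fun n hn hn2 => hinj n hn.1 hn.2 hn2)
  rw [finrank_top, finrank_fin_fun] at h3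
  omega

omit [Fintype B] in
theorem zeroAt_mem (s t : E → B) {J J0 : Finset E} (hJ : J0 ⊆ J) {b : B}
    (hb : ∀ e ∈ J0, s e ≠ b ∧ t e ≠ b) {y : E → Fin 4 → PK E} (hy : ∀ e ∈ J0, y e = gx E e)
    {n : B → Fin 6 → PK E} (hn : n ∈ Mot s t J y) : zeroAt b n ∈ N0 s t J0 b := by
  refine ⟨fun e he => ?_, zeroAt_self b n⟩
  rw [zeroAt_of_ne (hb e he).1, zeroAt_of_ne (hb e he).2, ← hy e he]
  exact hn e (hJ he)

variable [Fintype E] [DecidableEq E]

/-- a body with one joint -/
theorem low1 (s t : E → B) {J0 : Finset E} {b a : B} (hb : ∀ e ∈ J0, s e ≠ b ∧ t e ≠ b) {f : E}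
    (hf : cn s t f b a) (hab : a ≠ b) : mu s t (insert f J0) + 3 ≤ mu s t J0 := by
  have hfJ : ∀ e ∈ J0, e ≠ f := by
    rintro e he rfl
    rcases hf with ⟨h1, _⟩ | ⟨_, h1⟩
    · exact (hb e he).1 h1
    · exact (hb e he).2 h1
  set y : E → Fin 4 → PK E := Function.update (gx E) f (Pi.single 0 1) with hy
  have hy0 : ∀ e ∈ J0, y e = gx E e := fun e he => Function.update_of_ne (hfJ e he) _ _
  have h1 := mu_le s t (insert f J0) y
  have h2 := fiber (Mot s t (insert f J0) y) (zeroAt b) (N0 s t J0 b)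
    (fun n hn => zeroAt_mem s t (Finset.subset_insert f J0) hb hy0 hn)
    (LinearMap.funLeft (PK E) (PK E) (![3, 4, 5] : Fin 3 → Fin 6) ∘ₗ
      (LinearMap.proj (R := PK E) (φ := fun _ : B => Fin 6 → PK E) b)) (by
      intro n hn hn2 hn3
      have h3 : ∀ v, v ≠ b → n v = 0 := by
        intro v hv
        rw [← zeroAt_of_ne hv n, hn2, Pi.zero_apply]
      have h4 := (cn_iff hf n (y f)).1 (hn f (Finset.mem_insert_self _ _))
      rw [h3 a hab, ev_zero, hy, Function.update_self] at h4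
      have g3 := congrFun hn3 0
      have g4 := congrFun hn3 1
      have g5 := congrFun hn3 2
      have h5 : n b = 0 := ev_e0 h4.symm g3 g4 g5
      funext v
      by_cases hv : v = b
      · rw [hv, h5, Pi.zero_apply]
      · rw [h3 v hv, Pi.zero_apply])
  have h3 := finrank_N0 s t hb
  omega

/-- a body with two joints -/
theorem low2 (s t : E → B) {J0 : Finset E} {b a1 a2 : B} (hb : ∀ e ∈ J0, s e ≠ b ∧ t e ≠ b)
    {f1 f2 : E} (hf1 : cn s t f1 b a1) (hf2 : cn s t f2 b a2) (h12 : f1 ≠ f2)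
    (hab1 : a1 ≠ b) (hab2 : a2 ≠ b) {n0 : B → Fin 6 → PK E} (hn0 : n0 ∈ GM s t J0)
    (hne : n0 a1 ≠ n0 a2) : mu s t (insert f1 (insert f2 J0)) + 6 ≤ mu s t J0 := by
  have hfJ : ∀ {f a}, cn s t f b a → ∀ e ∈ J0, e ≠ f := by
    rintro f a hf e he rfl
    rcases hf with ⟨h1, _⟩ | ⟨_, h1⟩
    · exact (hb e he).1 h1
    · exact (hb e he).2 h1
  obtain ⟨c, hc⟩ : ∃ c, n0 a1 c ≠ n0 a2 c := by
    by_contra hcon
    push Not at hcon
    exact hne (funext hcon)
  set J := insert f1 (insert f2 J0) with hJ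
  have hJ0 : J0 ⊆ J := fun e he => Finset.mem_insert_of_mem (Finset.mem_insert_of_mem he)
  set y : E → Fin 4 → PK E := Function.update (Function.update (gx E) f2 (Pi.single (cj c) 1)) f1
    (Pi.single (ci c) 1) with hy
  have hy1 : y f1 = Pi.single (ci c) 1 := Function.update_self _ _ _
  have hy2 : y f2 = Pi.single (cj c) 1 := by
    rw [hy, Function.update_of_ne h12.symm, Function.update_self]
  have hy0 : ∀ e ∈ J0, y e = gx E e := by
    intro e he
    rw [hy, Function.update_of_ne (hfJ hf1 e he), Function.update_of_ne (hfJ hf2 e he)]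
  have h1 := mu_le s t J y
  -- the difference in the coordinate `c`
  let D : (B → Fin 6 → PK E) →ₗ[PK E] PK E := LinearMap.proj (R := PK E) (φ := fun _ => PK E) c ∘ₗ
    (LinearMap.proj (R := PK E) (φ := fun _ : B => Fin 6 → PK E) a1 -
      LinearMap.proj (R := PK E) (φ := fun _ : B => Fin 6 → PK E) a2)
  have hD : ∀ n, D n = n a1 c - n a2 c := fun n => rfl
  have h2 := fiber (Mot s t J y) (zeroAt b) (N0 s t J0 b ⊓ LinearMap.ker D)
    (fun n hn => by
      refine ⟨zeroAt_mem s t hJ0 hb hy0 hn, ?_⟩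
      rw [SetLike.mem_coe, LinearMap.mem_ker, hD, zeroAt_of_ne hab1, zeroAt_of_ne hab2]
      have e1 := (cn_iff hf1 n (y f1)).1 (hn f1 (Finset.mem_insert_self _ _))
      have e2 := (cn_iff hf2 n (y f2)).1
        (hn f2 (Finset.mem_insert_of_mem (Finset.mem_insert_self _ _)))
      rw [hy1] at e1
      rw [hy2] at e2
      have e3 := congrFun e1 (cj c)
      have e4 := congrFun e2 (ci c)
      rw [ev_ci, ev_ci] at e3
      rw [ev_cj, ev_cj] at e4
      rw [neg_inj.1 e3, e4, sub_self])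
    (r := 1)
    (LinearMap.funLeft (PK E) (PK E) (![cc c] : Fin 1 → Fin 6) ∘ₗ
      (LinearMap.proj (R := PK E) (φ := fun _ : B => Fin 6 → PK E) b)) (by
      intro n hn hn2 hn3
      have h3 : ∀ v, v ≠ b → n v = 0 := by
        intro v hv
        rw [← zeroAt_of_ne hv n, hn2, Pi.zero_apply]
      have e1 := (cn_iff hf1 n (y f1)).1 (hn f1 (Finset.mem_insert_self _ _))
      have e2 := (cn_iff hf2 n (y f2)).1
        (hn f2 (Finset.mem_insert_of_mem (Finset.mem_insert_self _ _)))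
      rw [h3 a1 hab1, ev_zero, hy1] at e1
      rw [h3 a2 hab2, ev_zero, hy2] at e2
      have g3 : n b (cc c) = 0 := congrFun hn3 0
      have h5 : n b = 0 := ev_cc e1.symm e2.symm g3
      funext v
      by_cases hv : v = b
      · rw [hv, h5, Pi.zero_apply]
      · rw [h3 v hv, Pi.zero_apply])
  have h3 := finrank_N0 s t hb
  have h4 : N0 s t J0 b ⊓ LinearMap.ker D < N0 s t J0 b := by
    refine lt_of_le_of_ne inf_le_left ?_
    intro heq
    have h5 : n0 - (fun _ => n0 b) ∈ N0 s t J0 b := by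
      refine ⟨Submodule.sub_mem _ hn0 (const_mem _ _ _ _ _), ?_⟩
      change n0 b - n0 b = 0
      rw [sub_self]
    rw [← heq] at h5
    have h6 : D (n0 - fun _ => n0 b) = 0 := h5.2
    rw [hD] at h6
    simp only [Pi.sub_apply] at h6
    apply hc
    linear_combination h6
  have h5 := Submodule.finrank_lt_finrank_of_lt h4
  omega

end low

end Pool.Agent.W824.BJ
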