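import Mathlib
import Pool.Agent.W824.BJ.Low

/-!
# Bodies with three joints
-/

set_option autoImplicit false

namespace Pool.Agent.W824.BJ

open Finset Module

section lin2

variable {k V : Type*} [Field k] [AddCommGroup V] [Module k V]

theorem codim_two [FiniteDimensional k V] (M Z : Submodule k V) (n m : V)
    (h : ∀ l ∈ M, ∃ α β : k, l - α • n - β • m ∈ Z) : finrank k M ≤ finrank k Z + 2 := by
  classical
  have h1 : M ≤ Z ⊔ Submodule.span k (({n, m} : Finset V) : Set V) := by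
    intro l hl
    obtain ⟨α, β, h2⟩ := h l hl
    have h5 : l = (l - α • n - β • m) + (α • n + β • m) := by abel
    rw [h5]
    apply Submodule.add_mem_sup h2
    apply Submodule.add_mem
    · exact Submodule.smul_mem _ _ (Submodule.subset_span (by simp))
    · exact Submodule.smul_mem _ _ (Submodule.subset_span (by simp))
  have h2 := Submodule.finrank_mono h1
  have h3 := Submodule.finrank_add_le_finrank_add_finrank Z
    (Submodule.span k (({n, m} : Finset V) : Set V))
  have h4 : finrank k (Submodule.span k (({n, m} : Finset V) : Set V)) ≤ ({n, m} : Finset V).card :=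
    finrank_span_finset_le_card _
  have h5 : ({n, m} : Finset V).card ≤ 2 := Finset.card_le_two
  omega

variable {B : Type*} [Fintype B]

/-- the difference of two bodies -/
def D (k : Type*) [Field k] (u v : B) : (B → Fin 6 → k) →ₗ[k] (Fin 6 → k) :=
  LinearMap.proj (R := k) (φ := fun _ : B => Fin 6 → k) u -
    LinearMap.proj (R := k) (φ := fun _ : B => Fin 6 → k) v

omit [Fintype B] in
theorem mem_ker_D {u v : B} {n : B → Fin 6 → k} : n ∈ LinearMap.ker (D k u v) ↔ n u = n v := by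
  rw [LinearMap.mem_ker]
  exact sub_eq_zero

theorem small_abs (M0 M : Submodule k (B → Fin 6 → k)) {b a1 a2 a3 : B} {n m : B → Fin 6 → k}
    (h : ∀ l ∈ M0, ∃ α β : k, (l - α • n - β • m) ∈ M0 ∧
      (l - α • n - β • m) a1 = (l - α • n - β • m) a2 ∧
      (l - α • n - β • m) a1 = (l - α • n - β • m) a3)
    (hM : ∀ l ∈ M0, l a1 = l a2 → l a1 = l a3 → l b = l a1 → l ∈ M)
    (hmu : finrank k M0 = finrank k M + 8) : ∀ l ∈ M, l b = l a1 := by
  have h2 := codim_two M0 (M0 ⊓ LinearMap.ker (D k a1 a2) ⊓ LinearMap.ker (D k a1 a3)) n m (by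
    intro l hl
    obtain ⟨α, β, h1, h2, h3⟩ := h l hl
    exact ⟨α, β, ⟨⟨h1, mem_ker_D.2 h2⟩, mem_ker_D.2 h3⟩⟩)
  generalize hZ : M0 ⊓ LinearMap.ker (D k a1 a2) ⊓ LinearMap.ker (D k a1 a3) = Z at h2
  have h6 := le_inf_add Z (Z ⊓ LinearMap.ker (D k b a1)) (D k b a1) le_rfl
  generalize hW : Z ⊓ LinearMap.ker (D k b a1) = W at h6
  have h7 : W ≤ M := by
    intro l hl
    rw [← hW, ← hZ] at hl
    obtain ⟨⟨⟨l1, l2⟩, l3⟩, l4⟩ := hl
    exact hM l l1 (mem_ker_D.1 l2) (mem_ker_D.1 l3) (mem_ker_D.1 l4)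
  have h8 : W = M := Submodule.eq_of_le_of_finrank_le h7 (by omega)
  intro l hl
  rw [← h8, ← hW] at hl
  exact mem_ker_D.1 hl.2

end lin2

section low3

variable {E B : Type*} [DecidableEq B] [Fintype B] [Fintype E] [DecidableEq E]

omit [DecidableEq B] [Fintype E] in
theorem small_false (s t : E → B) {J J0 : Finset E} {b a1 a2 a3 : B}
    (hJ : ∀ e ∈ J, e ∉ J0 → cn s t e b a1 ∨ cn s t e b a2 ∨ cn s t e b a3)
    (hab1 : a1 ≠ b) (hNR : NR s t J) (hmu : mu s t J0 = mu s t J + 8)
    {n m : B → Fin 6 → PK E}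
    (h : ∀ l ∈ GM s t J0, ∃ α β : PK E, (l - α • n - β • m) ∈ GM s t J0 ∧
      (l - α • n - β • m) a1 = (l - α • n - β • m) a2 ∧
      (l - α • n - β • m) a1 = (l - α • n - β • m) a3) : False := by
  have key := small_abs (GM s t J0) (GM s t J) (b := b) h (by
    intro l l1 e2 e3 e4 e he
    by_cases heJ : e ∈ J0
    · exact l1 e heJ
    · rcases hJ e he heJ with h8 | h8 | h8
      · rw [cn_iff h8, e4]
      · rw [cn_iff h8, e4, e2]
      · rw [cn_iff h8, e4, e3]) hmu
  obtain ⟨l, hl, hne⟩ := hNR a1 b hab1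
  exact hne (key l hl).symm

/-- the hypothesis of the triangle lemma -/
theorem tri_hyp (s t : E → B) {J0 : Finset E} {b a1 a2 a3 : B} (hb : ∀ e ∈ J0, s e ≠ b ∧ t e ≠ b)
    {f1 f2 f3 : E} (hf1 : cn s t f1 b a1) (hf2 : cn s t f2 b a2) (hf3 : cn s t f3 b a3)
    (h12 : f1 ≠ f2) (h13 : f1 ≠ f3) (h23 : f2 ≠ f3)
    (hab1 : a1 ≠ b) (hab2 : a2 ≠ b) (hab3 : a3 ≠ b)
    (hmu : mu s t J0 = mu s t (insert f1 (insert f2 (insert f3 J0))) + 8) :
    TriHyp (dif (GM s t J0) a2 a1) (dif (GM s t J0) a3 a1) := by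
  set J := insert f1 (insert f2 (insert f3 J0)) with hJ
  have hfJ : ∀ {f a}, cn s t f b a → ∀ e ∈ J0, e ≠ f := by
    rintro f a hf e he rfl
    rcases hf with ⟨h1, _⟩ | ⟨_, h1⟩
    · exact (hb e he).1 h1
    · exact (hb e he).2 h1
  have hJ0 : J0 ⊆ J := fun e he => Finset.mem_insert_of_mem (Finset.mem_insert_of_mem
    (Finset.mem_insert_of_mem he))
  have hm1 : f1 ∈ J := Finset.mem_insert_self _ _
  have hm2 : f2 ∈ J := Finset.mem_insert_of_mem (Finset.mem_insert_self _ _)
  have hm3 : f3 ∈ J := Finset.mem_insert_of_mem (Finset.mem_insert_of_mem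
    (Finset.mem_insert_self _ _))
  set N := GM s t J0 with hN
  intro X Y Z l1 l2 l3
  by_cases hind : LinearIndependent (PK E) ![X, Y, Z]
  · by_contra hdet
    set y : E → Fin 4 → PK E := Function.update (Function.update (Function.update (gx E) f3 Z)
      f2 Y) f1 X with hy
    have hy1 : y f1 = X := Function.update_self _ _ _
    have hy2 : y f2 = Y := by
      rw [hy, Function.update_of_ne h12.symm, Function.update_self]
    have hy3 : y f3 = Z := by
      rw [hy, Function.update_of_ne h13.symm, Function.update_of_ne h23.symm,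
        Function.update_self]
    have hy0 : ∀ e ∈ J0, y e = gx E e := by
      intro e he
      rw [hy, Function.update_of_ne (hfJ hf1 e he), Function.update_of_ne (hfJ hf2 e he),
        Function.update_of_ne (hfJ hf3 e he)]
    have h1 := mu_le s t J y
    let L : (B → Fin 6 → PK E) →ₗ[PK E] (Fin 3 → PK E) := LinearMap.pi
      ![prL X Y ∘ₗ (LinearMap.proj (R := PK E) (φ := fun _ : B => Fin 6 → PK E) a1 -
          LinearMap.proj (R := PK E) (φ := fun _ : B => Fin 6 → PK E) a2),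
        prL X Z ∘ₗ (LinearMap.proj (R := PK E) (φ := fun _ : B => Fin 6 → PK E) a1 -
          LinearMap.proj (R := PK E) (φ := fun _ : B => Fin 6 → PK E) a3),
        prL Y Z ∘ₗ (LinearMap.proj (R := PK E) (φ := fun _ : B => Fin 6 → PK E) a2 -
          LinearMap.proj (R := PK E) (φ := fun _ : B => Fin 6 → PK E) a3)]
    have hL0 : ∀ n, L n 0 = pr (n a1 - n a2) X Y := fun n => rfl
    have hL1 : ∀ n, L n 1 = pr (n a1 - n a3) X Z := fun n => rfl
    have hL2 : ∀ n, L n 2 = pr (n a2 - n a3) Y Z := fun n => rfl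
    have hshift : ∀ l : N, (l : B → Fin 6 → PK E) - (fun _ => (l : B → Fin 6 → PK E) b) ∈
        N0 s t J0 b := by
      intro l
      refine ⟨Submodule.sub_mem _ l.2 (const_mem _ _ _ _ _), ?_⟩
      change (l : B → Fin 6 → PK E) b - (l : B → Fin 6 → PK E) b = 0
      rw [sub_self]
    have h2 := surj_of_det (L ∘ₗ (N0 s t J0 b).subtype)
      ![⟨_, hshift l1⟩, ⟨_, hshift l2⟩, ⟨_, hshift l3⟩] (by
        intro h
        apply hdet
        rw [Matrix.det_fin_three] at h
        simp only [Matrix.of_apply, Matrix.cons_val, LinearMap.comp_apply,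
          Submodule.subtype_apply, hL0, hL1, hL2, Pi.sub_apply, sub_sub_sub_cancel_right] at h
        simp only [det3, dif_apply, sub_sub_sub_cancel_left]
        linear_combination h)
    have h3 : finrank (PK E) (Mot s t J y) ≤
        finrank (PK E) (LinearMap.ker (L ∘ₗ (N0 s t J0 b).subtype)) := by
      rw [← Submodule.finrank_map_subtype_eq]
      apply le_of_inj _ (zeroAt b)
      · intro n hn
        have h4 := zeroAt_mem s t hJ0 hb hy0 hn
        refine ⟨⟨zeroAt b n, h4⟩, ?_, rfl⟩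
        have e1 := (cn_iff hf1 n (y f1)).1 (hn f1 hm1)
        have e2 := (cn_iff hf2 n (y f2)).1 (hn f2 hm2)
        have e3 := (cn_iff hf3 n (y f3)).1 (hn f3 hm3)
        rw [hy1] at e1
        rw [hy2] at e2
        rw [hy3] at e3
        rw [SetLike.mem_coe, LinearMap.mem_ker]
        change L (zeroAt b n) = 0
        funext i
        fin_cases i
        · change L (zeroAt b n) 0 = 0
          rw [hL0, zeroAt_of_ne hab1, zeroAt_of_ne hab2, pr_sub, pr_of_ev e1, pr_of_ev' e2,
            sub_self]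
        · change L (zeroAt b n) 1 = 0
          rw [hL1, zeroAt_of_ne hab1, zeroAt_of_ne hab3, pr_sub, pr_of_ev e1, pr_of_ev' e3,
            sub_self]
        · change L (zeroAt b n) 2 = 0
          rw [hL2, zeroAt_of_ne hab2, zeroAt_of_ne hab3, pr_sub, pr_of_ev e2, pr_of_ev' e3,
            sub_self]
      · intro n hn hn2
        have h3 : ∀ v, v ≠ b → n v = 0 := by
          intro v hv
          rw [← zeroAt_of_ne hv n, hn2, Pi.zero_apply]
        have e1 := (cn_iff hf1 n (y f1)).1 (hn f1 hm1)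
        have e2 := (cn_iff hf2 n (y f2)).1 (hn f2 hm2)
        have e3 := (cn_iff hf3 n (y f3)).1 (hn f3 hm3)
        rw [hy1, h3 a1 hab1, ev_zero] at e1
        rw [hy2, h3 a2 hab2, ev_zero] at e2
        rw [hy3, h3 a3 hab3, ev_zero] at e3
        have h5 : n b = 0 := by
          apply kill3 hind
          intro i
          fin_cases i
          · exact e1.symm
          · exact e2.symm
          · exact e3.symm
        funext v
        by_cases hv : v = b
        · rw [hv, h5, Pi.zero_apply]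
        · rw [h3 v hv, Pi.zero_apply]
    have h4 := finrank_N0 s t hb
    omega
  · exact det3_dep hind _ _ _ _ _ _

/-- a body with three joints -/
theorem low3 (s t : E → B) {J0 : Finset E} {b a1 a2 a3 : B} (hb : ∀ e ∈ J0, s e ≠ b ∧ t e ≠ b)
    {f1 f2 f3 : E} (hf1 : cn s t f1 b a1) (hf2 : cn s t f2 b a2) (hf3 : cn s t f3 b a3)
    (h12 : f1 ≠ f2) (h13 : f1 ≠ f3) (h23 : f2 ≠ f3)
    (hab1 : a1 ≠ b) (hab2 : a2 ≠ b) (hab3 : a3 ≠ b) (ha12 : a1 ≠ a2) (ha13 : a1 ≠ a3)
    (ha23 : a2 ≠ a3) (hNR : NR s t (insert f1 (insert f2 (insert f3 J0)))) :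
    mu s t J0 ≠ mu s t (insert f1 (insert f2 (insert f3 J0))) + 8 := by
  intro hmu
  set J := insert f1 (insert f2 (insert f3 J0)) with hJ
  have hJ0 : J0 ⊆ J := fun e he => Finset.mem_insert_of_mem (Finset.mem_insert_of_mem
    (Finset.mem_insert_of_mem he))
  have hNR0 : NR s t J0 := hNR.mono hJ0
  have hJ' : ∀ e ∈ J, e ∉ J0 → cn s t e b a1 ∨ cn s t e b a2 ∨ cn s t e b a3 := by
    intro e he he0
    rw [hJ, Finset.mem_insert, Finset.mem_insert, Finset.mem_insert] at he
    rcases he with rfl | rfl | rfl | he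
    · exact Or.inl hf1
    · exact Or.inr (Or.inl hf2)
    · exact Or.inr (Or.inr hf3)
    · exact absurd he he0
  set N := GM s t J0 with hN
  have htri := tri_hyp s t hb hf1 hf2 hf3 h12 h13 h23 hab1 hab2 hab3 hmu
  have hsf : ∀ n m : N, (∀ l : N, ∃ α β : PK E, dif N a2 a1 (l - α • n - β • m) = 0 ∧
      dif N a3 a1 (l - α • n - β • m) = 0) → False := by
    intro n m h
    apply small_false s t hJ' hab1 hNR hmu (n := n) (m := m)
    intro l hl
    obtain ⟨α, β, h1, h2⟩ := h ⟨l, hl⟩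
    rw [dif_apply, sub_eq_zero] at h1 h2
    rw [Submodule.coe_sub, Submodule.coe_sub, Submodule.coe_smul, Submodule.coe_smul] at h1 h2
    exact ⟨α, β, Submodule.sub_mem _ (Submodule.sub_mem _ hl (Submodule.smul_mem _ _ n.2))
      (Submodule.smul_mem _ _ m.2), h1, h2⟩
  rcases triangle htri with h1 | ⟨ρ, hρ⟩ | ⟨n, m, h⟩
  · obtain ⟨n, hn, hne⟩ := hNR0 a1 a2 ha12
    apply hne
    have h2 := LinearMap.congr_fun h1 ⟨n, hn⟩
    exact sub_eq_zero.1 h2
  · by_cases hρ0 : ρ = 0
    · obtain ⟨n, hn, hne⟩ := hNR0 a1 a3 ha13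
      apply hne
      have h2 := hρ ⟨n, hn⟩
      rw [hρ0, zero_smul] at h2
      exact sub_eq_zero.1 h2
    by_cases hρ1 : ρ = 1
    · obtain ⟨n, hn, hne⟩ := hNR0 a2 a3 ha23
      apply hne
      have h2 := hρ ⟨n, hn⟩
      rw [hρ1, one_smul, dif_apply, dif_apply] at h2
      exact (sub_right_inj.1 h2).symm
    obtain ⟨n, m, h⟩ := lie s t J0 (v1 := a1) (v2 := a2) (v3 := a3) ρ hρ0 hρ1 (by
      intro n hn
      have h2 := hρ ⟨n, hn⟩
      rw [dif_apply, dif_apply] at h2
      have h3 : n a3 - n a1 = - (n a1 - n a3) := by abel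
      have h4 : n a2 - n a1 = - (n a1 - n a2) := by abel
      rw [h3, h4, smul_neg, ← h2])
    apply hsf n m
    intro l
    obtain ⟨α, β, h1⟩ := h l
    refine ⟨α, β, ?_, ?_⟩
    · rw [dif_apply] at h1 ⊢
      exact sub_eq_zero.2 (sub_eq_zero.1 h1).symm
    · rw [hρ]
      rw [dif_apply] at h1 ⊢
      rw [sub_eq_zero.1 h1, sub_self, smul_zero]
  · exact hsf n m h

end low3

end Pool.Agent.W824.BJ
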