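import Mathlib
import Pool.Agent.W824.BJ.Low3

/-!
# The dimension of the space of motions when no two bodies move together
-/

set_option autoImplicit false

namespace Pool.Agent.W824.BJ

open Finset Module

section ind

variable {E B : Type*} [DecidableEq B]

/-- the bodies with a joint in `J` -/
def touch (s t : E → B) (J : Finset E) : Finset B := J.image s ∪ J.image t

theorem mem_touch {s t : E → B} {J : Finset E} {b : B} :
    b ∈ touch s t J ↔ ∃ e ∈ J, s e = b ∨ t e = b := by
  unfold touch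
  rw [Finset.mem_union, Finset.mem_image, Finset.mem_image]
  constructor
  · rintro (⟨e, he, h⟩ | ⟨e, he, h⟩)
    · exact ⟨e, he, Or.inl h⟩
    · exact ⟨e, he, Or.inr h⟩
  · rintro ⟨e, he, h | h⟩
    · exact Or.inl ⟨e, he, h⟩
    · exact Or.inr ⟨e, he, h⟩

theorem mu_touch [Fintype B] (s t : E → B) {J : Finset E} (hne : J.Nonempty) :
    6 * Fintype.card B + 6 ≤ mu s t J + 6 * (touch s t J).card := by
  obtain ⟨e0, he0⟩ := hne
  set S := touch s t J with hS
  have hv0 : s e0 ∈ S := mem_touch.2 ⟨e0, he0, Or.inl rfl⟩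
  set v0 := s e0
  let g : (B → Fin 6 → PK E) →ₗ[PK E] (S.erase v0 → Fin 6 → PK E) :=
    LinearMap.pi fun v => D (PK E) (v : B) v0
  have h1 := finrank_inf_ker (⊤ : Submodule (PK E) (B → Fin 6 → PK E)) g
  have h2 := Submodule.finrank_le (LinearMap.range (g ∘ₗ (⊤ : Submodule (PK E)
    (B → Fin 6 → PK E)).subtype))
  have h3 : finrank (PK E) (S.erase v0 → Fin 6 → PK E) = 6 * (S.card - 1) := by
    rw [Module.finrank_pi_fintype]
    simp [Finset.card_erase_of_mem hv0]
    ring
  have h4 : finrank (PK E) (B → Fin 6 → PK E) = 6 * Fintype.card B := by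
    rw [Module.finrank_pi_fintype]
    simp
    ring
  have h5 : ⊤ ⊓ LinearMap.ker g ≤ GM s t J := by
    rintro n ⟨-, hn⟩
    have h6 : ∀ v ∈ S, n v = n v0 := by
      intro v hv
      by_cases hv0' : v = v0
      · rw [hv0']
      · have h7 := congrFun hn ⟨v, Finset.mem_erase.2 ⟨hv0', hv⟩⟩
        exact sub_eq_zero.1 h7
    intro e he
    rw [h6 (s e) (mem_touch.2 ⟨e, he, Or.inl rfl⟩), h6 (t e) (mem_touch.2 ⟨e, he, Or.inr rfl⟩),
      sub_self, ev_zero]
  have h6 := Submodule.finrank_mono h5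
  have h7 : 1 ≤ S.card := Finset.card_pos.2 ⟨v0, hv0⟩
  rw [finrank_top, h4] at h1
  rw [h3] at h2
  unfold mu
  omega

theorem exists_low (s t : E → B) {J : Finset E} (hl : ∀ e ∈ J, s e ≠ t e)
    (h : 3 * J.card + 5 ≤ 6 * (touch s t J).card) :
    ∃ b ∈ touch s t J, (J.filter fun e => s e = b ∨ t e = b).card ≤ 3 := by
  by_contra hcon
  push Not at hcon
  have h1 : ∑ b ∈ touch s t J, (J.filter fun e => s e = b ∨ t e = b).card = 2 * J.card := by
    have h2 := Finset.sum_card_bipartiteAbove_eq_sum_card_bipartiteBelow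
      (s := touch s t J) (t := J) (fun b e => s e = b ∨ t e = b)
    unfold Finset.bipartiteAbove Finset.bipartiteBelow at h2
    rw [h2]
    have h3 : ∀ e ∈ J, ((touch s t J).filter fun b => s e = b ∨ t e = b).card = 2 := by
      intro e he
      have h4 : ((touch s t J).filter fun b => s e = b ∨ t e = b) = {s e, t e} := by
        ext b
        rw [Finset.mem_filter, Finset.mem_insert, Finset.mem_singleton, mem_touch]
        constructor
        · rintro ⟨-, h5 | h5⟩
          · exact Or.inl h5.symm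
          · exact Or.inr h5.symm
        · rintro (rfl | rfl)
          · exact ⟨⟨e, he, Or.inl rfl⟩, Or.inl rfl⟩
          · exact ⟨⟨e, he, Or.inr rfl⟩, Or.inr rfl⟩
      rw [h4, Finset.card_pair (hl e he)]
    rw [Finset.sum_congr rfl h3, Finset.sum_const, smul_eq_mul, mul_comm]
  have h2 : (touch s t J).card * 4 ≤
      ∑ b ∈ touch s t J, (J.filter fun e => s e = b ∨ t e = b).card := by
    rw [← smul_eq_mul, ← Finset.sum_const]
    exact Finset.sum_le_sum fun b hb => hcon b hb
  omega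

/-- distinct joints join distinct pairs of bodies -/
def Simple (s t : E → B) (J : Finset E) : Prop := ∀ e ∈ J, ∀ f ∈ J, e ≠ f →
  ¬ ((s e = s f ∧ t e = t f) ∨ (s e = t f ∧ t e = s f))

/-- the other end -/
def oth (s t : E → B) (b : B) (f : E) : B := if s f = b then t f else s f

theorem cn_oth (s t : E → B) {b : B} {f : E} (h : s f = b ∨ t f = b) :
    cn s t f b (oth s t b f) := by
  unfold oth cn
  by_cases h1 : s f = b
  · rw [if_pos h1]
    exact Or.inl ⟨h1, rfl⟩
  · rw [if_neg h1]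
    exact Or.inr ⟨rfl, h.resolve_left h1⟩

theorem oth_ne (s t : E → B) {b : B} {f : E} (hl : s f ≠ t f) : oth s t b f ≠ b := by
  unfold oth
  by_cases h1 : s f = b
  · rw [if_pos h1]
    rintro rfl
    exact hl h1
  · rw [if_neg h1]
    exact h1

theorem oth_inj {s t : E → B} {J : Finset E} (hS : Simple s t J) {b : B} {f f' : E}
    (hf : f ∈ J) (hf' : f' ∈ J) (h : s f = b ∨ t f = b) (h' : s f' = b ∨ t f' = b)
    (hne : f ≠ f') : oth s t b f ≠ oth s t b f' := by
  intro heq
  apply hS f hf f' hf' hne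
  unfold oth at heq
  by_cases h1 : s f = b
  · by_cases h2 : s f' = b
    · rw [if_pos h1, if_pos h2] at heq
      exact Or.inl ⟨h1.trans h2.symm, heq⟩
    · rw [if_pos h1, if_neg h2] at heq
      exact Or.inr ⟨h1.trans (h'.resolve_left h2).symm, heq⟩
  · by_cases h2 : s f' = b
    · rw [if_neg h1, if_pos h2] at heq
      exact Or.inr ⟨heq, (h.resolve_left h1).trans h2.symm⟩
    · rw [if_neg h1, if_neg h2] at heq
      exact Or.inl ⟨heq, (h.resolve_left h1).trans (h'.resolve_left h2).symm⟩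

theorem simple_mu [Fintype B] [Fintype E] [DecidableEq E] (s t : E → B) (J : Finset E) :
    (∀ e ∈ J, s e ≠ t e) → Simple s t J → NR s t J →
      mu s t J + 3 * J.card = 6 * Fintype.card B := by
  induction J using Finset.strongInduction with
  | _ J ih =>
  intro hl hS hNR
  have IH : ∀ J' ⊂ J, mu s t J' + 3 * J'.card = 6 * Fintype.card B := fun J' hJ' =>
    ih J' hJ' (fun e he => hl e (hJ'.1 he))
      (fun e he f hf => hS e (hJ'.1 he) f (hJ'.1 hf)) (hNR.mono hJ'.1)
  by_contra hcon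
  have hJne : J.Nonempty := by
    rw [Finset.nonempty_iff_ne_empty]
    rintro rfl
    apply hcon
    have h1 : GM s t (∅ : Finset E) = ⊤ := by
      rw [eq_top_iff]
      intro n _ e he
      exact absurd he (Finset.notMem_empty _)
    unfold mu
    rw [h1, finrank_top, Module.finrank_pi_fintype]
    simp
    ring
  obtain ⟨f0, hf0⟩ := hJne
  have a1 := IH (J.erase f0) (Finset.erase_ssubset hf0)
  have a2 := drop_le3 s t J f0
  have a3 := drop_ge2 s t hNR hf0 (hl f0 hf0)
  have a4 := mu_touch s t ⟨f0, hf0⟩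
  have a5 := Finset.card_erase_add_one hf0
  have a6 : mu s t J + 3 * J.card = 6 * Fintype.card B + 1 := by omega
  obtain ⟨b, hb, hdeg⟩ := exists_low s t hl (by omega)
  have hF : ∀ f ∈ J.filter (fun e => s e = b ∨ t e = b), f ∈ J ∧ (s f = b ∨ t f = b) :=
    fun f hf => Finset.mem_filter.1 hf
  have hJ0 : ∀ e ∈ J.filter (fun e => ¬ (s e = b ∨ t e = b)), s e ≠ b ∧ t e ≠ b := by
    intro e he
    exact not_or.1 (Finset.mem_filter.1 he).2
  have hun := Finset.filter_union_filter_not_eq (fun e => s e = b ∨ t e = b) J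
  have hcard := Finset.card_filter_add_card_filter_not (s := J) (fun e => s e = b ∨ t e = b)
  have hpos : 1 ≤ (J.filter fun e => s e = b ∨ t e = b).card := by
    obtain ⟨e, he, h1⟩ := mem_touch.1 hb
    exact Finset.card_pos.2 ⟨e, Finset.mem_filter.2 ⟨he, h1⟩⟩
  have hss : J.filter (fun e => ¬ (s e = b ∨ t e = b)) ⊂ J := by
    refine Finset.ssubset_iff_subset_ne.2 ⟨Finset.filter_subset _ _, fun h => ?_⟩
    rw [h] at hcard
    omega
  have b1 := IH _ hss
  have hNR0 : NR s t (J.filter (fun e => ¬ (s e = b ∨ t e = b))) := hNR.mono hss.1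
  set F := J.filter (fun e => s e = b ∨ t e = b) with hFdef
  set J0 := J.filter (fun e => ¬ (s e = b ∨ t e = b)) with hJ0def
  have hc : F.card = 1 ∨ F.card = 2 ∨ F.card = 3 := by omega
  rcases hc with hc | hc | hc
  · obtain ⟨f, hf⟩ := Finset.card_eq_one.1 hc
    have hfF : f ∈ F := by rw [hf]; exact Finset.mem_singleton_self f
    have hJ : J = insert f J0 := by rw [← hun, hf]; rfl
    have c1 := low1 s t hJ0 (cn_oth s t (hF f hfF).2) (oth_ne s t (hl f (hF f hfF).1))
    rw [← hJ] at c1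
    omega
  · obtain ⟨f1, f2, h12, hf⟩ := Finset.card_eq_two.1 hc
    have hf1 : f1 ∈ F := by rw [hf]; simp
    have hf2 : f2 ∈ F := by rw [hf]; simp
    have hJ : J = insert f1 (insert f2 J0) := by
      rw [← hun, hf]
      ext e
      simp only [Finset.mem_union, Finset.mem_insert, Finset.mem_singleton]
      tauto
    have hne := oth_inj hS (hF f1 hf1).1 (hF f2 hf2).1 (hF f1 hf1).2 (hF f2 hf2).2 h12
    obtain ⟨n0, hn0, hn0'⟩ := hNR0 _ _ hne
    have c1 := low2 s t hJ0 (cn_oth s t (hF f1 hf1).2) (cn_oth s t (hF f2 hf2).2) h12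
      (oth_ne s t (hl f1 (hF f1 hf1).1)) (oth_ne s t (hl f2 (hF f2 hf2).1)) hn0 hn0'
    rw [← hJ] at c1
    omega
  · obtain ⟨f1, f2, f3, h12, h13, h23, hf⟩ := Finset.card_eq_three.1 hc
    have hf1 : f1 ∈ F := by rw [hf]; simp
    have hf2 : f2 ∈ F := by rw [hf]; simp
    have hf3 : f3 ∈ F := by rw [hf]; simp
    have hJ : J = insert f1 (insert f2 (insert f3 J0)) := by
      rw [← hun, hf]
      ext e
      simp only [Finset.mem_union, Finset.mem_insert, Finset.mem_singleton]
      tauto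
    have c1 := low3 s t hJ0 (cn_oth s t (hF f1 hf1).2) (cn_oth s t (hF f2 hf2).2)
      (cn_oth s t (hF f3 hf3).2) h12 h13 h23
      (oth_ne s t (hl f1 (hF f1 hf1).1)) (oth_ne s t (hl f2 (hF f2 hf2).1))
      (oth_ne s t (hl f3 (hF f3 hf3).1))
      (oth_inj hS (hF f1 hf1).1 (hF f2 hf2).1 (hF f1 hf1).2 (hF f2 hf2).2 h12)
      (oth_inj hS (hF f1 hf1).1 (hF f3 hf3).1 (hF f1 hf1).2 (hF f3 hf3).2 h13)
      (oth_inj hS (hF f2 hf2).1 (hF f3 hf3).1 (hF f2 hf2).2 (hF f3 hf3).2 h23)
      (by rw [← hJ]; exact hNR)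
    rw [← hJ] at c1
    omega

end ind

end Pool.Agent.W824.BJ
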