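import Mathlib
import Pool.Agent.W824.BJ.Ind

/-!
# The number of independent conditions, pair by pair
-/

set_option autoImplicit false

namespace Pool.Agent.W824.BJ

open Finset Module

section form

variable {E B : Type*} [DecidableEq B]

/-- the number of conditions imposed by `n` joints between two bodies -/
def cst : ℕ → ℕ
  | 0 => 0
  | 1 => 3
  | 2 => 5
  | _ => 6

/-- the number of joints in `J` between two bodies -/
def cnt (s t : E → B) (J : Finset E) (u v : B) : ℕ :=
  (J.filter fun e => (s e = u ∧ t e = v) ∨ (s e = v ∧ t e = u)).card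

/-- the sum over the ordered pairs of bodies -/
def S2 [Fintype B] (s t : E → B) (J : Finset E) : ℕ :=
  ∑ q ∈ (univ : Finset B).offDiag, cst (cnt s t J q.1 q.2)

theorem cnt_comm (s t : E → B) (J : Finset E) (u v : B) : cnt s t J u v = cnt s t J v u := by
  unfold cnt
  congr 1
  ext e
  simp only [Finset.mem_filter]
  tauto

variable [DecidableEq E]

theorem cnt_insert_self (s t : E → B) {J : Finset E} {f : E} (hf : f ∉ J) :
    cnt s t (insert f J) (s f) (t f) = cnt s t J (s f) (t f) + 1 := by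
  unfold cnt
  rw [Finset.filter_insert, if_pos (Or.inl ⟨rfl, rfl⟩), Finset.card_insert_of_notMem]
  rw [Finset.mem_filter]
  exact fun h => hf h.1

theorem cnt_insert_of_ne (s t : E → B) {J : Finset E} {f : E} {u v : B}
    (h1 : ¬ (s f = u ∧ t f = v)) (h2 : ¬ (s f = v ∧ t f = u)) :
    cnt s t (insert f J) u v = cnt s t J u v := by
  unfold cnt
  rw [Finset.filter_insert, if_neg (not_or.2 ⟨h1, h2⟩)]

theorem S2_insert [Fintype B] (s t : E → B) {J : Finset E} {f : E} (hf : f ∉ J)
    (hl : s f ≠ t f) :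
    S2 s t (insert f J) + 2 * cst (cnt s t J (s f) (t f)) =
      S2 s t J + 2 * cst (cnt s t J (s f) (t f) + 1) := by
  unfold S2
  have hm1 : (s f, t f) ∈ (univ : Finset B).offDiag := by simp [hl]
  have hm2 : (t f, s f) ∈ ((univ : Finset B).offDiag).erase (s f, t f) := by
    rw [Finset.mem_erase]
    refine ⟨fun h => hl (Prod.ext_iff.1 h).2, by simp [hl.symm]⟩
  rw [← Finset.add_sum_erase _ _ hm1, ← Finset.add_sum_erase _ _ hm2,
    ← Finset.add_sum_erase (s := (univ : Finset B).offDiag) (a := (s f, t f))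
      (f := fun q => cst (cnt s t J q.1 q.2)) (h := hm1),
    ← Finset.add_sum_erase (s := ((univ : Finset B).offDiag).erase (s f, t f)) (a := (t f, s f))
      (f := fun q => cst (cnt s t J q.1 q.2)) (h := hm2)]
  have hrest : ∑ q ∈ (((univ : Finset B).offDiag).erase (s f, t f)).erase (t f, s f),
      cst (cnt s t (insert f J) q.1 q.2) =
      ∑ q ∈ (((univ : Finset B).offDiag).erase (s f, t f)).erase (t f, s f),
      cst (cnt s t J q.1 q.2) := by
    apply Finset.sum_congr rfl
    intro q hq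
    rw [cnt_insert_of_ne]
    · rintro ⟨h1, h2⟩
      have h3 := Finset.mem_of_mem_erase hq
      exact (Finset.ne_of_mem_erase h3) (Prod.ext h1.symm h2.symm)
    · rintro ⟨h1, h2⟩
      exact (Finset.ne_of_mem_erase hq) (Prod.ext h2.symm h1.symm)
  rw [hrest]
  simp only
  rw [cnt_comm s t (insert f J) (t f) (s f), cnt_comm s t J (t f) (s f),
    cnt_insert_self s t hf]
  ring

theorem S2_insert_loop [Fintype B] (s t : E → B) {J : Finset E} {f : E} (hl : s f = t f) :
    S2 s t (insert f J) = S2 s t J := by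
  unfold S2
  apply Finset.sum_congr rfl
  intro q hq
  have hq' : q.1 ≠ q.2 := (Finset.mem_offDiag.1 hq).2.2
  rw [cnt_insert_of_ne]
  · rintro ⟨h1, h2⟩
    exact hq' (h1.symm.trans (hl.trans h2))
  · rintro ⟨h1, h2⟩
    exact hq' (h2.symm.trans (hl.symm.trans h1))

omit [DecidableEq B] [DecidableEq E] in
theorem gx_minor3 {e f g : E} (hef : e ≠ f) (heg : e ≠ g) (hfg : f ≠ g) :
    gx E e 0 * (gx E f 1 * gx E g 2 - gx E f 2 * gx E g 1) -
      gx E e 1 * (gx E f 0 * gx E g 2 - gx E f 2 * gx E g 0) +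
      gx E e 2 * (gx E f 0 * gx E g 1 - gx E f 1 * gx E g 0) ≠ 0 := by
  classical
  intro h
  have h0 : gx E e 0 * (gx E f 1 * gx E g 2 - gx E f 2 * gx E g 1) -
      gx E e 1 * (gx E f 0 * gx E g 2 - gx E f 2 * gx E g 0) +
      gx E e 2 * (gx E f 0 * gx E g 1 - gx E f 1 * gx E g 0) = algebraMap (PR E) (PK E)
      (tx E e 0 * (tx E f 1 * tx E g 2 - tx E f 2 * tx E g 1) -
      tx E e 1 * (tx E f 0 * tx E g 2 - tx E f 2 * tx E g 0) +
      tx E e 2 * (tx E f 0 * tx E g 1 - tx E f 1 * tx E g 0)) := by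
    simp [gx]
  rw [h0] at h
  have h1 := IsFractionRing.injective (PR E) (PK E) (h.trans (map_zero _).symm)
  have h2 := congrArg (MvPolynomial.eval fun c : E × Fin 4 =>
    if c = (e, 0) ∨ c = (f, 1) ∨ c = (g, 2) then (1 : ℚ) else 0) h1
  simp [tx, hef, hef.symm, heg, heg.symm, hfg, hfg.symm] at h2

theorem cramer3 {k : Type*} [Field k] {a0 a1 a2 b0 b1 b2 c0 c1 c2 y0 y1 y2 : k}
    (h : a0 * (b1 * c2 - b2 * c1) - a1 * (b0 * c2 - b2 * c0) + a2 * (b0 * c1 - b1 * c0) ≠ 0)
    (ha : a0 * y0 + a1 * y1 + a2 * y2 = 0) (hb : b0 * y0 + b1 * y1 + b2 * y2 = 0)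
    (hc : c0 * y0 + c1 * y1 + c2 * y2 = 0) : y0 = 0 ∧ y1 = 0 ∧ y2 = 0 := by
  refine ⟨?_, ?_, ?_⟩
  · apply (mul_eq_zero.1 (?_ : (a0 * (b1 * c2 - b2 * c1) - a1 * (b0 * c2 - b2 * c0) +
      a2 * (b0 * c1 - b1 * c0)) * y0 = 0)).resolve_left h
    linear_combination (b1 * c2 - b2 * c1) * ha - (a1 * c2 - a2 * c1) * hb +
      (a1 * b2 - a2 * b1) * hc
  · apply (mul_eq_zero.1 (?_ : (a0 * (b1 * c2 - b2 * c1) - a1 * (b0 * c2 - b2 * c0) +
      a2 * (b0 * c1 - b1 * c0)) * y1 = 0)).resolve_left h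
    linear_combination -(b0 * c2 - b2 * c0) * ha + (a0 * c2 - a2 * c0) * hb -
      (a0 * b2 - a2 * b0) * hc
  · apply (mul_eq_zero.1 (?_ : (a0 * (b1 * c2 - b2 * c1) - a1 * (b0 * c2 - b2 * c0) +
      a2 * (b0 * c1 - b1 * c0)) * y2 = 0)).resolve_left h
    linear_combination (b0 * c1 - b1 * c0) * ha - (a0 * c1 - a1 * c0) * hb +
      (a0 * b1 - a1 * b0) * hc

omit [DecidableEq B] [DecidableEq E] in
theorem li3 {k : Type*} [Field k] {X Y Z : Fin 4 → k}
    (h : X 0 * (Y 1 * Z 2 - Y 2 * Z 1) - X 1 * (Y 0 * Z 2 - Y 2 * Z 0) +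
      X 2 * (Y 0 * Z 1 - Y 1 * Z 0) ≠ 0) : LinearIndependent k ![X, Y, Z] := by
  apply LinearIndependent.of_comp (LinearMap.funLeft k k (![0, 1, 2] : Fin 3 → Fin 4))
  have h1 := Matrix.linearIndependent_rows_of_det_ne_zero
    (A := (Matrix.of fun i j => (LinearMap.funLeft k k (![0, 1, 2] : Fin 3 → Fin 4)
      ((![X, Y, Z] : Fin 3 → Fin 4 → k) i)) j : Matrix (Fin 3) (Fin 3) k)) (by
      rw [Matrix.det_fin_three]
      intro h2
      apply h
      simp [LinearMap.funLeft] at h2
      linear_combination h2)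
  exact h1

omit [DecidableEq B] [DecidableEq E] in
/-- the matrix which kills three generic points is zero -/
theorem kill3_gx {e f g : E} (hef : e ≠ f) (heg : e ≠ g) (hfg : f ≠ g) {d : Fin 6 → PK E}
    (he : ev d (gx E e) = 0) (hf : ev d (gx E f) = 0) (hg : ev d (gx E g) = 0) : d = 0 := by
  apply kill3 (li3 (gx_minor3 hef heg hfg))
  intro i
  fin_cases i
  · exact he
  · exact hf
  · exact hg

/-- parallel joints -/
def par (s t : E → B) (e f : E) : Prop := (s e = s f ∧ t e = t f) ∨ (s e = t f ∧ t e = s f)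

omit [DecidableEq B] [DecidableEq E] in
theorem par_ev {k : Type*} [CommRing k] {s t : E → B} {e f : E} (h : par s t e f)
    (n : B → Fin 6 → k) (X : Fin 4 → k) :
    ev (n (s e) - n (t e)) X = 0 ↔ ev (n (s f) - n (t f)) X = 0 := by
  rcases h with ⟨h1, h2⟩ | ⟨h1, h2⟩
  · rw [h1, h2]
  · rw [h1, h2]
    have h11 : n (t f) - n (s f) = - (n (s f) - n (t f)) := by abel
    rw [h11, ev_neg, neg_eq_zero]

omit [DecidableEq B] in
theorem drop_le1 [Fintype B] (s t : E → B) (J : Finset E) {f f' f'' : E} (hf' : f' ∈ J)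
    (hf'' : f'' ∈ J) (h1 : f' ≠ f) (h2 : f'' ≠ f) (h3 : f' ≠ f'') (p1 : par s t f' f)
    (p2 : par s t f'' f) : mu s t (J.erase f) ≤ mu s t J + 1 := by
  apply le_inf_add _ _ (LinearMap.funLeft (PK E) (PK E) (![3] : Fin 1 → Fin 4) ∘ₗ
    evF s t f (gx E f))
  intro n hn e he
  obtain ⟨hn1, hn2⟩ := hn
  by_cases hef : e = f
  · subst hef
    have h4 := congrFun hn2 0
    simp [LinearMap.funLeft, evF_apply] at h4
    have h5 := (par_ev p1 n _).1 (hn1 f' (Finset.mem_erase.2 ⟨h1, hf'⟩))
    have h6 := (par_ev p2 n _).1 (hn1 f'' (Finset.mem_erase.2 ⟨h2, hf''⟩))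
    set Y := ev (n (s e) - n (t e)) (gx E e) with hY
    have g1 : gx E e ⬝ᵥ Y = 0 := by rw [hY, dot_ev, pr_self]
    have g2 : gx E f' ⬝ᵥ Y = 0 := by rw [hY, dot_ev, pr_eq_zero_of_ev h5]
    have g3 : gx E f'' ⬝ᵥ Y = 0 := by rw [hY, dot_ev, pr_eq_zero_of_ev h6]
    simp only [dotProduct, Fin.sum_univ_four, h4, mul_zero, add_zero] at g1 g2 g3
    obtain ⟨y0, y1, y2⟩ := cramer3 (gx_minor3 h1.symm h2.symm h3) g1 g2 g3
    funext i
    fin_cases i <;> simp [y0, y1, y2, h4]
  · exact hn1 e (Finset.mem_erase.2 ⟨hef, he⟩)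

omit [DecidableEq B] [DecidableEq E] in
theorem eq_of_par3 {s t : E → B} {J : Finset E} {e f g : E} (he : e ∈ J) (hf : f ∈ J)
    (hg : g ∈ J) (hef : e ≠ f) (heg : e ≠ g) (hfg : f ≠ g) {h : E} (p1 : par s t e h)
    (p2 : par s t f h) (p3 : par s t g h) {n : B → Fin 6 → PK E} (hn : n ∈ GM s t J) :
    n (s h) = n (t h) := by
  have h1 := (par_ev p1 n _).1 (hn e he)
  have h2 := (par_ev p2 n _).1 (hn f hf)
  have h3 := (par_ev p3 n _).1 (hn g hg)
  exact sub_eq_zero.1 (kill3_gx hef heg hfg h1 h2 h3)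

/-- one more joint -/
theorem drop_gen [Fintype B] (s t : E → B) {J : Finset E} {f : E} (hf : f ∉ J) :
    mu s t J + cst (cnt s t J (s f) (t f)) ≤
      mu s t (insert f J) + cst (cnt s t J (s f) (t f) + 1) := by
  have hJ : (insert f J).erase f = J := Finset.erase_insert hf
  have hne : ∀ e ∈ J, e ≠ f := fun e he h => hf (h ▸ he)
  have hmem : ∀ e, e ∈ J.filter (fun e => (s e = s f ∧ t e = t f) ∨ (s e = t f ∧ t e = s f)) ↔
      e ∈ J ∧ par s t e f := fun e => Finset.mem_filter
  have hc : cnt s t J (s f) (t f) = 0 ∨ cnt s t J (s f) (t f) = 1 ∨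
      cnt s t J (s f) (t f) = 2 ∨ 3 ≤ cnt s t J (s f) (t f) := by omega
  rcases hc with hc | hc | hc | hc
  · have h1 := drop_le3 s t (insert f J) f
    rw [hJ] at h1
    rw [hc]
    exact h1
  · have h0 : 0 < cnt s t J (s f) (t f) := by omega
    obtain ⟨e, he⟩ := Finset.card_pos.1 h0
    rw [hmem] at he
    have h1 := drop_le2 s t (insert f J) (Finset.mem_insert_of_mem he.1) (hne e he.1) he.2
    rw [hJ] at h1
    rw [hc]
    change _ + 3 ≤ _ + 5
    omega
  · have h0 : 1 < cnt s t J (s f) (t f) := by omega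
    obtain ⟨e, he, e', he', hee⟩ := Finset.one_lt_card.1 h0
    rw [hmem] at he he'
    have h1 := drop_le1 s t (insert f J) (Finset.mem_insert_of_mem he.1)
      (Finset.mem_insert_of_mem he'.1) (hne e he.1) (hne e' he'.1) hee he.2 he'.2
    rw [hJ] at h1
    rw [hc]
    change _ + 5 ≤ _ + 6
    omega
  · have h0 : 2 < cnt s t J (s f) (t f) := by omega
    obtain ⟨e, e', e'', he, he', he'', h1, h2, h3⟩ := Finset.two_lt_card_iff.1 h0
    rw [hmem] at he he' he''
    have h4 : mu s t J ≤ mu s t (insert f J) := by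
      apply Submodule.finrank_mono
      intro n hn g hg
      rcases Finset.mem_insert.1 hg with rfl | hg
      · rw [eq_of_par3 he.1 he'.1 he''.1 h1 h2 h3 he.2 he'.2 he''.2 hn, sub_self, ev_zero]
      · exact hn g hg
    have h5 : ∀ n, 3 ≤ n → cst n = 6 := by
      intro n hn
      match n, hn with
      | n + 3, _ => rfl
    rw [h5 _ hc, h5 _ (by omega)]
    omega

omit [DecidableEq B] [DecidableEq E] in
theorem mu_empty [Fintype B] (s t : E → B) : mu s t (∅ : Finset E) = 6 * Fintype.card B := by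
  have h1 : GM s t (∅ : Finset E) = ⊤ := by
    rw [eq_top_iff]
    intro n _ e he
    exact absurd he (Finset.notMem_empty _)
  unfold mu
  rw [h1, finrank_top, Module.finrank_pi_fintype]
  simp
  ring

omit [DecidableEq B] in
theorem GM_insert_loop (s t : E → B) {J : Finset E} {f : E} (hl : s f = t f) :
    GM s t (insert f J) = GM s t J := by
  apply le_antisymm (GM_anti s t (Finset.subset_insert f J))
  intro n hn e he
  rcases Finset.mem_insert.1 he with rfl | he
  · rw [hl, sub_self, ev_zero]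
  · exact hn e he

/-- the lower bound for the dimension of the space of motions -/
theorem two_mu_ge [Fintype B] (s t : E → B) (J : Finset E) :
    12 * Fintype.card B ≤ 2 * mu s t J + S2 s t J := by
  induction J using Finset.induction_on with
  | empty =>
    rw [mu_empty]
    omega
  | insert f J hf ih =>
    by_cases hl : s f = t f
    · rw [S2_insert_loop s t hl]
      unfold mu
      rw [GM_insert_loop s t hl]
      exact ih
    · have h1 := S2_insert s t hf hl
      have h2 := drop_gen s t hf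
      omega

theorem S2_simple [Fintype B] (s t : E → B) (J : Finset E) :
    (∀ e ∈ J, s e ≠ t e) → Simple s t J → S2 s t J = 6 * J.card := by
  induction J using Finset.induction_on with
  | empty =>
    intro _ _
    unfold S2 cnt
    simp [cst]
  | insert f J hf ih =>
    intro hl hS
    have h0 := ih (fun e he => hl e (Finset.mem_insert_of_mem he))
      (fun e he g hg => hS e (Finset.mem_insert_of_mem he) g (Finset.mem_insert_of_mem hg))
    have h1 := S2_insert s t hf (hl f (Finset.mem_insert_self _ _))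
    have h2 : cnt s t J (s f) (t f) = 0 := by
      unfold cnt
      rw [Finset.card_eq_zero, Finset.filter_eq_empty_iff]
      intro e he hpar
      exact hS e (Finset.mem_insert_of_mem he) f (Finset.mem_insert_self _ _)
        (fun h => hf (h ▸ he)) hpar
    rw [h2] at h1
    rw [Finset.card_insert_of_notMem hf]
    change S2 s t (insert f J) + 2 * 0 = S2 s t J + 2 * 3 at h1
    omega

/-- **The dimension of the space of motions when no two bodies move together.** -/
theorem two_mu_eq [Fintype B] [Fintype E] (s t : E → B) (J : Finset E) :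
    NR s t J → 2 * mu s t J + S2 s t J = 12 * Fintype.card B := by
  induction J using Finset.strongInduction with
  | _ J ih =>
  intro hNR
  by_cases hloop : ∃ f ∈ J, s f = t f
  · obtain ⟨f, hf, hl⟩ := hloop
    have h1 := ih (J.erase f) (Finset.erase_ssubset hf) (hNR.mono (Finset.erase_subset _ _))
    have h2 := S2_insert_loop s t (J := J.erase f) hl
    have h3 := GM_insert_loop s t (J := J.erase f) hl
    rw [Finset.insert_erase hf] at h2 h3
    rw [h2]
    unfold mu at h1 ⊢
    rw [h3]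
    exact h1
  push Not at hloop
  by_cases hS : Simple s t J
  · have h1 := simple_mu s t J hloop hS hNR
    have h2 := S2_simple s t J hloop hS
    omega
  unfold Simple at hS
  push Not at hS
  obtain ⟨e, he, f, hf, hef, hpar⟩ := hS
  have h1 := ih (J.erase f) (Finset.erase_ssubset hf) (hNR.mono (Finset.erase_subset _ _))
  have h2 := drop_ge2 s t hNR hf (hloop f hf)
  have h3 := drop_le2 s t J he hef hpar
  have h4 := S2_insert s t (Finset.notMem_erase f J) (hloop f hf)
  rw [Finset.insert_erase hf] at h4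
  have hmem : ∀ g, g ∈ (J.erase f).filter (fun e => (s e = s f ∧ t e = t f) ∨
      (s e = t f ∧ t e = s f)) ↔ g ∈ J.erase f ∧ par s t g f := fun g => Finset.mem_filter
  have h5 : cnt s t (J.erase f) (s f) (t f) = 1 := by
    apply le_antisymm
    · by_contra hcon
      push Not at hcon
      obtain ⟨a, ha, b, hb, hab⟩ := Finset.one_lt_card.1 hcon
      rw [hmem, Finset.mem_erase] at ha hb
      obtain ⟨n, hn, hne⟩ := hNR _ _ (hloop f hf)
      exact hne (eq_of_par3 ha.1.2 hb.1.2 hf hab ha.1.1 hb.1.1 ha.2 hb.2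
        (Or.inl ⟨rfl, rfl⟩) hn)
    · exact Finset.card_pos.2 ⟨e, (hmem e).2 ⟨Finset.mem_erase.2 ⟨hef, he⟩, hpar⟩⟩
  rw [h5] at h4
  change S2 s t J + 2 * 3 = S2 s t (J.erase f) + 2 * 5 at h4
  omega

end form

end Pool.Agent.W824.BJ
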