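import Mathlib
import Pool.Agent.W824.BJ.Form

/-!
# Contraction of the bodies which move together
-/

set_option autoImplicit false

namespace Pool.Agent.W824.BJ

open Finset Module

section con

variable {E B : Type*}

/-- two bodies are related when they move together in all motions -/
def rigRel (s t : E → B) (J : Finset E) : Setoid B where
  r u v := ∀ n ∈ GM s t J, n u = n v
  iseqv := ⟨fun _ _ _ => rfl, fun h n hn => (h n hn).symm, fun h h' n hn => (h n hn).trans (h' n hn)⟩

theorem rigRel_iff {s t : E → B} {J : Finset E} {u v : B} :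
    (rigRel s t J) u v ↔ ∀ n ∈ GM s t J, n u = n v := Iff.rfl

/-- the contracted ends -/
def qs (r : Setoid B) (s : E → B) : E → Quotient r := fun e => Quotient.mk r (s e)

/-- the motions of the contracted framework are motions -/
theorem pull_mem {k : Type*} [CommRing k] (r : Setoid B) (s t : E → B) (J : Finset E)
    (y : E → Fin 4 → k) (n : Quotient r → Fin 6 → k) :
    n ∈ Mot (qs r s) (qs r t) J y ↔ (fun b => n (Quotient.mk r b)) ∈ Mot s t J y := Iff.rfl

/-- the pull back of motions -/
def pull {k : Type*} [CommRing k] (r : Setoid B) :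
    (Quotient r → Fin 6 → k) →ₗ[k] (B → Fin 6 → k) where
  toFun n b := n (Quotient.mk r b)
  map_add' _ _ := rfl
  map_smul' _ _ := rfl

theorem pull_inj {k : Type*} [CommRing k] (r : Setoid B) (n : Quotient r → Fin 6 → k)
    (h : pull r n = 0) : n = 0 := by
  funext c
  obtain ⟨b, rfl⟩ := Quotient.exists_rep c
  exact congrFun h b

theorem mu_con [Fintype B] (s t : E → B) (J : Finset E) [Fintype (Quotient (rigRel s t J))] :
    mu (qs (rigRel s t J) s) (qs (rigRel s t J) t) J = mu s t J := by
  have h : (GM (qs (rigRel s t J) s) (qs (rigRel s t J) t) J).map (pull (rigRel s t J)) =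
      GM s t J := by
    ext n
    constructor
    · rintro ⟨m, hm, rfl⟩
      exact (pull_mem _ s t J _ m).1 hm
    · intro hn
      refine ⟨fun c => Quotient.lift n (fun a b hab => rigRel_iff.1 hab n hn) c, ?_, ?_⟩
      · exact (pull_mem _ s t J _ _).2 hn
      · rfl
  unfold mu
  rw [← h]
  exact (Submodule.equivMapOfInjective (pull (rigRel s t J))
    ((injective_iff_map_eq_zero _).2 (pull_inj _)) _).finrank_eq

theorem NR_con (s t : E → B) (J : Finset E) :
    NR (qs (rigRel s t J) s) (qs (rigRel s t J) t) J := by
  intro u v huv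
  obtain ⟨a, rfl⟩ := Quotient.exists_rep u
  obtain ⟨b, rfl⟩ := Quotient.exists_rep v
  have h1 : ¬ (rigRel s t J) a b := fun h => huv (Quotient.sound h)
  rw [rigRel_iff] at h1
  push Not at h1
  obtain ⟨n, hn, hne⟩ := h1
  exact ⟨fun c => Quotient.lift n (fun a b hab => rigRel_iff.1 hab n hn) c, (pull_mem _ s t J _ _).2 hn, hne⟩

end con

end Pool.Agent.W824.BJ
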