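import Mathlib
import Pool.Agent.W824.BJ.Contr

/-!
# Skew-symmetric matrices which kill given vectors
-/

set_option autoImplicit false

namespace Pool.Agent.W824.BJ

open Finset Module

section kdim

variable {k : Type*} [Field k]

theorem basis_ev {X : Fin 4 → Fin 4 → k} (hX : LinearIndependent k X) {c : Fin 6 → k} {Y : Fin 4 → k}
    (h : ∀ j, pr c Y (X j) = 0) : ev c Y = 0 := by
  apply ev_eq_zero_of_pr
  intro Z
  have hZ : Z ∈ Submodule.span k (Set.range X) := by
    rw [hX.span_eq_top_of_card_eq_finrank' (by simp)]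
    exact Submodule.mem_top
  induction hZ using Submodule.span_induction with
  | mem x hx =>
    obtain ⟨j, rfl⟩ := hx
    exact h j
  | zero => simp [pr]
  | add x y _ _ hx hy => rw [pr_add_right, hx, hy, add_zero]
  | smul a x _ hx => rw [pr_smul_right, hx, mul_zero]

/-- the entries in the basis `X` -/
def enL (X : Fin 4 → Fin 4 → k) : (Fin 6 → k) →ₗ[k] (Fin 6 → k) :=
  LinearMap.pi fun l => prL (X (ci l)) (X (cj l))

theorem enL_apply (X : Fin 4 → Fin 4 → k) (c : Fin 6 → k) (l : Fin 6) :
    enL X c l = pr c (X (ci l)) (X (cj l)) := rfl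

theorem enL_inj {X : Fin 4 → Fin 4 → k} (hX : LinearIndependent k X) :
    Function.Injective (enL X) := by
  rw [injective_iff_map_eq_zero]
  intro c hc
  have h01 : pr c (X 0) (X 1) = 0 := congrFun hc 0
  have h02 : pr c (X 0) (X 2) = 0 := congrFun hc 1
  have h03 : pr c (X 0) (X 3) = 0 := congrFun hc 2
  have h12 : pr c (X 1) (X 2) = 0 := congrFun hc 3
  have h13 : pr c (X 1) (X 3) = 0 := congrFun hc 4
  have h23 : pr c (X 2) (X 3) = 0 := congrFun hc 5
  have hall : ∀ i j, pr c (X i) (X j) = 0 := by
    intro i j
    fin_cases i <;> fin_cases j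
    · exact pr_self _ _
    · exact h01
    · exact h02
    · exact h03
    · rw [pr_swap]; simp [h01]
    · exact pr_self _ _
    · exact h12
    · exact h13
    · rw [pr_swap]; simp [h02]
    · rw [pr_swap]; simp [h12]
    · exact pr_self _ _
    · exact h23
    · rw [pr_swap]; simp [h03]
    · rw [pr_swap]; simp [h13]
    · rw [pr_swap]; simp [h23]
    · exact pr_self _ _
  have hev : ∀ i, ev c (X i) = 0 := fun i => basis_ev hX (hall i)
  apply eq_zero_of_pr
  intro Y Z
  apply pr_eq_zero_of_ev
  apply basis_ev hX
  intro j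
  rw [pr_swap, pr_eq_zero_of_ev (hev j), neg_zero]

/-- the matrices which kill the vectors of a finite set -/
def KT {V : Type*} (T : Finset V) (x : V → Fin 4 → k) : Submodule k (Fin 6 → k) where
  carrier := {c | ∀ v ∈ T, ev c (x v) = 0}
  add_mem' := by
    intro c d hc hd v hv
    rw [ev_add, hc v hv, hd v hv, add_zero]
  zero_mem' := by
    intro v _
    exact ev_zero _
  smul_mem' := by
    intro a c hc v hv
    rw [ev_smul, hc v hv, smul_zero]

theorem finrank_ker_of_surj {m n : ℕ} (g : (Fin n → k) →ₗ[k] (Fin m → k))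
    (h : Function.Surjective g) : finrank k (LinearMap.ker g) + m = n := by
  have h1 := LinearMap.finrank_range_add_finrank_ker g
  rw [LinearMap.range_eq_top.2 h, finrank_top, finrank_fin_fun, finrank_fin_fun] at h1
  omega

theorem enL_surj {X : Fin 4 → Fin 4 → k} (hX : LinearIndependent k X) :
    Function.Surjective (enL X) := LinearMap.injective_iff_surjective.1 (enL_inj hX)

theorem funLeft_surj {m n : ℕ} (f : Fin m → Fin n) (hf : Function.Injective f) :
    Function.Surjective (LinearMap.funLeft k k f) := LinearMap.funLeft_surjective_of_injective k k f hf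

theorem ext2 {x y : Fin 4 → k} (h : LinearIndependent k ![x, y]) :
    ∃ a b, LinearIndependent k ![x, y, a, b] := by
  obtain ⟨a, ha⟩ := exists_linearIndependent_snoc_of_lt_finrank h (by simp)
  obtain ⟨b, hb⟩ := exists_linearIndependent_snoc_of_lt_finrank ha (by simp)
  refine ⟨a, b, ?_⟩
  have h1 : (Fin.snoc (Fin.snoc (![x, y] : Fin 2 → Fin 4 → k) a : Fin 3 → Fin 4 → k) b :
      Fin 4 → Fin 4 → k) = ![x, y, a, b] := by
    funext i
    fin_cases i <;> rfl
  rw [← h1]
  exact hb

theorem ext1 {x : Fin 4 → k} (h : x ≠ 0) : ∃ y a b, LinearIndependent k ![x, y, a, b] := by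
  have h1 : 1 < Module.rank k (Fin 4 → k) := by
    rw [rank_fin_fun]
    exact_mod_cast (by norm_num : 1 < 4)
  obtain ⟨y, hy⟩ := exists_linearIndependent_pair_of_one_lt_rank h1 h
  obtain ⟨a, b, hab⟩ := ext2 hy
  exact ⟨y, a, b, hab⟩

theorem finrank_KT {V : Type*} (T : Finset V) (x : V → Fin 4 → k)
    (h1 : ∀ v ∈ T, x v ≠ 0)
    (h2 : ∀ u ∈ T, ∀ v ∈ T, u ≠ v → LinearIndependent k ![x u, x v])
    (h3 : ∀ u ∈ T, ∀ v ∈ T, ∀ w ∈ T, u ≠ v → u ≠ w → v ≠ w →
      LinearIndependent k ![x u, x v, x w]) :
    finrank k (KT T x) + cst T.card = 6 := by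
  classical
  have hc : T.card = 0 ∨ T.card = 1 ∨ T.card = 2 ∨ 3 ≤ T.card := by omega
  rcases hc with hc | hc | hc | hc
  · rw [Finset.card_eq_zero.1 hc]
    have h4 : KT (∅ : Finset V) x = ⊤ := by
      rw [eq_top_iff]
      intro c _ v hv
      exact absurd hv (Finset.notMem_empty _)
    rw [h4, finrank_top, finrank_fin_fun]
    rfl
  · obtain ⟨v, rfl⟩ := Finset.card_eq_one.1 hc
    obtain ⟨y, a, b, hX⟩ := ext1 (h1 v (Finset.mem_singleton_self v))
    have hs : Function.Surjective (LinearMap.funLeft k k (![0, 1, 2] : Fin 3 → Fin 6) ∘ₗ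
        enL ![x v, y, a, b]) := by
      rw [LinearMap.coe_comp]
      exact (funLeft_surj _ (by decide)).comp (enL_surj hX)
    have h4 := finrank_ker_of_surj _ hs
    have h5 : KT {v} x = LinearMap.ker (LinearMap.funLeft k k (![0, 1, 2] : Fin 3 → Fin 6) ∘ₗ
        enL ![x v, y, a, b]) := by
      ext c
      rw [LinearMap.mem_ker]
      constructor
      · intro h
        have h6 := h v (Finset.mem_singleton_self v)
        funext i
        fin_cases i
        · exact pr_eq_zero_of_ev h6 _
        · exact pr_eq_zero_of_ev h6 _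
        · exact pr_eq_zero_of_ev h6 _
      · intro h w hw
        rw [Finset.mem_singleton.1 hw]
        apply basis_ev hX
        intro j
        fin_cases j
        · exact pr_self _ _
        · exact congrFun h 0
        · exact congrFun h 1
        · exact congrFun h 2
    rw [h5, Finset.card_singleton]
    change _ + 3 = 6
    omega
  · obtain ⟨u, v, huv, rfl⟩ := Finset.card_eq_two.1 hc
    have hu : u ∈ ({u, v} : Finset V) := by simp
    have hv : v ∈ ({u, v} : Finset V) := by simp
    obtain ⟨a, b, hX⟩ := ext2 (h2 u hu v hv huv)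
    have hs : Function.Surjective (LinearMap.funLeft k k (![0, 1, 2, 3, 4] : Fin 5 → Fin 6) ∘ₗ
        enL ![x u, x v, a, b]) := by
      rw [LinearMap.coe_comp]
      exact (funLeft_surj _ (by decide)).comp (enL_surj hX)
    have h4 := finrank_ker_of_surj _ hs
    have h5 : KT {u, v} x = LinearMap.ker (LinearMap.funLeft k k
        (![0, 1, 2, 3, 4] : Fin 5 → Fin 6) ∘ₗ enL ![x u, x v, a, b]) := by
      ext c
      rw [LinearMap.mem_ker]
      constructor
      · intro h
        have h6 := h u hu
        have h7 := h v hv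
        funext i
        fin_cases i
        · exact pr_eq_zero_of_ev h6 _
        · exact pr_eq_zero_of_ev h6 _
        · exact pr_eq_zero_of_ev h6 _
        · exact pr_eq_zero_of_ev h7 _
        · exact pr_eq_zero_of_ev h7 _
      · intro h w hw
        rw [Finset.mem_insert, Finset.mem_singleton] at hw
        have e0 : pr c (x u) (x v) = 0 := congrFun h 0
        rcases hw with rfl | rfl
        · apply basis_ev hX
          intro j
          fin_cases j
          · exact pr_self _ _
          · exact e0
          · exact congrFun h 1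
          · exact congrFun h 2
        · apply basis_ev hX
          intro j
          fin_cases j
          · change pr c (x w) (x u) = 0
            rw [pr_swap, e0, neg_zero]
          · exact pr_self _ _
          · exact congrFun h 3
          · exact congrFun h 4
    rw [h5, Finset.card_pair huv]
    change _ + 5 = 6
    omega
  · obtain ⟨u, v, w, hu, hv, hw, huv, huw, hvw⟩ := Finset.two_lt_card_iff.1 (by omega : 2 < T.card)
    have h4 : KT T x = ⊥ := by
      rw [eq_bot_iff]
      intro c hcT
      rw [Submodule.mem_bot]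
      apply kill3 (h3 u hu v hv w hw huv huw hvw)
      intro i
      fin_cases i
      · exact hcT u hu
      · exact hcT v hv
      · exact hcT w hw
    have h5 : ∀ n, 3 ≤ n → cst n = 6 := by
      intro n hn
      match n, hn with
      | n + 3, _ => rfl
    rw [h4, finrank_bot, h5 _ hc]

end kdim

end Pool.Agent.W824.BJ
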