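import Mathlib
import Pool.Agent.H789R5.RF.Rank
import Pool.Agent.H283R2.DR.TaskC
import Pool.Agent.W824.BJ.Kdim

/-!
# From motions of the bodies to motions of the joints
-/

set_option autoImplicit false

namespace Pool.Agent.W824.BJ

open Finset Module

section real

variable {V C : Type}

/-- homogeneous coordinates -/
def hom (p : V → Fin 3 → ℝ) : V → Fin 4 → ℝ := fun v => ![p v 0, p v 1, p v 2, 1]

/-- homogeneous coordinates of a direction -/
def hom0 (p : V → Fin 3 → ℝ) : V → Fin 4 → ℝ := fun v => ![p v 0, p v 1, p v 2, 0]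

theorem ev_hom_zero {c : Fin 6 → ℝ} {p : V → Fin 3 → ℝ} {v : V} (h0 : ev c (hom p v) 0 = 0)
    (h1 : ev c (hom p v) 1 = 0) (h2 : ev c (hom p v) 2 = 0) : ev c (hom p v) = 0 := by
  have h4 : hom p v ⬝ᵥ ev c (hom p v) = 0 := by rw [dot_ev, pr_self]
  have h5 : ev c (hom p v) 3 = 0 := by
    have h6 : hom p v 3 = 1 := rfl
    simpa [dotProduct, Fin.sum_univ_four, h0, h1, h2, h6] using h4
  funext i
  fin_cases i
  · exact h0
  · exact h1
  · exact h2
  · exact h5

/-- the velocities of the joints -/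
noncomputable def Psi (σ : V → C) (p : V → Fin 3 → ℝ) :
    (C → Fin 6 → ℝ) →ₗ[ℝ] (V → Fin 3 → ℝ) :=
  LinearMap.pi fun v => LinearMap.funLeft ℝ ℝ (![0, 1, 2] : Fin 3 → Fin 4) ∘ₗ evL (hom p v) ∘ₗ
    LinearMap.proj (R := ℝ) (φ := fun _ : C => Fin 6 → ℝ) (σ v)

theorem Psi_apply (σ : V → C) (p : V → Fin 3 → ℝ) (n : C → Fin 6 → ℝ) (v : V) (i : Fin 3) :
    Psi σ p n v i = ev (n (σ v)) (hom p v) ((![0, 1, 2] : Fin 3 → Fin 4) i) := rfl

theorem Psi_zero_iff (σ : V → C) (p : V → Fin 3 → ℝ) (n : C → Fin 6 → ℝ) :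
    Psi σ p n = 0 ↔ ∀ v, ev (n (σ v)) (hom p v) = 0 := by
  constructor
  · intro h v
    have h1 := congrFun h v
    exact ev_hom_zero (congrFun h1 0) (congrFun h1 1) (congrFun h1 2)
  · intro h
    funext v i
    rw [Psi_apply, h v]
    rfl

/-- families of elements of submodules -/
def piSub {W : Type} [AddCommGroup W] [Module ℝ W] (K : C → Submodule ℝ W) :
    Submodule ℝ (C → W) where
  carrier := {n | ∀ c, n c ∈ K c}
  add_mem' := fun ha hb c => (K c).add_mem (ha c) (hb c)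
  zero_mem' := fun c => (K c).zero_mem
  smul_mem' := fun a _ hn c => (K c).smul_mem a (hn c)

theorem finrank_piSub [Fintype C] {W : Type} [AddCommGroup W] [Module ℝ W]
    [FiniteDimensional ℝ W] (K : C → Submodule ℝ W) :
    finrank ℝ (piSub K) = ∑ c, finrank ℝ (K c) := by
  rw [← Module.finrank_pi_fintype ℝ]
  apply LinearEquiv.finrank_eq
  exact
  { toFun := fun n c => ⟨n.1 c, n.2 c⟩
    map_add' := fun _ _ => rfl
    map_smul' := fun _ _ => rfl
    invFun := fun n => ⟨fun c => n c, fun c => (n c).2⟩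
    left_inv := fun _ => rfl
    right_inv := fun _ => rfl }

variable [Fintype V]

open Classical in
/-- the joints of a body -/
noncomputable def jt (σ τ : V → C) (c : C) : Finset V := univ.filter fun v => σ v = c ∨ τ v = c

theorem mem_jt {σ τ : V → C} {c : C} {v : V} : v ∈ jt σ τ c ↔ σ v = c ∨ τ v = c := by
  classical
  unfold jt
  rw [Finset.mem_filter]
  exact ⟨fun h => h.2, fun h => ⟨Finset.mem_univ _, h⟩⟩

/-- the velocity fields of the joints -/
noncomputable def Rg (σ τ : V → C) (p : V → Fin 3 → ℝ) : Submodule ℝ (V → Fin 3 → ℝ) :=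
  LinearMap.range (Psi σ p ∘ₗ (Mot σ τ univ (hom p)).subtype)

theorem finrank_Mot_eq [Fintype C] (σ τ : V → C) (p : V → Fin 3 → ℝ) :
    finrank ℝ (Mot σ τ univ (hom p)) =
      finrank ℝ (Rg σ τ p) + ∑ c, finrank ℝ (KT (jt σ τ c) (hom p)) := by
  rw [finrank_inf_ker (Mot σ τ univ (hom p)) (Psi σ p), ← finrank_piSub]
  have h : Mot σ τ univ (hom p) ⊓ LinearMap.ker (Psi σ p) =
      piSub fun c => KT (jt σ τ c) (hom p) := by
    ext n
    rw [Submodule.mem_inf, LinearMap.mem_ker, Psi_zero_iff, mem_mot']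
    constructor
    · rintro ⟨h1, h2⟩ c v hv
      rcases mem_jt.1 hv with rfl | rfl
      · exact h2 v
      · rw [← h1 v (Finset.mem_univ v)]
        exact h2 v
    · intro h
      have h1 : ∀ v, ev (n (σ v)) (hom p v) = 0 := fun v => h (σ v) v (mem_jt.2 (Or.inl rfl))
      refine ⟨fun v _ => ?_, h1⟩
      rw [h1 v]
      exact (h (τ v) v (mem_jt.2 (Or.inr rfl))).symm
  rw [h, add_comm]
  rfl

/-- velocity fields of the joints are motions of the graph -/
theorem Rg_le (σ τ : V → C) (p : V → Fin 3 → ℝ) (G : SimpleGraph V)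
    (hG : ∀ v w, G.Adj v w → σ v = σ w ∨ σ v = τ w ∨ τ v = σ w ∨ τ v = τ w) :
    Rg σ τ p ≤ Pool.Agent.H789R5.Mot G p := by
  rintro q ⟨n, rfl⟩
  rw [Pool.Agent.H789R5.mem_mot]
  intro v w hvw
  have hn := mem_mot'.1 n.2
  have key : ∀ c : Fin 6 → ℝ, ev ((n : C → Fin 6 → ℝ) (σ v)) (hom p v) = ev c (hom p v) →
      ev ((n : C → Fin 6 → ℝ) (σ w)) (hom p w) = ev c (hom p w) →
      (p v - p w) ⬝ᵥ (Psi σ p n v - Psi σ p n w) = 0 := by
    intro c h1 h2
    simp only [dotProduct, Fin.sum_univ_three, Pi.sub_apply, Psi_apply, h1, h2]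
    simp [ev, hom]
    ring
  rcases hG v w hvw with h | h | h | h
  · exact key _ rfl (by rw [h])
  · exact key _ rfl (by rw [h]; exact hn w (Finset.mem_univ w))
  · exact key ((n : C → Fin 6 → ℝ) (σ w)) (by rw [← h]; exact hn v (Finset.mem_univ v)) rfl
  · exact key ((n : C → Fin 6 → ℝ) (τ w)) (by rw [← h]; exact hn v (Finset.mem_univ v))
      (hn w (Finset.mem_univ w))

/-- the motions of the graph are velocity fields of the joints of rigid bodies -/
theorem le_Rg (s t : V → C) {p : V → Fin 3 → ℝ} (hp : Pool.Agent.H283R2.DR.Gen p)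
    (G : SimpleGraph V)
    (hG : ∀ v w, v ≠ w → (s v = s w ∨ s v = t w ∨ t v = s w ∨ t v = t w) → G.Adj v w) :
    Pool.Agent.H789R5.Mot G p ≤ Rg s t p := by
  intro q hq
  rw [Pool.Agent.H789R5.mem_mot] at hq
  have hr : ∀ c : C, ∃ (A : Matrix (Fin 3) (Fin 3) ℝ) (b : Fin 3 → ℝ), A.transpose = -A ∧
      ∀ v ∈ jt s t c, q v = A.mulVec (p v) + b := by
    intro c
    have h1 := Pool.Agent.H283R2.DR.rigid_complete hp G (jt s t c) (by
      intro u hu v hv huv
      apply hG u v huv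
      rcases mem_jt.1 hu with h1 | h1 <;> rcases mem_jt.1 hv with h2 | h2
      · exact Or.inl (h1.trans h2.symm)
      · exact Or.inr (Or.inl (h1.trans h2.symm))
      · exact Or.inr (Or.inr (Or.inl (h1.trans h2.symm)))
      · exact Or.inr (Or.inr (Or.inr (h1.trans h2.symm))))
    exact h1 q (fun u _ v _ huv => hq u v huv)
  choose A b hA hb using hr
  set n : C → Fin 6 → ℝ := fun c => ![A c 0 1, A c 0 2, b c 0, A c 1 2, b c 1, b c 2] with hn
  have hval : ∀ c, ∀ v ∈ jt s t c, ∀ i : Fin 3,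
      ev (n c) (hom p v) ((![0, 1, 2] : Fin 3 → Fin 4) i) = q v i := by
    intro c v hv i
    rw [hb c v hv]
    have e : ∀ i j, A c j i = - A c i j := by
      intro i j
      have := congrFun (congrFun (hA c) i) j
      simpa using this
    have e00 := e 0 0
    have e11 := e 1 1
    have e22 := e 2 2
    have e01 := e 0 1
    have e02 := e 0 2
    have e12 := e 1 2
    have f00 : A c 0 0 = 0 := by linarith
    have f11 : A c 1 1 = 0 := by linarith
    have f22 : A c 2 2 = 0 := by linarith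
    fin_cases i <;> simp [hn, ev, hom, Matrix.mulVec, dotProduct, Fin.sum_univ_three, f00, f11,
      f22, e01, e02, e12]
    all_goals ring
  have hmem : n ∈ Mot s t univ (hom p) := by
    rw [mem_mot]
    intro v _
    have h1 := hval (s v) v (mem_jt.2 (Or.inl rfl))
    have h2 := hval (t v) v (mem_jt.2 (Or.inr rfl))
    rw [ev_sub]
    have h3 : ∀ i : Fin 3, (ev (n (s v)) (hom p v) - ev (n (t v)) (hom p v))
        ((![0, 1, 2] : Fin 3 → Fin 4) i) = 0 := by
      intro i
      rw [Pi.sub_apply, h1 i, h2 i, sub_self]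
    rw [← ev_sub] at h3 ⊢
    exact ev_hom_zero (h3 0) (h3 1) (h3 2)
  refine ⟨⟨n, hmem⟩, ?_⟩
  funext v i
  exact hval (s v) v (mem_jt.2 (Or.inl rfl)) i

end real

end Pool.Agent.W824.BJ
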