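import Mathlib
import Pool.Agent.W824.BJ.Real

/-!
# A placement which is generic for the graph and for the bodies
-/

set_option autoImplicit false

namespace Pool.Agent.W824.BJ

open Finset Module MvPolynomial

/-- algebraically independent real numbers -/
theorem exists_alg (ι : Type) [Finite ι] : ∃ x : ι → ℝ, AlgebraicIndependent ℚ x := by
  classical
  obtain ⟨n, ⟨e0⟩⟩ := Finite.exists_equiv_fin ι
  obtain ⟨s, hs⟩ := exists_isTranscendenceBasis ℚ ℝ
  have hinf : s.Infinite := by
    intro hfin
    have hc : Countable s := hfin.countable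
    have h2 : Algebra.IsAlgebraic (Algebra.adjoin ℚ (Set.range ((↑) : s → ℝ))) ℝ :=
      hs.isAlgebraic
    have h1 := Algebra.IsAlgebraic.cardinalMk_le_max
      (Algebra.adjoin ℚ (Set.range ((↑) : s → ℝ))) ℝ
    have h3 : Cardinal.mk (Algebra.adjoin ℚ (Set.range ((↑) : s → ℝ))) ≤ Cardinal.aleph0 := by
      have h4 : Cardinal.mk (MvPolynomial s ℚ) ≤ Cardinal.aleph0 := by
        refine MvPolynomial.cardinalMk_le_max.trans ?_
        simp
      rwa [Cardinal.mk_congr hs.1.aevalEquiv.toEquiv] at h4
    rw [Cardinal.mk_real] at h1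
    exact absurd (h1.trans (max_le h3 le_rfl)) (not_le.2 Cardinal.aleph0_lt_continuum)
  have : Infinite s := hinf.to_subtype
  let e : ι ↪ s := e0.toEmbedding.trans (Fin.valEmbedding.trans (Infinite.natEmbedding s))
  exact ⟨fun v => (e v : ℝ), hs.1.comp e e.injective⟩

section place

variable {V C : Type} [Fintype V] [Fintype C]

/-- the dimension of the space of motions of the bodies at a placement -/
noncomputable def bd (s t : V → C) (p : V → Fin 3 → ℝ) : ℕ :=
  finrank ℝ (Mot s t univ (hom p))

theorem bd_ge (s t : V → C) (p : V → Fin 3 → ℝ) : mu s t univ ≤ bd s t p :=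
  finrank_GM_le s t univ (hom p)

theorem exists_bd (s t : V → C) : ∃ p : V → Fin 3 → ℝ, bd s t p = mu s t univ := by
  obtain ⟨y, hy⟩ := exists_alg (V × Fin 4)
  have h0 : ∀ v, y (v, 3) ≠ 0 := fun v => hy.ne_zero (v, 3)
  refine ⟨fun v => ![y (v, 0) / y (v, 3), y (v, 1) / y (v, 3), y (v, 2) / y (v, 3)], ?_⟩
  unfold bd mu
  rw [← finrank_eq_GM s t univ (fun v i => y (v, i)) hy]
  have h1 : ∀ v, hom (fun v => ![y (v, 0) / y (v, 3), y (v, 1) / y (v, 3), y (v, 2) / y (v, 3)]) v
      = (y (v, 3))⁻¹ • fun i => y (v, i) := by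
    intro v
    have := h0 v
    funext i
    fin_cases i
    · simp [hom]; ring
    · simp [hom]; ring
    · simp [hom]; ring
    · simp [hom, this]
  have h2 : Mot s t univ
      (hom (fun v => ![y (v, 0) / y (v, 3), y (v, 1) / y (v, 3), y (v, 2) / y (v, 3)])) =
      Mot s t univ fun v i => y (v, i) := by
    ext n
    rw [mem_mot, mem_mot]
    refine forall₂_congr fun v _ => ?_
    rw [h1 v, ev_smul_right, smul_eq_zero]
    constructor
    · rintro (h | h)
      · exact absurd h (inv_ne_zero (h0 v))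
      · exact h
    · exact fun h => Or.inr h
  rw [h2]

omit [Fintype C] in
theorem finrank_ker_conMap (s t : V → C) (y : V → Fin 4 → ℝ) :
    finrank ℝ (LinearMap.ker (conMap s t univ y)) = finrank ℝ (Mot s t univ y) := by
  classical
  have h3 : LinearMap.ker (conMap s t univ y) =
      (Mot s t univ y).comap (LinearEquiv.curry ℝ ℝ C (Fin 6)).toLinearMap := by
    ext n
    rw [LinearMap.mem_ker, Submodule.mem_comap]
    constructor
    · intro h e he
      funext i
      have := congrFun h (e, i)
      change (if e ∈ univ then ev (fun l => n (s e, l) - n (t e, l)) (y e) i else 0) = 0 at this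
      rw [if_pos he] at this
      exact this
    · intro h
      funext c
      change (if c.1 ∈ univ then ev (fun l => n (s c.1, l) - n (t c.1, l)) (y c.1) c.2 else 0) = 0
      split_ifs with hc
      · exact congrFun (h c.1 hc) c.2
      · rfl
  rw [h3, Submodule.comap_equiv_eq_map_symm]
  exact LinearEquiv.finrank_map_eq _ _

omit [Fintype C] in
theorem conMap_line (s t : V → C) (p0 p1 : V → Fin 3 → ℝ) (a : ℝ) :
    conMap s t univ (hom (p0 + a • p1)) =
      conMap s t univ (hom p0) + a • conMap s t univ (hom0 p1) := by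
  classical
  refine LinearMap.ext fun n => ?_
  funext c
  change (if c.1 ∈ univ then ev (fun l => n (s c.1, l) - n (t c.1, l)) (hom (p0 + a • p1) c.1) c.2
    else 0) = (if c.1 ∈ univ then ev (fun l => n (s c.1, l) - n (t c.1, l)) (hom p0 c.1) c.2
    else 0) + a * (if c.1 ∈ univ then ev (fun l => n (s c.1, l) - n (t c.1, l))
    (hom0 p1 c.1) c.2 else 0)
  rw [if_pos (Finset.mem_univ _), if_pos (Finset.mem_univ _), if_pos (Finset.mem_univ _)]
  have h1 : hom (p0 + a • p1) c.1 = hom p0 c.1 + a • hom0 p1 c.1 := by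
    funext i
    fin_cases i <;> simp [hom, hom0]
  rw [h1, ev_add_right, ev_smul_right]
  rfl

theorem bd_good (s t : V → C) :
    Pool.Agent.H283R2.DR.TA.Good (fun p : V → Fin 3 → ℝ => bd s t p ≤ mu s t univ) := by
  intro p0 p1 h0
  refine (Pool.Agent.H283R2.DR.TA.rank_good (conMap s t univ (hom p0))
    (conMap s t univ (hom0 (p1 - p0)))).subset ?_
  intro a ha
  rw [Set.mem_ofPred_eq] at ha ⊢
  rw [← conMap_line]
  have e1 := LinearMap.finrank_range_add_finrank_ker (conMap s t univ (hom p0))
  have e2 := LinearMap.finrank_range_add_finrank_ker (conMap s t univ (hom (p0 + a • (p1 - p0))))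
  rw [finrank_ker_conMap] at e1 e2
  unfold bd at ha h0
  omega

open Pool.Agent.H283R2.DR Pool.Agent.H283R2.DR.TA Pool.Agent.H789R5 in
theorem exists_place (s t : V → C) : ∃ p : V → Fin 3 → ℝ, MG p ∧ bd s t p = mu s t univ := by
  classical
  have h := good_family (E := V → Fin 3 → ℝ)
    (ι := Unit ⊕ (SimpleGraph V ⊕ ((SimpleGraph V × Set V) ⊕ (Σ n : Fin (3 + 2), (Fin n → V)))))
    (fun i p => match i with
      | Sum.inl _ => bd s t p ≤ mu s t univ
      | Sum.inr (Sum.inl G) => ∀ p' : V → Fin 3 → ℝ, mo G p ≤ mo G p'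
      | Sum.inr (Sum.inr (Sum.inl a)) =>
        (∃ p' : V → Fin 3 → ℝ, RigidOn a.1 a.2 p') → RigidOn a.1 a.2 p
      | Sum.inr (Sum.inr (Sum.inr a)) =>
        Function.Injective a.2 → AffineIndependent ℝ (fun i => p (a.2 i)))
      ?_ ?_
  · obtain ⟨p, hp⟩ := h
    refine ⟨p, ⟨⟨?_, ?_⟩, ?_⟩, le_antisymm (hp (Sum.inl ())) (bd_ge s t p)⟩
    · intro H U p' hp'
      exact hp (Sum.inr (Sum.inr (Sum.inl (H, U)))) ⟨p', hp'⟩
    · intro n x hn hx
      exact hp (Sum.inr (Sum.inr (Sum.inr ⟨⟨n, by omega⟩, x⟩))) hx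
    · intro G p'
      exact hp (Sum.inr (Sum.inl G)) p'
  · rintro (⟨⟩ | G | ⟨H, U⟩ | ⟨n, x⟩)
    · exact bd_good s t
    · exact min_good G
    · intro p0 p1 h0
      by_cases hex : ∃ p' : V → Fin 3 → ℝ, RigidOn H U p'
      · have h1 : InfRigid (H.induce U) (fun x : U => p0 x) :=
          (rigidOn_iff_induce H U p0).1 (h0 hex)
        refine (infRigid_good (H.induce U) (fun x : U => p0 x) (fun x : U => p1 x) h1).subset ?_
        intro s hs
        rw [Set.mem_ofPred_eq] at hs ⊢
        intro hc
        apply hs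
        intro _
        rw [rigidOn_iff_induce]
        exact hc
      · refine Set.finite_empty.subset ?_
        intro s hs
        exact absurd (fun h => absurd h hex) hs
    · intro p0 p1 h0
      by_cases hx : Function.Injective x
      · refine (affine_good x p0 p1 (h0 hx)).subset ?_
        intro s hs
        rw [Set.mem_ofPred_eq] at hs ⊢
        intro hc
        apply hs
        intro _
        exact hc
      · refine Set.finite_empty.subset ?_
        intro s hs
        exact absurd (fun h => absurd h hx) hs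
  · rintro (⟨⟩ | G | ⟨H, U⟩ | ⟨n, x⟩)
    · obtain ⟨p, hp⟩ := exists_bd s t
      exact ⟨p, hp.le⟩
    · exact exists_min G
    · by_cases hex : ∃ p' : V → Fin 3 → ℝ, RigidOn H U p'
      · obtain ⟨p', hp'⟩ := hex
        exact ⟨p', fun _ => hp'⟩
      · exact ⟨0, fun h => absurd h hex⟩
    · by_cases hx : Function.Injective x
      · obtain ⟨p, hp⟩ := affine_sat (d := 3) (by have := n.2; omega) x hx
        exact ⟨p, fun _ => hp⟩
      · exact ⟨0, fun h => absurd h hx⟩

end place

end Pool.Agent.W824.BJ
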