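import Mathlib
import Pool.Agent.W824.BJ.Place

/-!
# The generic rank of the graph of the joints
-/

set_option autoImplicit false

namespace Pool.Agent.W824.BJ

open Finset Module

theorem cst_le (n : ℕ) : cst n ≤ 6 := by
  match n with
  | 0 => decide
  | 1 => decide
  | 2 => decide
  | n + 3 => exact le_rfl

theorem cst_three {n : ℕ} (h : 3 ≤ n) : cst n = 6 := by
  match n, h with
  | n + 3, _ => rfl

/-- the generic rank of the complete graph with `n` vertices in `ℝ³` -/
def rho (n : ℕ) : ℕ := if n ≤ 1 then 0 else if n = 2 then 1 else 3 * n - 6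

theorem rho_add (n : ℕ) : rho n + cst n = 3 * n := by
  match n with
  | 0 => rfl
  | 1 => rfl
  | 2 => rfl
  | n + 3 =>
    have h1 : ¬ (n + 3 ≤ 1) := by omega
    have h2 : ¬ (n + 3 = 2) := by omega
    unfold rho
    rw [if_neg h1, if_neg h2, cst_three (by omega)]
    omega

section gp

open Pool.Agent.H789R5 in
theorem hom_li {V : Type} [Fintype V] {p : V → Fin 3 → ℝ} (hp : MG p) {n : ℕ} (hn : n ≤ 4)
    (x : Fin n → V) (hx : Function.Injective x) :
    LinearIndependent ℝ (fun i => hom p (x i)) := by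
  have h1 := hp.pos n x (by omega) hx
  rw [affineIndependent_iff] at h1
  rw [Fintype.linearIndependent_iff]
  intro g hg i
  refine h1 univ g ?_ ?_ i (Finset.mem_univ i)
  · have h2 := congrFun hg 3
    simpa [hom, Finset.sum_apply] using h2
  · funext j
    have h0 := congrFun hg 0
    have h1 := congrFun hg 1
    have h2 := congrFun hg 2
    simp only [Finset.sum_apply, Pi.smul_apply, smul_eq_mul, Pi.zero_apply] at h0 h1 h2 ⊢
    fin_cases j
    · exact h0
    · exact h1
    · exact h2

open Pool.Agent.H789R5 in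
theorem finrank_KT_hom {V : Type} [Fintype V] {p : V → Fin 3 → ℝ} (hp : MG p) (T : Finset V) :
    finrank ℝ (KT T (hom p)) + cst T.card = 6 := by
  apply finrank_KT
  · intro v _ h
    have h1 := congrFun h 3
    simp [hom] at h1
  · intro u _ v _ huv
    have h := hom_li hp (n := 2) (by omega) ![u, v] (by
      intro i j hij
      fin_cases i <;> fin_cases j <;> simp_all)
    have e : (fun i => hom p ((![u, v] : Fin 2 → V) i)) = ![hom p u, hom p v] := by
      funext i
      fin_cases i <;> rfl
    rw [← e]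
    exact h
  · intro u _ v _ w _ huv huw hvw
    have h := hom_li hp (n := 3) (by omega) ![u, v, w] (by
      intro i j hij
      fin_cases i <;> fin_cases j <;> simp_all)
    have e : (fun i => hom p ((![u, v, w] : Fin 3 → V) i)) = ![hom p u, hom p v, hom p w] := by
      funext i
      fin_cases i <;> rfl
    rw [← e]
    exact h

theorem li2 {k : Type*} [Field k] {X Y : Fin 4 → k} (h : X 0 * Y 1 - X 1 * Y 0 ≠ 0) :
    LinearIndependent k ![X, Y] := by
  apply LinearIndependent.of_comp (LinearMap.funLeft k k (![0, 1] : Fin 2 → Fin 4))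
  have h1 := Matrix.linearIndependent_rows_of_det_ne_zero
    (A := (Matrix.of fun i j => (LinearMap.funLeft k k (![0, 1] : Fin 2 → Fin 4)
      ((![X, Y] : Fin 2 → Fin 4 → k) i)) j : Matrix (Fin 2) (Fin 2) k)) (by
      rw [Matrix.det_fin_two]
      intro h2
      apply h
      simp [LinearMap.funLeft] at h2
      linear_combination h2)
  exact h1

theorem finrank_KT_gx {V : Type} (T : Finset V) :
    finrank (PK V) (KT T (gx V)) + cst T.card = 6 := by
  apply finrank_KT
  · intro v _ h
    exact gx_ne v 0 (congrFun h 0)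
  · intro u _ v _ huv
    exact li2 (gx_minor huv)
  · intro u _ v _ w _ huv huw hvw
    exact li3 (gx_minor3 huv huw hvw)

end gp

section count

variable {V C : Type} [Fintype V] [Fintype C] [DecidableEq C]

theorem two_sum_jt (σ τ : V → C) :
    2 * ∑ c, (jt σ τ c).card =
      2 * Fintype.card V + ∑ q ∈ (univ : Finset C).offDiag, cnt σ τ univ q.1 q.2 := by
  have h1 : ∑ c, (jt σ τ c).card = ∑ v : V, if σ v = τ v then 1 else 2 := by
    have h2 := Finset.sum_card_bipartiteAbove_eq_sum_card_bipartiteBelow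
      (s := (univ : Finset C)) (t := (univ : Finset V)) (fun c v => σ v = c ∨ τ v = c)
    unfold Finset.bipartiteAbove Finset.bipartiteBelow at h2
    have h3 : ∀ c, (jt σ τ c).card = (univ.filter fun v => σ v = c ∨ τ v = c).card := by
      intro c
      congr 1
      ext v
      rw [mem_jt, Finset.mem_filter]
      exact ⟨fun h => ⟨Finset.mem_univ _, h⟩, fun h => h.2⟩
    simp only [h3]
    rw [h2]
    apply Finset.sum_congr rfl
    intro v _
    have h4 : (univ.filter fun c => σ v = c ∨ τ v = c) = {σ v, τ v} := by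
      ext c
      simp only [Finset.mem_filter, Finset.mem_univ, true_and, Finset.mem_insert,
        Finset.mem_singleton]
      exact or_congr eq_comm eq_comm
    rw [h4]
    split_ifs with h
    · rw [h]
      simp
    · exact Finset.card_pair h
  have h2 : ∑ q ∈ (univ : Finset C).offDiag, cnt σ τ univ q.1 q.2 =
      ∑ v : V, if σ v = τ v then 0 else 2 := by
    unfold cnt
    have h3 := Finset.sum_card_bipartiteAbove_eq_sum_card_bipartiteBelow
      (s := (univ : Finset C).offDiag) (t := (univ : Finset V))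
      (fun q v => (σ v = q.1 ∧ τ v = q.2) ∨ (σ v = q.2 ∧ τ v = q.1))
    unfold Finset.bipartiteAbove Finset.bipartiteBelow at h3
    rw [h3]
    apply Finset.sum_congr rfl
    intro v _
    split_ifs with h
    · rw [Finset.card_eq_zero, Finset.filter_eq_empty_iff]
      rintro q hq (⟨h4, h5⟩ | ⟨h4, h5⟩)
      · exact (Finset.mem_offDiag.1 hq).2.2 (h4.symm.trans (h.trans h5))
      · exact (Finset.mem_offDiag.1 hq).2.2 (h5.symm.trans (h.symm.trans h4))
    · have h4 : ((univ : Finset C).offDiag.filter fun q => (σ v = q.1 ∧ τ v = q.2) ∨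
          (σ v = q.2 ∧ τ v = q.1)) = {(σ v, τ v), (τ v, σ v)} := by
        ext q
        rw [Finset.mem_filter, Finset.mem_offDiag, Finset.mem_insert, Finset.mem_singleton]
        constructor
        · rintro ⟨-, ⟨h5, h6⟩ | ⟨h5, h6⟩⟩
          · exact Or.inl (Prod.ext h5.symm h6.symm)
          · exact Or.inr (Prod.ext h6.symm h5.symm)
        · rintro (rfl | rfl)
          · exact ⟨⟨Finset.mem_univ _, Finset.mem_univ _, h⟩, Or.inl ⟨rfl, rfl⟩⟩
          · exact ⟨⟨Finset.mem_univ _, Finset.mem_univ _, Ne.symm h⟩, Or.inr ⟨rfl, rfl⟩⟩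
      rw [h4, Finset.card_pair]
      intro h5
      exact h (Prod.ext_iff.1 h5).1
  rw [h1, h2, Finset.mul_sum]
  have h3 : 2 * Fintype.card V = ∑ v : V, 2 := by simp [mul_comm]
  rw [h3, ← Finset.sum_add_distrib]
  apply Finset.sum_congr rfl
  intro v _
  split_ifs <;> rfl

/-- twice the first sum of the formula -/
noncomputable def R1 (σ τ : V → C) : ℕ := ∑ c, rho (jt σ τ c).card

/-- the second sum of the formula, over ordered pairs -/
def R2 (σ τ : V → C) : ℕ := ∑ q ∈ (univ : Finset C).offDiag, rho (cnt σ τ univ q.1 q.2)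

theorem R_eq (σ τ : V → C) : 2 * R1 σ τ + 2 * ∑ c, cst (jt σ τ c).card =
    6 * Fintype.card V + R2 σ τ + S2 σ τ univ := by
  have h1 : R1 σ τ + ∑ c, cst (jt σ τ c).card = 3 * ∑ c, (jt σ τ c).card := by
    unfold R1
    rw [← Finset.sum_add_distrib, Finset.mul_sum]
    exact Finset.sum_congr rfl fun c _ => rho_add _
  have h2 : R2 σ τ + S2 σ τ univ =
      3 * ∑ q ∈ (univ : Finset C).offDiag, cnt σ τ univ q.1 q.2 := by
    unfold R2 S2
    rw [← Finset.sum_add_distrib, Finset.mul_sum]
    exact Finset.sum_congr rfl fun c _ => rho_add _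
  have h3 := two_sum_jt σ τ
  omega

omit [DecidableEq C] in
open Pool.Agent.H789R5 in
theorem Rg_add {p : V → Fin 3 → ℝ} (hp : MG p) (σ τ : V → C) :
    bd σ τ p + ∑ c, cst (jt σ τ c).card = finrank ℝ (Rg σ τ p) + 6 * Fintype.card C := by
  unfold bd
  rw [finrank_Mot_eq]
  have h1 : ∑ c, finrank ℝ (KT (jt σ τ c) (hom p)) + ∑ c, cst (jt σ τ c).card =
      6 * Fintype.card C := by
    rw [← Finset.sum_add_distrib, Finset.sum_congr rfl fun c _ => finrank_KT_hom hp _]
    simp [mul_comm]
  omega

open Pool.Agent.H789R5 in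
/-- the upper bound for the rank -/
theorem rank_le {p : V → Fin 3 → ℝ} (hp : MG p) (σ τ : V → C) (G : SimpleGraph V)
    (hG : ∀ v w, G.Adj v w → σ v = σ w ∨ σ v = τ w ∨ τ v = σ w ∨ τ v = τ w) :
    2 * genRank 3 G + R2 σ τ ≤ 2 * R1 σ τ := by
  classical
  have h1 := R_eq σ τ
  have h2 := Rg_add hp σ τ
  have h3 := genRank_add hp G
  have h4 : finrank ℝ (Rg σ τ p) ≤ mo G p := Submodule.finrank_mono (Rg_le σ τ p G hG)
  have h5 := bd_ge σ τ p
  have h6 := two_mu_ge σ τ (univ : Finset V)
  omega

end count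

section lower

variable {V B : Type} [Fintype V] [Fintype B]

omit [Fintype B] in
/-- a body with at most two joints moves together with no other body -/
theorem three_le (s t : V → B) (hst : ∀ v, s v ≠ t v) {b b' : B} (hne : b ≠ b')
    (h : ∀ n ∈ GM s t univ, n b = n b') : 3 ≤ (jt s t b).card := by
  classical
  by_contra hcon
  push Not at hcon
  have h1 := finrank_KT_gx (jt s t b)
  have h2 : cst (jt s t b).card ≤ 5 := by
    have : (jt s t b).card = 0 ∨ (jt s t b).card = 1 ∨ (jt s t b).card = 2 := by omega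
    rcases this with h | h | h <;> rw [h] <;> decide
  have h3 : KT (jt s t b) (gx V) ≠ ⊥ := by
    intro h4
    rw [h4, finrank_bot] at h1
    omega
  obtain ⟨d, hd, hd0⟩ := Submodule.exists_mem_ne_zero_of_ne_bot h3
  have h4 : Pi.single b d ∈ GM s t univ := by
    intro e _
    by_cases h5 : s e = b
    · have h6 : t e ≠ b := fun h => hst e (h5.trans h.symm)
      rw [h5, Pi.single_eq_same, Pi.single_eq_of_ne h6, sub_zero]
      exact hd e (mem_jt.2 (Or.inl h5))
    · by_cases h6 : t e = b
      · rw [h6, Pi.single_eq_same, Pi.single_eq_of_ne h5, zero_sub, ev_neg,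
          hd e (mem_jt.2 (Or.inr h6)), neg_zero]
      · rw [Pi.single_eq_of_ne h5, Pi.single_eq_of_ne h6, sub_zero, ev_zero]
  have h5 := h _ h4
  rw [Pi.single_eq_same, Pi.single_eq_of_ne hne.symm] at h5
  exact hd0 h5

theorem sum_class (s t : V → B) (hst : ∀ v, s v ≠ t v)
    [Fintype (Quotient (rigRel s t (univ : Finset V)))] :
    ∑ b, (6 - cst (jt s t b).card) =
      ∑ c, (6 - cst (jt (qs (rigRel s t univ) s) (qs (rigRel s t univ) t) c).card) := by
  classical
  rw [← Finset.sum_fiberwise univ (fun b => Quotient.mk (rigRel s t univ) b)]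
  apply Finset.sum_congr rfl
  intro c _
  obtain ⟨b0, hb0⟩ := Quotient.exists_rep c
  by_cases h : ∀ b, Quotient.mk (rigRel s t univ) b = c → b = b0
  · have h1 : (univ.filter fun b => Quotient.mk (rigRel s t univ) b = c) = {b0} := by
      ext b
      rw [Finset.mem_filter, Finset.mem_singleton]
      exact ⟨fun hb => h b hb.2, fun hb => ⟨Finset.mem_univ _, hb ▸ hb0⟩⟩
    have h2 : jt (qs (rigRel s t univ) s) (qs (rigRel s t univ) t) c = jt s t b0 := by
      ext v
      rw [mem_jt, mem_jt]
      constructor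
      · rintro (h3 | h3)
        · exact Or.inl (h _ h3)
        · exact Or.inr (h _ h3)
      · rintro (h3 | h3)
        · left
          change Quotient.mk _ (s v) = c
          rw [h3, hb0]
        · right
          change Quotient.mk _ (t v) = c
          rw [h3, hb0]
    rw [h1, Finset.sum_singleton, h2]
  · push Not at h
    obtain ⟨b1, hb1, hne⟩ := h
    have h3 : ∀ b, Quotient.mk (rigRel s t univ) b = c → 3 ≤ (jt s t b).card := by
      intro b hb
      by_cases hbb : b = b0
      · have h4 : (rigRel s t univ) b b1 := Quotient.exact (hb.trans hb1.symm)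
        exact three_le s t hst (fun h => hne (by rw [← h, hbb])) h4
      · have h4 : (rigRel s t univ) b b0 := Quotient.exact (hb.trans hb0.symm)
        exact three_le s t hst hbb h4
    have h4 : jt s t b0 ⊆ jt (qs (rigRel s t univ) s) (qs (rigRel s t univ) t) c := by
      intro v hv
      rw [mem_jt] at hv ⊢
      rcases hv with h5 | h5
      · left
        change Quotient.mk _ (s v) = c
        rw [h5, hb0]
      · right
        change Quotient.mk _ (t v) = c
        rw [h5, hb0]
    have h5 := (h3 b0 hb0).trans (Finset.card_le_card h4)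
    rw [cst_three h5]
    apply Finset.sum_eq_zero
    intro b hb
    rw [cst_three (h3 b (Finset.mem_filter.1 hb).2), Nat.sub_self]

open Pool.Agent.H789R5 in
/-- the partition into the classes of bodies which move together -/
theorem rank_eq (s t : V → B) (hst : ∀ v, s v ≠ t v) (G : SimpleGraph V)
    (hG : ∀ v w, v ≠ w → (s v = s w ∨ s v = t w ∨ t v = s w ∨ t v = t w) → G.Adj v w)
    (hG' : ∀ v w, G.Adj v w → s v = s w ∨ s v = t w ∨ t v = s w ∨ t v = t w)
    [Fintype (Quotient (rigRel s t (univ : Finset V)))]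
    [DecidableEq (Quotient (rigRel s t (univ : Finset V)))] :
    2 * genRank 3 G + R2 (qs (rigRel s t univ) s) (qs (rigRel s t univ) t) =
      2 * R1 (qs (rigRel s t univ) s) (qs (rigRel s t univ) t) := by
  classical
  obtain ⟨p, hp, hbd⟩ := exists_place s t
  have h1 := R_eq (qs (rigRel s t univ) s) (qs (rigRel s t univ) t)
  have h2 := Rg_add hp s t
  have h3 := genRank_add hp G
  have h4 : mo G p = finrank ℝ (Rg s t p) := by
    unfold mo
    rw [le_antisymm (Rg_le s t p G hG') (le_Rg s t hp.toGen G hG)]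
  have h5 := two_mu_eq _ _ (univ : Finset V) (NR_con s t univ)
  have h6 := mu_con s t (univ : Finset V)
  have h7 := sum_class s t hst
  have h8 : ∀ {D : Type} [Fintype D] (f : D → ℕ), ∑ d, (6 - cst (f d)) + ∑ d, cst (f d) =
      6 * Fintype.card D := by
    intro D _ f
    rw [← Finset.sum_add_distrib,
      Finset.sum_congr rfl fun d _ => Nat.sub_add_cancel (cst_le (f d))]
    simp [mul_comm]
  have h9 := h8 fun b => (jt s t b).card
  have h10 := h8 fun c => (jt (qs (rigRel s t univ) s) (qs (rigRel s t univ) t) c).card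
  omega

/-- at most two joints between two bodies which do not move together -/
theorem cnt_le_two {C : Type} [DecidableEq C] {σ τ : V → C} (hNR : NR σ τ (univ : Finset V))
    {u v : C} (huv : u ≠ v) : cnt σ τ univ u v ≤ 2 := by
  by_contra hcon
  push Not at hcon
  obtain ⟨e, f, g, he, hf, hg, hef, heg, hfg⟩ := Finset.two_lt_card_iff.1 hcon
  rw [Finset.mem_filter] at he hf hg
  have hp : ∀ x y : V, ((σ x = u ∧ τ x = v) ∨ (σ x = v ∧ τ x = u)) →
      ((σ y = u ∧ τ y = v) ∨ (σ y = v ∧ τ y = u)) → par σ τ x y := by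
    rintro x y (⟨h1, h2⟩ | ⟨h1, h2⟩) (⟨h3, h4⟩ | ⟨h3, h4⟩)
    · exact Or.inl ⟨h1.trans h3.symm, h2.trans h4.symm⟩
    · exact Or.inr ⟨h1.trans h4.symm, h2.trans h3.symm⟩
    · exact Or.inr ⟨h1.trans h4.symm, h2.trans h3.symm⟩
    · exact Or.inl ⟨h1.trans h3.symm, h2.trans h4.symm⟩
  obtain ⟨n, hn, hne⟩ := hNR u v huv
  have h1 := eq_of_par3 (Finset.mem_univ e) (Finset.mem_univ f) (Finset.mem_univ g) hef heg hfg
    (hp e e he.2 he.2) (hp f e hf.2 he.2) (hp g e hg.2 he.2) hn
  rcases he.2 with ⟨h2, h3⟩ | ⟨h2, h3⟩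
  · rw [h2, h3] at h1
    exact hne h1
  · rw [h2, h3] at h1
    exact hne h1.symm

open Pool.Agent.H789R5 Pool.Agent.H283R2.DR in
/-- five joints across each cut are enough for rigidity -/
theorem conn5 (s t : V → B) (hst : ∀ v, s v ≠ t v) (G : SimpleGraph V)
    (hG : ∀ v w, v ≠ w → (s v = s w ∨ s v = t w ∨ t v = s w ∨ t v = t w) → G.Adj v w)
    (hG' : ∀ v w, G.Adj v w → s v = s w ∨ s v = t w ∨ t v = s w ∨ t v = t w)
    (hV : 3 ≤ Fintype.card V)
    (hcut : ∀ X : Set B, X.Nonempty → X ≠ Set.univ → 5 ≤ {v | ¬ (s v ∈ X ↔ t v ∈ X)}.ncard) :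
    GenRigid 3 G := by
  classical
  set C := Quotient (rigRel s t (univ : Finset V)) with hC
  set σ := qs (rigRel s t univ) s with hσ
  set τ := qs (rigRel s t univ) t with hτ
  have hNR : NR σ τ (univ : Finset V) := NR_con s t univ
  obtain ⟨v0⟩ : Nonempty V := Fintype.card_pos_iff.1 (by omega)
  have hone : ∀ c c' : C, c = c' := by
    by_contra hcon
    push Not at hcon
    obtain ⟨c1, c2, hne⟩ := hcon
    have h5 : ∀ c : C, 5 ≤ ∑ q ∈ (univ : Finset C).offDiag.filter (fun q => q.1 = c),
        cnt σ τ univ q.1 q.2 := by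
      intro c
      have h1 : ∃ c', c' ≠ c := by
        by_cases h : c1 = c
        · exact ⟨c2, fun h' => hne (h.trans h'.symm)⟩
        · exact ⟨c1, h⟩
      obtain ⟨c', hc'⟩ := h1
      obtain ⟨b, hb⟩ := Quotient.exists_rep c
      obtain ⟨b', hb'⟩ := Quotient.exists_rep c'
      have h2 := hcut {x | Quotient.mk (rigRel s t univ) x = c} ⟨b, hb⟩ (by
        intro h
        have h3 : b' ∈ {x | Quotient.mk (rigRel s t univ) x = c} := by
          rw [h]; exact Set.mem_univ _
        exact hc' (hb'.symm.trans h3))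
      refine h2.trans ?_
      have h3 : {v | ¬ (s v ∈ {x | Quotient.mk (rigRel s t univ) x = c} ↔
          t v ∈ {x | Quotient.mk (rigRel s t univ) x = c})} =
          ((univ.filter fun v => ¬ (σ v = c ↔ τ v = c) : Finset V) : Set V) := by
        ext v
        simp only [Finset.coe_filter, Finset.mem_univ, true_and]
        rfl
      rw [h3, Set.ncard_coe_finset]
      refine (Finset.card_le_card (t := ((univ : Finset C).offDiag.filter
        (fun q => q.1 = c)).biUnion fun q => univ.filter fun e =>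
          (σ e = q.1 ∧ τ e = q.2) ∨ (σ e = q.2 ∧ τ e = q.1)) ?_).trans Finset.card_biUnion_le
      intro v hv
      rw [Finset.mem_filter] at hv
      rw [Finset.mem_biUnion]
      by_cases h4 : σ v = c
      · have h5 : τ v ≠ c := fun h => hv.2 ⟨fun _ => h, fun _ => h4⟩
        refine ⟨(c, τ v), ?_, ?_⟩
        · rw [Finset.mem_filter, Finset.mem_offDiag]
          exact ⟨⟨Finset.mem_univ _, Finset.mem_univ _, Ne.symm h5⟩, rfl⟩
        · rw [Finset.mem_filter]
          exact ⟨Finset.mem_univ _, Or.inl ⟨h4, rfl⟩⟩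
      · have h5 : τ v = c := by
          by_contra h5
          exact hv.2 ⟨fun h => absurd h h4, fun h => absurd h h5⟩
        refine ⟨(c, σ v), ?_, ?_⟩
        · rw [Finset.mem_filter, Finset.mem_offDiag]
          exact ⟨⟨Finset.mem_univ _, Finset.mem_univ _, Ne.symm h4⟩, rfl⟩
        · rw [Finset.mem_filter]
          exact ⟨Finset.mem_univ _, Or.inr ⟨rfl, h5⟩⟩
    have h6 : ∀ n, n ≤ 2 → 5 * n ≤ 2 * cst n := by
      intro n hn
      interval_cases n <;> decide
    have h7 : 25 * Fintype.card C ≤ 2 * S2 σ τ univ := by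
      unfold S2
      rw [← Finset.sum_fiberwise (univ : Finset C).offDiag Prod.fst, Finset.mul_sum]
      have h8 : 25 * Fintype.card C = ∑ c : C, 25 := by simp [mul_comm]
      rw [h8]
      apply Finset.sum_le_sum
      intro c _
      have h9 : 5 * ∑ q ∈ (univ : Finset C).offDiag.filter (fun q => q.1 = c),
          cnt σ τ univ q.1 q.2 ≤ 2 * ∑ q ∈ (univ : Finset C).offDiag.filter (fun q => q.1 = c),
          cst (cnt σ τ univ q.1 q.2) := by
        rw [Finset.mul_sum, Finset.mul_sum]
        apply Finset.sum_le_sum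
        intro q hq
        rw [Finset.mem_filter, Finset.mem_offDiag] at hq
        exact h6 _ (cnt_le_two hNR hq.1.2.2)
      have h10 := h5 c
      omega
    have h8 : 2 * mu σ τ univ + S2 σ τ univ = 12 * Fintype.card C := two_mu_eq σ τ univ hNR
    have h9 : 0 < Fintype.card C := Fintype.card_pos_iff.2 ⟨c1⟩
    omega
  have h1 := rank_eq s t hst G hG hG'
  have hR2 : R2 σ τ = 0 := by
    unfold R2
    apply Finset.sum_eq_zero
    intro q hq
    exact absurd (hone q.1 q.2) (Finset.mem_offDiag.1 hq).2.2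
  have hR1 : R1 σ τ = 3 * Fintype.card V - 6 := by
    unfold R1
    have h2 : (univ : Finset C) = {σ v0} := by
      ext c
      rw [Finset.mem_singleton]
      exact ⟨fun _ => hone _ _, fun _ => Finset.mem_univ _⟩
    have h3 : jt σ τ (σ v0) = univ := by
      ext v
      rw [mem_jt]
      exact ⟨fun _ => Finset.mem_univ _, fun _ => Or.inl (hone _ _)⟩
    rw [h2, Finset.sum_singleton, h3, Finset.card_univ]
    have h4 : ¬ (Fintype.card V ≤ 1) := by omega
    have h5 : ¬ (Fintype.card V = 2) := by omega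
    unfold rho
    rw [if_neg h4, if_neg h5]
  obtain ⟨p, hp⟩ := exists_mg V 3
  rw [genRigid_iff hp hV]
  have h2 := genRank_add hp G
  rw [← hσ, ← hτ, hR2, hR1] at h1
  omega

end lower

end Pool.Agent.W824.BJ
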